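import Pool.Agent.Work.MP_b51559_nt.DQ.StmtsA
import Pool.Agent.Work.MP_b51559_nt.BG.Q.I_Q8

set_option autoImplicit false

/-!
# Block DQ, item A_BVL
-/

namespace MPb51559.DQ

open Finset Filter Topology MeasureTheory
open scoped Classical
open MPb51559.BG MPb51559.BG.Q

namespace I_BVL

/-- the indicator of an interval `[0, c]`, `c` any real number -/
theorem indcc' (c : ℝ) :
    eVariationOn (fun s : ℝ => if 0 ≤ s ∧ s ≤ c then (1 : ℝ) else 0) Set.univ ≤ (2 : NNReal) := by
  rcases le_or_gt 0 c with hc | hc
  · exact I_Q8.indcc c hc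
  · have : (fun s : ℝ => if 0 ≤ s ∧ s ≤ c then (1 : ℝ) else 0) = fun _ => 0 := by
      funext s
      rw [if_neg]
      rintro ⟨h1, h2⟩
      linarith
    rw [this, PH_const]
    exact bot_le

theorem meas_ind {k : ℕ} (N : Finset (Fin k)) (a : ℝ) : MeasurableSet {t : Fin k → ℝ | ind N a t} := by
  unfold ind
  refine MeasurableSet.inter ?_ ?_
  · have h0 : {t : Fin k → ℝ | ∀ j ∈ N, 0 ≤ t j} = ⋂ j ∈ N, {t : Fin k → ℝ | 0 ≤ t j} := by
      ext t
      simp
    show MeasurableSet {t : Fin k → ℝ | ∀ j ∈ N, 0 ≤ t j}
    rw [h0]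
    exact Finset.measurableSet_biInter N fun j _ =>
      measurableSet_le measurable_const (measurable_pi_apply j)
  · exact measurableSet_le (Finset.measurable_sum N fun j _ => measurable_pi_apply j)
      measurable_const

theorem ind_update_notMem {k : ℕ} (N : Finset (Fin k)) (a : ℝ) (t : Fin k → ℝ) (i : Fin k) (u : ℝ)
    (hi : i ∉ N) : ind N a (Function.update t i u) ↔ ind N a t := by
  unfold ind
  have h : ∀ j ∈ N, Function.update t i u j = t j := fun j hj =>
    Function.update_of_ne (fun hji => hi (by rw [← hji]; exact hj)) _ _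
  rw [Finset.sum_congr rfl h]
  constructor
  · rintro ⟨h1, h2⟩
    exact ⟨fun j hj => h j hj ▸ h1 j hj, h2⟩
  · rintro ⟨h1, h2⟩
    exact ⟨fun j hj => (h j hj).symm ▸ h1 j hj, h2⟩

theorem ind_update_mem {k : ℕ} (N : Finset (Fin k)) (a : ℝ) (t : Fin k → ℝ) (i : Fin k) (u : ℝ)
    (hi : i ∈ N) : ind N a (Function.update t i u) ↔
      (∀ j ∈ N.erase i, 0 ≤ t j) ∧ (0 ≤ u ∧ u ≤ a - ∑ j ∈ N.erase i, t j) := by
  unfold ind
  have h : ∀ j ∈ N.erase i, Function.update t i u j = t j := fun j hj =>
    Function.update_of_ne (Finset.ne_of_mem_erase hj) _ _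
  rw [← Finset.add_sum_erase N _ hi, Finset.sum_congr rfl h, Function.update_self]
  constructor
  · rintro ⟨h1, h2⟩
    refine ⟨fun j hj => ?_, ?_, by linarith⟩
    · have := h1 j (Finset.mem_of_mem_erase hj)
      rwa [h j hj] at this
    · have := h1 i hi
      rwa [Function.update_self] at this
  · rintro ⟨h1, h2, h3⟩
    refine ⟨fun j hj => ?_, by linarith⟩
    by_cases hji : j = i
    · subst hji
      rwa [Function.update_self]
    · rw [Function.update_of_ne hji]
      exact h1 j (Finset.mem_erase.2 ⟨hji, hj⟩)

end I_BVL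

open I_BVL in
theorem pra_BVL (hB : C_BVM) : A_BVL := by
  intro k s M V hs hs1 hM N m G hmN hG
  have hG2 : ∀ t, |G t ^ 2| ≤ M ^ 2 := by
    intro t
    rw [abs_pow]
    exact pow_le_pow_left₀ (abs_nonneg _) (hG.bdd t) 2
  have hM2 : (0 : ℝ) ≤ M ^ 2 := by positivity
  have hΨ : cutm m (fun t => if ind N (1 - s) t then G t ^ 2 else 0) =
      fun t => if 0 ≤ t m ∧ t m < 1 then (if ind N (1 - s) t then G t ^ 2 else 0) else 0 := rfl
  rw [hΨ]
  refine ⟨?_, ?_, ?_, ?_⟩
  · refine Measurable.ite ?_ (Measurable.ite (meas_ind N (1 - s)) (hG.meas.pow_const 2)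
      measurable_const) measurable_const
    exact (measurableSet_le measurable_const (measurable_pi_apply m)).inter
      (measurableSet_lt (measurable_pi_apply m) measurable_const)
  · intro t ht
    by_cases h1 : 0 ≤ t m ∧ t m < 1
    · rw [if_pos h1] at ht
      by_cases h2 : ind N (1 - s) t
      · rw [if_pos h2] at ht
        have h3 : G t ≠ 0 := fun hc => ht (by rw [hc]; norm_num)
        obtain ⟨d1, d2⟩ := hG.supp t h3
        intro i
        by_cases him : i = m
        · subst him
          exact ⟨h1.1, h1.2.le⟩
        · by_cases hiN : i ∈ N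
          · refine ⟨h2.1 i hiN, ?_⟩
            have := Finset.single_le_sum (f := t) (s := N) (fun j hj => h2.1 j hj) hiN
            linarith [h2.2]
          · have hin : i ∉ insert m N := by
              rw [Finset.mem_insert]
              exact fun h => h.elim him hiN
            refine ⟨d1 i hin, ?_⟩
            have := Finset.single_le_sum (f := t) (s := (insert m N)ᶜ)
              (fun j hj => d1 j (Finset.mem_compl.1 hj)) (Finset.mem_compl.2 hin)
            linarith
      · rw [if_neg h2] at ht
        exact absurd rfl ht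
    · rw [if_neg h1] at ht
      exact absurd rfl ht
  · intro t
    split_ifs
    · exact hG2 t
    · rw [abs_zero]; positivity
    · rw [abs_zero]; positivity
  · intro t i
    rw [ENNReal.coe_add]
    by_cases him : i = m
    · subst him
      refine le_trans ?_ (le_add_right le_rfl)
      have e : (fun u => (fun t : Fin k → ℝ => if 0 ≤ t i ∧ t i < 1 then
          (if ind N (1 - s) t then G t ^ 2 else 0) else 0)
          (Function.update t i u)) = fun u : ℝ => if 0 ≤ u ∧ u < 1 then
            (if ind N (1 - s) t then G t ^ 2 else 0) else 0 := by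
        funext u
        simp only [Function.update_self, ind_update_notMem N _ t i u hmN,
          hG.indep i (Finset.mem_insert_self i N)]
      rw [e]
      refine I_Q8.cind hB (fun u => 0 ≤ u ∧ u < 1) (M ^ 2) I_Q8.indco
        (if ind N (1 - s) t then G t ^ 2 else 0) ?_
      split_ifs
      · exact hG2 t
      · rw [abs_zero]; positivity
    · by_cases hiN : i ∈ N
      · refine le_trans ?_ (le_add_right le_rfl)
        set c : ℝ := 1 - s - ∑ j ∈ N.erase i, t j with hc
        have e : (fun u => (fun t : Fin k → ℝ => if 0 ≤ t m ∧ t m < 1 then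
            (if ind N (1 - s) t then G t ^ 2 else 0) else 0)
            (Function.update t i u)) = fun u : ℝ => if 0 ≤ u ∧ u ≤ c then
              (if (0 ≤ t m ∧ t m < 1) ∧ ∀ j ∈ N.erase i, 0 ≤ t j then G t ^ 2 else 0) else 0 := by
          funext u
          simp only [Function.update_of_ne (Ne.symm him), ind_update_mem N _ t i u hiN,
            hG.indep i (Finset.mem_insert_of_mem hiN)]
          by_cases h1 : 0 ≤ t m ∧ t m < 1
          · by_cases h2 : ∀ j ∈ N.erase i, 0 ≤ t j
            · by_cases h3 : 0 ≤ u ∧ u ≤ c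
              · rw [if_pos h1, if_pos ⟨h2, h3⟩, if_pos h3, if_pos ⟨h1, h2⟩]
              · rw [if_pos h1, if_neg (fun h => h3 h.2), if_neg h3]
            · rw [if_pos h1, if_neg (fun h => h2 h.1), if_neg (c := _ ∧ _) (fun h => h2 h.2)]
              split_ifs <;> rfl
          · rw [if_neg h1, if_neg (c := _ ∧ _) (fun h => h1 h.1)]
            split_ifs <;> rfl
        rw [e]
        refine I_Q8.cind hB (fun u => 0 ≤ u ∧ u ≤ c) (M ^ 2) (indcc' c)
          (if (0 ≤ t m ∧ t m < 1) ∧ ∀ j ∈ N.erase i, 0 ≤ t j then G t ^ 2 else 0) ?_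
        split_ifs
        · exact hG2 t
        · rw [abs_zero]; positivity
      · refine le_trans ?_ (le_add_left le_rfl)
        have e : (fun u => (fun t : Fin k → ℝ => if 0 ≤ t m ∧ t m < 1 then
            (if ind N (1 - s) t then G t ^ 2 else 0) else 0)
            (Function.update t i u)) = fun u : ℝ => if 0 ≤ t m ∧ t m < 1 then
              (if ind N (1 - s) t then G (Function.update t i u) ^ 2 else 0) else 0 := by
          funext u
          simp only [Function.update_of_ne (Ne.symm him), ind_update_notMem N _ t i u hiN]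
        rw [e]
        by_cases h1 : 0 ≤ t m ∧ t m < 1
        · by_cases h2 : ind N (1 - s) t
          · simp only [if_pos h1, if_pos h2, sq]
            have := hB _ _ M M V V (fun u => hG.bdd (Function.update t i u))
              (fun u => hG.bdd (Function.update t i u)) (hG.bv t i) (hG.bv t i)
            refine this.trans (le_of_eq ?_)
            show ENNReal.ofReal _ = ENNReal.ofReal _
            congr 1
            ring
          · simp only [if_pos h1, if_neg h2, PH_const]
            exact bot_le
        · simp only [if_neg h1, PH_const]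
          exact bot_le

end MPb51559.DQ
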