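import Pool.Agent.Work.MP_b51559_nt.DQ.StmtsA

set_option autoImplicit false

/-!
# Block DQ, item A_CUT: the iterated cut
-/

namespace MPb51559.DQ

open Finset Filter Topology MeasureTheory
open scoped Classical
open MPb51559.BG MPb51559.BG.Q

theorem pra_CUT : A_CUT := by
  intro k Φ L t
  induction L with
  | nil =>
    rw [if_pos (by intro j hj; exact absurd hj (by simp))]
    rfl
  | cons j L ih =>
    rw [cutL, cutm, ih]
    by_cases h1 : 0 ≤ t j ∧ t j < 1
    · rw [if_pos h1]
      by_cases h2 : ∀ i ∈ L, 0 ≤ t i ∧ t i < 1
      · rw [if_pos h2, if_pos]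
        intro i hi
        rcases List.mem_cons.mp hi with rfl | hi
        · exact h1
        · exact h2 i hi
      · rw [if_neg h2, if_neg]
        intro h3
        exact h2 (fun i hi => h3 i (List.mem_cons_of_mem _ hi))
    · rw [if_neg h1, if_neg]
      intro h3
      exact h1 (h3 j List.mem_cons_self)

end MPb51559.DQ
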