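import Pool.Agent.Work.MP_b51559_nt.DQ.StmtsA

set_option autoImplicit false

/-! Item A_FUB of the block DQ: Fubini in one variable. -/

namespace MPb51559.DQ

open Finset Filter Topology MeasureTheory
open scoped Classical
open MPb51559.BG MPb51559.BG.Q

namespace I_FUB

theorem int_one : ∫ u : ℝ, (if 0 ≤ u ∧ u < 1 then (1 : ℝ) else 0) = 1 := by
  have h1 : (fun u : ℝ => if 0 ≤ u ∧ u < 1 then (1 : ℝ) else 0) =
      (Set.Ico (0 : ℝ) 1).indicator fun _ => (1 : ℝ) := by
    ext u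
    by_cases h : 0 ≤ u ∧ u < 1
    · rw [if_pos h, Set.indicator_of_mem (Set.mem_Ico.2 h)]
    · rw [if_neg h, Set.indicator_of_notMem (fun h2 => h (Set.mem_Ico.1 h2))]
  rw [h1, integral_indicator measurableSet_Ico]
  simp

theorem change (n : ℕ) (j : Fin (n + 1)) (g : (Fin (n + 1) → ℝ) → ℝ) :
    ∫ t, g t = ∫ z : ℝ × (Fin n → ℝ), g (Fin.insertNth j z.1 z.2) := by
  have he := volume_preserving_piFinSuccAbove (fun _ : Fin (n + 1) => ℝ) j
  have h1 := he.symm.integral_comp' g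
  rw [← h1]
  rfl

theorem change_int (n : ℕ) (j : Fin (n + 1)) (g : (Fin (n + 1) → ℝ) → ℝ) (hg : Integrable g) :
    Integrable (fun z : ℝ × (Fin n → ℝ) => g (Fin.insertNth j z.1 z.2)) := by
  have he := volume_preserving_piFinSuccAbove (fun _ : Fin (n + 1) => ℝ) j
  have h1 := (he.symm.integrable_comp_emb
    (MeasurableEquiv.piFinSuccAbove (fun _ : Fin (n + 1) => ℝ) j).symm.measurableEmbedding
    (g := g)).2 hg
  exact h1

theorem upd (n : ℕ) (j : Fin (n + 1)) (x u : ℝ) (y : Fin n → ℝ) :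
    Function.update (Fin.insertNth j x y : Fin (n + 1) → ℝ) j u = Fin.insertNth j u y := by
  ext i
  rcases Fin.eq_self_or_eq_succAbove j i with h | ⟨l, h⟩
  · subst h
    simp
  · subst h
    rw [Function.update_of_ne (Fin.succAbove_ne j l)]
    simp

end I_FUB

theorem pra_FUB : A_FUB := by
  intro k j Φ hΦ hint
  cases k with
  | zero => exact j.elim0
  | succ n =>
    rw [I_FUB.change n j (fun t => Φ (t j) t)]
    have hl : ∀ z : ℝ × (Fin n → ℝ), Φ ((Fin.insertNth j z.1 z.2 : Fin (n + 1) → ℝ) j)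
        (Fin.insertNth j z.1 z.2) = Φ z.1 (Fin.insertNth j 0 z.2) := by
      intro z
      rw [Fin.insertNth_apply_same, ← hΦ z.1 (Fin.insertNth j z.1 z.2) 0, I_FUB.upd]
    have hint2 := I_FUB.change_int n j (fun t => Φ (t j) t) hint
    simp only [hl] at hint2 ⊢
    have h2 := integral_prod (fun z : ℝ × (Fin n → ℝ) => Φ z.1 (Fin.insertNth j 0 z.2)) hint2
    refine h2.trans ?_
    refine integral_congr_ae (Filter.Eventually.of_forall fun x => ?_)
    show ∫ y : Fin n → ℝ, Φ x (Fin.insertNth j 0 y) = ∫ t : Fin (n + 1) → ℝ, cutm j (Φ x) t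
    rw [I_FUB.change n j (cutm j (Φ x))]
    have hr : ∀ z : ℝ × (Fin n → ℝ), cutm j (Φ x) (Fin.insertNth j z.1 z.2) =
        (if 0 ≤ z.1 ∧ z.1 < 1 then (1 : ℝ) else 0) * Φ x (Fin.insertNth j 0 z.2) := by
      intro z
      unfold cutm
      rw [Fin.insertNth_apply_same, ← hΦ x (Fin.insertNth j z.1 z.2) 0, I_FUB.upd]
      split_ifs
      · rw [one_mul]
      · rw [zero_mul]
    simp only [hr]
    have h3 := integral_prod_mul (μ := (volume : Measure ℝ)) (ν := (volume : Measure (Fin n → ℝ)))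
      (fun u : ℝ => if 0 ≤ u ∧ u < 1 then (1 : ℝ) else 0)
      (fun y : Fin n → ℝ => Φ x (Fin.insertNth j 0 y))
    rw [I_FUB.int_one, one_mul] at h3
    exact h3.symm

end MPb51559.DQ
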