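import Pool.Agent.Work.MP_b51559_nt.DQ.StmtsA

set_option autoImplicit false

/-! Block DQ, item A_GNI: the integral of the integrand of MultiConcl. -/

namespace MPb51559.DQ

open Finset Filter Topology MeasureTheory
open scoped Classical
open MPb51559.BG MPb51559.BG.Q

theorem pra_GNI (hMGL : A_MGL) (hCUT : A_CUT) (hVOL : A_VOL) : A_GNI := by
  intro k s F hs hs1 hF m N L hm hL hLN
  obtain ⟨M, V, hM, hMV⟩ := hMGL k s F hs hF L.length
  have hG := hMV L hL rfl
  obtain ⟨G, hGdef⟩ : ∃ G, G = mgL F L := ⟨_, rfl⟩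
  rw [← hGdef] at hG
  have hGN : GN F L = ∫ t, cutL (fun t => G t ^ 2) L t := by rw [hGdef]; rfl
  rw [hGN, ← hGdef]
  refine ⟨integral_nonneg fun t => ?_, ?_⟩
  · show (0 : ℝ) ≤ cutL (fun t => G t ^ 2) L t
    rw [hCUT]
    split_ifs
    · exact sq_nonneg _
    · exact le_rfl
  obtain ⟨H, hH⟩ : ∃ H : (Fin k → ℝ) → ℝ, H = cutm m (fun t => G t ^ 2) := ⟨_, rfl⟩
  have hHt : ∀ t, H t = if 0 ≤ t m ∧ t m < 1 then G t ^ 2 else 0 := fun t => by rw [hH]; rfl
  have hmemL : ∀ i, i ∈ L ↔ i = m ∨ i ∈ N := by
    intro i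
    rw [← List.mem_toFinset, hLN, Finset.mem_insert]
  have h1 := hVOL k N.toList N.nodup_toList (1 - s) (by linarith) H
    (by
      have h2 : H = fun t => if 0 ≤ t m ∧ t m < 1 then G t ^ 2 else 0 := funext hHt
      rw [h2]
      refine Measurable.ite ?_ (hG.meas.pow_const 2) measurable_const
      exact (measurableSet_le measurable_const (measurable_pi_apply m)).inter
        (measurableSet_lt (measurable_pi_apply m) measurable_const))
    ⟨M ^ 2, fun t => by
      rw [hHt]
      split_ifs
      · rw [abs_of_nonneg (sq_nonneg _), ← sq_abs]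
        exact pow_le_pow_left₀ (abs_nonneg _) (hG.bdd t) 2
      · rw [abs_zero]
        exact sq_nonneg _⟩
    ⟨1, fun t ht i hi => by
      rw [hHt] at ht
      split_ifs at ht with h3
      · by_cases him : i = m
        · subst him
          exact ⟨h3.1, h3.2.le⟩
        · have hiL : i ∉ L.toFinset := by
            rw [List.mem_toFinset, hmemL]
            rintro (h4 | h4)
            · exact him h4
            · exact hi (Finset.mem_toList.2 h4)
          have hGt : G t ≠ 0 := fun h0 => ht (by rw [h0]; norm_num)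
          obtain ⟨h5, h6⟩ := hG.supp t hGt
          refine ⟨h5 i hiL, ?_⟩
          have h7 : t i ≤ ∑ i ∈ L.toFinsetᶜ, t i :=
            Finset.single_le_sum (f := t) (fun j hj => h5 j (Finset.mem_compl.1 hj))
              (Finset.mem_compl.2 hiL)
          linarith
      · exact absurd rfl ht⟩
    (fun j hj t u => by
      have hjN : j ∈ N := Finset.mem_toList.1 hj
      have hjm : m ≠ j := fun h4 => hm (h4 ▸ hjN)
      rw [hHt, hHt, Function.update_of_ne hjm,
        hG.indep j (List.mem_toFinset.2 ((hmemL j).2 (Or.inr hjN))) t u])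
  rw [Finset.toList_toFinset, Finset.length_toList] at h1
  have h8 : (fun t => cutm m (fun t => if ind N (1 - s) t then G t ^ 2 else 0) t) =
      fun t => if ind N (1 - s) t then H t else 0 := by
    funext t
    show (if 0 ≤ t m ∧ t m < 1 then (if ind N (1 - s) t then G t ^ 2 else 0) else 0) = _
    rw [hHt]
    split_ifs <;> rfl
  have h9 : (fun t => cutL H N.toList t) = fun t => cutL (fun t => G t ^ 2) L t := by
    funext t
    rw [hCUT, hCUT, hHt]
    by_cases h10 : ∀ j ∈ L, 0 ≤ t j ∧ t j < 1
    · rw [if_pos h10, if_pos fun j hj =>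
        h10 j ((hmemL j).2 (Or.inr (Finset.mem_toList.1 hj))), if_pos (h10 m ((hmemL m).2 (Or.inl rfl)))]
    · rw [if_neg h10]
      by_cases h11 : ∀ j ∈ N.toList, 0 ≤ t j ∧ t j < 1
      · rw [if_pos h11, if_neg]
        intro h12
        refine h10 fun j hj => ?_
        rcases (hmemL j).1 hj with h13 | h13
        · rw [h13]
          exact h12
        · exact h11 j (Finset.mem_toList.2 h13)
      · rw [if_neg h11]
  rw [h8, h1, h9]

end MPb51559.DQ
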