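import Pool.Agent.Work.MP_b51559_nt.DQ.StmtsA

set_option autoImplicit false

/-!
# A_HN: the normaliser in n colours
-/

namespace MPb51559.DQ

open Finset Filter Topology MeasureTheory
open scoped Classical
open MPb51559.BG MPb51559.BG.Q

theorem pra_HN (hSUMK : C_SUMK) (hBAS : C_BAS) (hSIM : A_SIM) : A_HN := by
  intro n s δ hs hs1 hδ hδ8 ε hε
  obtain ⟨hBV, hvol⟩ := hSIM n (1 - s) (by linarith) (by linarith)
  obtain ⟨D1, hD1⟩ := hSUMK n 1 1 2 δ one_pos (by norm_num) zero_le_one hδ hδ8 ε hε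
  refine ⟨D1, fun D0 hD0 => ?_⟩
  obtain ⟨x0, hx0⟩ := hD1 D0 hD0
  refine ⟨max x0 2, fun x hx => ?_⟩
  have h1 := hx0 x (le_trans (le_max_left _ _) hx) _ hBV
  rw [hvol] at h1
  have hx2 : (2 : ℝ) ≤ x := le_trans (le_max_right _ _) hx
  have hR : 1 < Rx δ x := by
    unfold Rx
    exact Real.one_lt_rpow (by linarith) (by linarith)
  have hR0 : 0 < Rx δ x := by linarith
  have hL : 0 < Real.log (Rx δ x) := Real.log_pos hR
  have hprime : ∀ p ∈ Sx D0 x, p.Prime := by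
    intro p hp
    unfold Sx at hp
    exact (Finset.mem_filter.1 hp).2.1
  have e : ∑ u : Co (Sx D0 x) n, (if (nrm u : ℝ) ≤ Rx δ x ^ (1 - s) then (1 : ℝ) else 0) / mw aF u =
      ∑ r : Co (Sx D0 x) n, (if (∀ j, 0 ≤ tv (Rx δ x) r j) ∧ ∑ j, tv (Rx δ x) r j ≤ 1 - s
        then (1 : ℝ) else 0) / mw aF r := by
    refine Finset.sum_congr rfl fun u _ => ?_
    obtain ⟨_, hpos, _, _, _, _, _, hprt, hsz, _, _⟩ := hBAS (Sx D0 x) n hprime u
    have hn0 : (0 : ℝ) < (nrm u : ℝ) := by exact_mod_cast hpos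
    have hiff : ((nrm u : ℝ) ≤ Rx δ x ^ (1 - s)) ↔
        ((∀ j, 0 ≤ tv (Rx δ x) u j) ∧ ∑ j, tv (Rx δ x) u j ≤ 1 - s) := by
      rw [← hsz (Rx δ x)]
      have h2 : ∀ j, 0 ≤ tv (Rx δ x) u j := by
        intro j
        unfold tv
        refine div_nonneg (Real.log_nonneg ?_) hL.le
        have := (hprt j).1
        exact_mod_cast this
      have h3 : ((nrm u : ℝ) ≤ Rx δ x ^ (1 - s)) ↔ sz (Rx δ x) u ≤ 1 - s := by
        unfold sz
        rw [div_le_iff₀ hL, ← Real.log_rpow hR0, Real.log_le_log_iff hn0 (by positivity)]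
      rw [h3]
      exact ⟨fun h => ⟨h2, h⟩, fun h => h.2⟩
    by_cases hc : (nrm u : ℝ) ≤ Rx δ x ^ (1 - s)
    · rw [if_pos hc, if_pos (hiff.1 hc)]
    · rw [if_neg hc, if_neg fun h => hc (hiff.2 h)]
  beta_reduce
  rw [e]
  exact h1

end MPb51559.DQ
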