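import Pool.Agent.Work.MP_b51559_nt.DQ.StmtsA

set_option autoImplicit false

/-!
# Block DQ, item A_MGL: the iterated marginal
-/

namespace MPb51559.DQ

open Finset Filter Topology MeasureTheory
open scoped Classical
open MPb51559.BG MPb51559.BG.Q

theorem pra_MGL (h : A_STEP) : A_MGL := by
  intro k s F hs hF n
  induction n with
  | zero =>
    obtain ⟨M, hM⟩ := hF.bdd
    obtain ⟨V, hV⟩ := hF.bv
    refine ⟨|M|, V, abs_nonneg M, fun L _ hl => ?_⟩
    have hL : L = [] := List.length_eq_zero_iff.1 hl
    subst hL
    refine ⟨hF.meas, fun t => (hM t).trans (le_abs_self M), ?_, ?_, hV⟩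
    · intro j hj
      simp at hj
    · intro t ht
      obtain ⟨h1, h2⟩ := hF.supp t ht
      refine ⟨fun i _ => h1 i, ?_⟩
      simpa using h2
  | succ n ih =>
    obtain ⟨M, V, hM, hG⟩ := ih
    refine ⟨M * s, V * s.toNNReal, mul_nonneg hM hs.le, fun L hn hl => ?_⟩
    match L, hn, hl with
    | [], _, hl => simp at hl
    | j :: L, hn, hl =>
      rw [List.nodup_cons] at hn
      have hl' : L.length = n := by simpa using hl
      have h1 := h k s M V hs L.toFinset (mgL F L) j (by simpa using hn.1) (hG L hn.2 hl')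
      rw [List.toFinset_cons]
      exact h1

end MPb51559.DQ
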