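import Pool.Agent.Work.MP_b51559_nt.DQ.StmtsA
import Pool.Agent.Work.MP_b51559_nt.BG.Q.I_Q8

set_option autoImplicit false

/-! # Block DQ, item A_SIM: the simplex -/

namespace MPb51559.DQ

open Finset Filter Topology MeasureTheory
open scoped Classical
open MPb51559.BG MPb51559.BG.Q

namespace I_SIM

theorem mset (n : ℕ) (a : ℝ) :
    MeasurableSet {t : Fin n → ℝ | (∀ j, 0 ≤ t j) ∧ ∑ j, t j ≤ a} := by
  have h1 : IsClosed {t : Fin n → ℝ | ∀ j, 0 ≤ t j} := by
    rw [Set.ofPred_forall]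
    exact isClosed_iInter fun j => isClosed_le continuous_const (continuous_apply j)
  have h2 : IsClosed {t : Fin n → ℝ | ∑ j, t j ≤ a} :=
    isClosed_le (continuous_finsetSum _ fun j _ => continuous_apply j) continuous_const
  exact (h1.inter h2).measurableSet

theorem sec (n : ℕ) (a : ℝ) (t : Fin n → ℝ) (i : Fin n) (u : ℝ) :
    ((∀ j, 0 ≤ Function.update t i u j) ∧ ∑ j, Function.update t i u j ≤ a) ↔
      (∀ j, j ≠ i → 0 ≤ t j) ∧ 0 ≤ u ∧ u ≤ a - ∑ j ∈ univ.erase i, t j := by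
  have hs : ∑ j, Function.update t i u j = u + ∑ j ∈ univ.erase i, t j := by
    rw [← Finset.add_sum_erase univ _ (mem_univ i), Function.update_self]
    congr 1
    refine sum_congr rfl fun j hj => ?_
    rw [Function.update_of_ne (ne_of_mem_erase hj)]
  rw [hs]
  constructor
  · rintro ⟨h1, h2⟩
    refine ⟨fun j hj => ?_, ?_, by linarith⟩
    · have := h1 j
      rwa [Function.update_of_ne hj] at this
    · have := h1 i
      rwa [Function.update_self] at this
  · rintro ⟨h1, h2, h3⟩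
    refine ⟨fun j => ?_, by linarith⟩
    by_cases hj : j = i
    · rw [hj, Function.update_self]
      exact h2
    · rw [Function.update_of_ne hj]
      exact h1 j hj

theorem cls (n : ℕ) (a : ℝ) (ha1 : a ≤ 1) :
    BVk n 1 1 2 (fun t : Fin n → ℝ => if (∀ j, 0 ≤ t j) ∧ ∑ j, t j ≤ a then 1 else 0) := by
  refine ⟨?_, ?_, ?_, ?_⟩
  · exact Measurable.ite (mset n a) measurable_const measurable_const
  · intro t ht i
    by_cases h : (∀ j, 0 ≤ t j) ∧ ∑ j, t j ≤ a
    · refine ⟨h.1 i, ?_⟩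
      have := Finset.single_le_sum (f := t) (fun j _ => h.1 j) (mem_univ i)
      linarith [h.2]
    · exact absurd (if_neg h) ht
  · intro t
    show |(if (∀ j, 0 ≤ t j) ∧ ∑ j, t j ≤ a then (1 : ℝ) else 0)| ≤ 1
    split_ifs
    · rw [abs_one]
    · rw [abs_zero]; exact zero_le_one
  · intro t i
    simp only [sec]
    by_cases hP : ∀ j, j ≠ i → 0 ≤ t j
    · by_cases hc : 0 ≤ a - ∑ j ∈ univ.erase i, t j
      · have e : (fun u : ℝ => if (∀ j, j ≠ i → 0 ≤ t j) ∧ 0 ≤ u ∧
            u ≤ a - ∑ j ∈ univ.erase i, t j then (1 : ℝ) else 0) =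
            fun u : ℝ => if 0 ≤ u ∧ u ≤ a - ∑ j ∈ univ.erase i, t j then (1 : ℝ) else 0 := by
          funext u
          by_cases h : 0 ≤ u ∧ u ≤ a - ∑ j ∈ univ.erase i, t j
          · rw [if_pos ⟨hP, h⟩, if_pos h]
          · rw [if_neg (fun h' => h h'.2), if_neg h]
        rw [e]
        exact I_Q8.indcc _ hc
      · have e : (fun u : ℝ => if (∀ j, j ≠ i → 0 ≤ t j) ∧ 0 ≤ u ∧
            u ≤ a - ∑ j ∈ univ.erase i, t j then (1 : ℝ) else 0) = fun _ : ℝ => (0 : ℝ) := by
          funext u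
          rw [if_neg]
          rintro ⟨_, h1, h2⟩
          exact hc (h1.trans h2)
        rw [e, PH_const]
        exact bot_le
    · have e : (fun u : ℝ => if (∀ j, j ≠ i → 0 ≤ t j) ∧ 0 ≤ u ∧
          u ≤ a - ∑ j ∈ univ.erase i, t j then (1 : ℝ) else 0) = fun _ : ℝ => (0 : ℝ) := by
        funext u
        rw [if_neg]
        rintro ⟨h1, _⟩
        exact hP h1
      rw [e, PH_const]
      exact bot_le

theorem vol1 (n : ℕ) :
    ∫ t : Fin n → ℝ, (if ∀ j ∈ List.finRange n, 0 ≤ t j ∧ t j < 1 then (1 : ℝ) else 0) = 1 := by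
  have e : (fun t : Fin n → ℝ => if ∀ j ∈ List.finRange n, 0 ≤ t j ∧ t j < 1 then (1 : ℝ) else 0) =
      (Set.pi Set.univ fun _ : Fin n => Set.Ico (0 : ℝ) 1).indicator fun _ => (1 : ℝ) := by
    funext t
    by_cases h : ∀ j ∈ List.finRange n, 0 ≤ t j ∧ t j < 1
    · rw [if_pos h, Set.indicator_of_mem]
      intro j _
      exact h j (List.mem_finRange j)
    · rw [if_neg h, Set.indicator_of_notMem]
      intro h'
      exact h fun j _ => h' j (Set.mem_univ j)
  rw [e, integral_indicator_const _ (MeasurableSet.univ_pi fun _ => measurableSet_Ico)]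
  rw [Measure.real, Real.volume_pi_Ico]
  simp

end I_SIM

theorem pra_SIM (hV : A_VOL) (hC : A_CUT) : A_SIM := by
  intro n a ha ha1
  refine ⟨I_SIM.cls n a ha1, ?_⟩
  have h := hV n (List.finRange n) (List.nodup_finRange n) a ha (fun _ => 1) measurable_const
    ⟨1, fun _ => by rw [abs_one]⟩ ⟨0, fun t _ i hi => absurd (List.mem_finRange i) hi⟩
    (fun _ _ _ _ => rfl)
  rw [List.length_finRange] at h
  simp only [hC n (fun _ => (1 : ℝ)) (List.finRange n)] at h
  rw [I_SIM.vol1, mul_one] at h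
  rw [← h]
  refine integral_congr_ae (Filter.Eventually.of_forall fun t => ?_)
  show (if (∀ j, 0 ≤ t j) ∧ ∑ j, t j ≤ a then (1 : ℝ) else 0) =
    if ind (List.finRange n).toFinset a t then (1 : ℝ) else 0
  have e : ind (List.finRange n).toFinset a t ↔ (∀ j, 0 ≤ t j) ∧ ∑ j, t j ≤ a := by
    unfold ind
    rw [List.toFinset_finRange]
    simp
  by_cases h' : (∀ j, 0 ≤ t j) ∧ ∑ j, t j ≤ a
  · rw [if_pos h', if_pos (e.2 h')]
  · rw [if_neg h', if_neg (fun h'' => h' (e.1 h''))]

end MPb51559.DQ
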