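import Pool.Agent.Work.MP_b51559_nt.DQ.StmtsA

set_option autoImplicit false

/-!
# Block DQ, item A_STEP: one step of the iterated marginal
-/

namespace MPb51559.DQ

open Finset Filter Topology MeasureTheory
open scoped Classical
open MPb51559.BG MPb51559.BG.Q

namespace I_STEP

theorem upd_meas {k : ℕ} (m : Fin k) :
    Measurable (fun p : (Fin k → ℝ) × ℝ => Function.update p.1 m p.2) := by
  refine measurable_pi_iff.mpr fun j => ?_
  by_cases h : j = m
  · subst h
    simpa using measurable_snd
  · simp only [Function.update_of_ne h]
    exact (measurable_pi_apply j).comp measurable_fst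

theorem compl_insert' {k : ℕ} {N : Finset (Fin k)} {m : Fin k} (hm : m ∉ N) :
    Nᶜ = insert m (insert m N)ᶜ := by
  ext i
  simp only [Finset.mem_compl, Finset.mem_insert, not_or]
  constructor
  · intro h
    by_cases h1 : i = m
    · exact Or.inl h1
    · exact Or.inr ⟨h1, h⟩
  · rintro (h | h)
    · rw [h]
      exact hm
    · exact h.2

theorem supp1 {k : ℕ} {T M : ℝ} {V : NNReal} {N : Finset (Fin k)} {F : (Fin k → ℝ) → ℝ}
    (hF : MGP k T M V N F) (m : Fin k) (hm : m ∉ N)
    (t : Fin k → ℝ) (s : ℝ) (h : F (Function.update t m s) ≠ 0) :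
    0 ≤ s ∧ s ≤ T ∧ (∀ j, j ∉ insert m N → 0 ≤ t j) ∧ ∑ j ∈ (insert m N)ᶜ, t j ≤ T := by
  obtain ⟨h0, h1⟩ := hF.supp _ h
  have hs : 0 ≤ s := by simpa using h0 m hm
  have hj : ∀ j, j ∉ insert m N → 0 ≤ t j := fun j hj => by
    rw [Finset.mem_insert, not_or] at hj
    simpa [Function.update_of_ne hj.1] using h0 j hj.2
  have hsum : ∑ i ∈ Nᶜ, Function.update t m s i = s + ∑ j ∈ (insert m N)ᶜ, t j := by
    rw [compl_insert' hm, Finset.sum_insert (by simp)]
    congr 1
    · simp
    · refine Finset.sum_congr rfl fun j hj => ?_
      rw [Function.update_of_ne]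
      intro h
      rw [h] at hj
      simp at hj
  have hnn : 0 ≤ ∑ j ∈ (insert m N)ᶜ, t j :=
    Finset.sum_nonneg fun j hj' => hj j (by simpa using hj')
  rw [hsum] at h1
  exact ⟨hs, by linarith, hj, by linarith⟩

theorem marg_eq {k : ℕ} {T M : ℝ} {V : NNReal} {N : Finset (Fin k)} {F : (Fin k → ℝ) → ℝ}
    (hF : MGP k T M V N F) (m : Fin k) (hm : m ∉ N)
    (t : Fin k → ℝ) : marg F m t = ∫ s in Set.Icc 0 T, F (Function.update t m s) := by
  unfold marg
  rw [setIntegral_eq_integral_of_forall_compl_eq_zero]
  intro s hs
  by_contra h
  obtain ⟨h0, h1, -⟩ := supp1 hF m hm t s h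
  exact hs ⟨h0, h1⟩

theorem meas1 {k : ℕ} {F : (Fin k → ℝ) → ℝ} (hF : Measurable F) (m : Fin k)
    (t : Fin k → ℝ) : Measurable (fun s => F (Function.update t m s)) :=
  hF.comp ((upd_meas m).comp (measurable_const.prodMk measurable_id))

theorem int1 {k : ℕ} {T M : ℝ} {V : NNReal} {N : Finset (Fin k)} {F : (Fin k → ℝ) → ℝ}
    (hF : MGP k T M V N F) (m : Fin k)
    (t : Fin k → ℝ) : IntegrableOn (fun s => F (Function.update t m s)) (Set.Icc 0 T) := by
  refine Measure.integrableOn_of_bounded (M := M) ?_ (meas1 hF.meas m t).aestronglyMeasurable ?_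
  · simp
  · exact Eventually.of_forall fun s => by rw [Real.norm_eq_abs]; exact hF.bdd _

end I_STEP

open I_STEP in
theorem pra_STEP : A_STEP := by
  intro k T M V hT N F m hmN hF
  refine ⟨?_, ?_, ?_, ?_, ?_⟩
  · -- measurability
    have h1 : StronglyMeasurable (Function.uncurry fun (t : Fin k → ℝ) (s : ℝ) =>
        F (Function.update t m s)) :=
      (hF.meas.comp (upd_meas m)).stronglyMeasurable
    exact (h1.integral_prod_right).measurable
  · -- bound
    intro t
    rw [marg_eq hF m hmN t]
    have h := norm_setIntegral_le_of_norm_le_const (μ := volume) (s := Set.Icc (0:ℝ) T)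
      (f := fun s => F (Function.update t m s)) (C := M) (by simp)
      (fun s _ => by rw [Real.norm_eq_abs]; exact hF.bdd _)
    rw [Real.norm_eq_abs] at h
    have h2 : (volume : Measure ℝ).real (Set.Icc (0:ℝ) T) = T := by
      rw [Real.volume_real_Icc_of_le hT.le]; ring
    rwa [h2] at h
  · -- independence
    intro i hi t s
    by_cases him : i = m
    · subst him
      unfold marg
      simp only [Function.update_idem]
    · have hiN : i ∈ N := (Finset.mem_insert.1 hi).resolve_left him
      unfold marg
      refine integral_congr_ae (Eventually.of_forall fun u => ?_)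
      simp only
      rw [Function.update_comm him, hF.indep i hiN]
  · -- support
    intro t ht
    have : ∃ s, F (Function.update t m s) ≠ 0 := by
      by_contra hcon
      push Not at hcon
      exact ht (by unfold marg; simp [hcon])
    obtain ⟨s, hs⟩ := this
    obtain ⟨-, -, h1, h2⟩ := supp1 hF m hmN t s hs
    exact ⟨h1, h2⟩
  · -- variation
    intro t i
    by_cases him : i = m
    · subst him
      have : (fun s => marg F i (Function.update t i s)) = fun _ => marg F i t := by
        funext s
        unfold marg
        simp only [Function.update_idem]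
      rw [this]
      have h0 : eVariationOn (fun _ : ℝ => marg F i t) Set.univ = 0 :=
        eVariationOn.constant_on (by
          intro a ha b hb
          simp only [Set.mem_image] at ha hb
          obtain ⟨_, _, rfl⟩ := ha
          obtain ⟨_, _, rfl⟩ := hb
          rfl)
      rw [h0]
      exact zero_le
    · unfold eVariationOn
      refine iSup_le fun p => ?_
      obtain ⟨n, u, hu, -⟩ := p
      simp only
      set g : ℕ → ℝ → ℝ := fun j s => F (Function.update (Function.update t m s) i (u j)) with hg
      have hcomm : ∀ j s, F (Function.update (Function.update t i (u j)) m s) = g j s := by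
        intro j s
        rw [hg]
        simp only
        rw [Function.update_comm him]
      have hgm : ∀ j, Measurable (g j) := by
        intro j
        have := meas1 hF.meas m (Function.update t i (u j))
        simp only [hcomm] at this
        exact this
      have hgi : ∀ j, IntegrableOn (g j) (Set.Icc 0 T) := by
        intro j
        have := int1 hF m (Function.update t i (u j))
        simp only [hcomm] at this
        exact this
      have hm : ∀ j, marg F m (Function.update t i (u j)) = ∫ s in Set.Icc 0 T, g j s := by
        intro j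
        rw [marg_eq hF m hmN]
        simp only [hcomm]
      have h1 : ∀ j, edist (marg F m (Function.update t i (u (j + 1))))
          (marg F m (Function.update t i (u j))) ≤
          ∫⁻ s in Set.Icc 0 T, edist (g (j + 1) s) (g j s) := by
        intro j
        rw [hm, hm, edist_eq_enorm_sub, ← integral_sub (hgi _) (hgi _)]
        refine (enorm_integral_le_lintegral_enorm _).trans (le_of_eq ?_)
        refine lintegral_congr fun s => ?_
        rw [edist_eq_enorm_sub]
      refine (Finset.sum_le_sum fun j _ => h1 j).trans ?_
      have h2 : ∑ j ∈ range n, ∫⁻ s in Set.Icc 0 T, edist (g (j + 1) s) (g j s) =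
          ∫⁻ s in Set.Icc 0 T, ∑ j ∈ range n, edist (g (j + 1) s) (g j s) := by
        rw [lintegral_finsetSum]
        intro j _
        exact (hgm _).edist (hgm _)
      rw [h2]
      have h3 : ∫⁻ s in Set.Icc 0 T, ∑ j ∈ range n, edist (g (j + 1) s) (g j s) ≤
          ∫⁻ s in Set.Icc (0:ℝ) T, (V : ENNReal) := by
        refine lintegral_mono fun s => ?_
        refine le_trans ?_ (hF.bv (Function.update t m s) i)
        exact eVariationOn.sum_le (f := fun r => F (Function.update (Function.update t m s) i r))
          (s := Set.univ) (n := n) hu (fun _ => Set.mem_univ _)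
      refine h3.trans (le_of_eq ?_)
      rw [setLIntegral_const, Real.volume_Icc, sub_zero, ENNReal.coe_mul]
      rfl

end MPb51559.DQ
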