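import Pool.Agent.Work.MP_b51559_nt.DQ.StmtsA

set_option autoImplicit false

/-!
# Block DQ, item A_VOL: volumes of simplices in some of the variables
-/

namespace MPb51559.DQ

open Finset Filter Topology MeasureTheory
open scoped Classical
open MPb51559.BG MPb51559.BG.Q

namespace I_VOL

theorem meas_ind {k : ℕ} (N : Finset (Fin k)) (a : ℝ) : MeasurableSet {t : Fin k → ℝ | ind N a t} := by
  have : {t : Fin k → ℝ | ind N a t} =
      (⋂ j ∈ N, {t : Fin k → ℝ | 0 ≤ t j}) ∩ {t : Fin k → ℝ | ∑ j ∈ N, t j ≤ a} := by
    ext t
    simp [ind]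
  rw [this]
  refine MeasurableSet.inter ?_ ?_
  · exact Finset.measurableSet_biInter N fun j _ =>
      measurableSet_le measurable_const (measurable_pi_apply j)
  · exact measurableSet_le (Finset.measurable_sum N fun j _ => measurable_pi_apply j)
      measurable_const

theorem ind_update {k : ℕ} (N : Finset (Fin k)) (a : ℝ) (t : Fin k → ℝ) (j : Fin k) (hj : j ∉ N)
    (u : ℝ) : ind N a (Function.update t j u) ↔ ind N a t := by
  unfold ind
  have h1 : ∀ i ∈ N, Function.update t j u i = t i := by
    intro i hi
    have : i ≠ j := by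
      rintro rfl
      exact hj hi
    rw [Function.update_of_ne this]
  have h2 : ∑ i ∈ N, Function.update t j u i = ∑ i ∈ N, t i := Finset.sum_congr rfl h1
  rw [h2]
  constructor
  · rintro ⟨h3, h4⟩
    exact ⟨fun i hi => by rw [← h1 i hi]; exact h3 i hi, h4⟩
  · rintro ⟨h3, h4⟩
    exact ⟨fun i hi => by rw [h1 i hi]; exact h3 i hi, h4⟩

theorem ind_insert {k : ℕ} (N : Finset (Fin k)) (a : ℝ) (t : Fin k → ℝ) (j : Fin k) (hj : j ∉ N) :
    ind (insert j N) a t ↔ 0 ≤ t j ∧ ind N (a - t j) t := by
  unfold ind
  rw [Finset.sum_insert hj, Finset.forall_mem_insert]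
  constructor
  · rintro ⟨⟨h1, h2⟩, h3⟩
    exact ⟨h1, h2, by linarith⟩
  · rintro ⟨h1, h2, h3⟩
    exact ⟨⟨h1, h2⟩, by linarith⟩

theorem ind_nonneg {k : ℕ} (N : Finset (Fin k)) (a : ℝ) (t : Fin k → ℝ) (h : ind N a t) : 0 ≤ a :=
  (Finset.sum_nonneg h.1).trans h.2

theorem integ {k : ℕ} (f : (Fin k → ℝ) → ℝ) (hf : Measurable f) (B : ℝ) (hB : ∀ t, |f t| ≤ B) (T : ℝ)
    (hT : ∀ t, f t ≠ 0 → ∀ i, 0 ≤ t i ∧ t i ≤ T) : Integrable f := by
  have hs : Function.support f ⊆ Set.Icc (fun _ => 0) (fun _ => T) := by
    intro t ht
    exact ⟨fun i => (hT t ht i).1, fun i => (hT t ht i).2⟩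
  rw [← integrableOn_iff_integrable_of_support_subset hs]
  refine Measure.integrableOn_of_bounded (M := B) ?_ hf.aestronglyMeasurable ?_
  · exact (isCompact_Icc.measure_lt_top).ne
  · exact Filter.Eventually.of_forall fun t => by
      rw [Real.norm_eq_abs]
      exact hB t

end I_VOL

open I_VOL in
theorem pra_VOL (hFub : A_FUB) (hCut : A_CUT) : A_VOL := by
  intro k L
  induction L with
  | nil =>
    intro _ a ha H _ _ _ _
    have h1 : ∀ t : Fin k → ℝ, ind ([] : List (Fin k)).toFinset a t := by
      intro t
      simp [ind, ha]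
    simp only [h1, if_true, List.length_nil, pow_zero, Nat.factorial_zero, Nat.cast_one, div_one,
      one_mul]
    rfl
  | cons j L' ih =>
    intro hnd a ha H hm hB hT hind
    obtain ⟨B, hB⟩ := hB
    obtain ⟨T, hT⟩ := hT
    have hj : j ∉ L' := (List.nodup_cons.mp hnd).1
    have hnd' : L'.Nodup := (List.nodup_cons.mp hnd).2
    have hjN : j ∉ L'.toFinset := by simpa using hj
    set Φ : ℝ → (Fin k → ℝ) → ℝ := fun x t =>
      if 0 ≤ x ∧ ind L'.toFinset (a - x) t then H t else 0 with hΦ
    have e1 : ∀ t : Fin k → ℝ, (if ind (j :: L').toFinset a t then H t else 0) = Φ (t j) t := by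
      intro t
      simp only [hΦ, List.toFinset_cons, ind_insert _ _ _ _ hjN]
    have hΦu : ∀ (x : ℝ) (t : Fin k → ℝ) (u : ℝ), Φ x (Function.update t j u) = Φ x t := by
      intro x t u
      simp only [hΦ, ind_update _ _ _ _ hjN, hind j (by simp)]
    have hint : Integrable (fun t : Fin k → ℝ => Φ (t j) t) := by
      have e2 : (fun t : Fin k → ℝ => Φ (t j) t) =
          fun t => if ind (j :: L').toFinset a t then H t else 0 := by
        funext t
        exact (e1 t).symm
      rw [e2]
      refine integ _ (Measurable.ite (meas_ind _ _) hm measurable_const) B ?_ (max a T) ?_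
      · intro t
        split_ifs
        · exact hB t
        · simpa using (abs_nonneg _).trans (hB t)
      · intro t ht i
        by_cases h : ind (j :: L').toFinset a t
        · rw [if_pos h] at ht
          by_cases hi : i ∈ j :: L'
          · have hi' : i ∈ (j :: L').toFinset := by simpa using hi
            refine ⟨h.1 i hi', le_max_of_le_left ?_⟩
            exact (Finset.single_le_sum (f := fun i => t i) (fun i hi => h.1 i hi) hi').trans h.2
          · have := hT t ht i hi
            exact ⟨this.1, le_max_of_le_right this.2⟩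
        · rw [if_neg h] at ht
          exact absurd rfl ht
    have e3 : ∫ t, (if ind (j :: L').toFinset a t then H t else 0) =
        ∫ x : ℝ, ∫ t : Fin k → ℝ, cutm j (Φ x) t := by
      rw [← hFub k j Φ hΦu hint]
      exact integral_congr_ae (Filter.Eventually.of_forall e1)
    set C : ℝ := ∫ t, cutL H (j :: L') t with hC
    have hcut : ∀ t, cutL (cutm j H) L' t = cutL H (j :: L') t := by
      intro t
      rw [hCut, hCut]
      unfold cutm
      by_cases h1 : ∀ i ∈ L', 0 ≤ t i ∧ t i < 1
      · by_cases h2 : 0 ≤ t j ∧ t j < 1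
        · rw [if_pos h1, if_pos h2, if_pos]
          intro i hi
          rcases List.mem_cons.mp hi with rfl | hi
          · exact h2
          · exact h1 i hi
        · rw [if_pos h1, if_neg h2, if_neg]
          intro h
          exact h2 (h j (by simp))
      · rw [if_neg h1, if_neg]
        intro h
        exact h1 fun i hi => h i (List.mem_cons_of_mem _ hi)
    have hmeasj : MeasurableSet {t : Fin k → ℝ | 0 ≤ t j ∧ t j < 1} :=
      (measurableSet_le measurable_const (measurable_pi_apply j)).inter
        (measurableSet_lt (measurable_pi_apply j) measurable_const)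
    have hin : ∀ x, 0 ≤ x → x ≤ a → ∫ t : Fin k → ℝ, cutm j (Φ x) t =
        (a - x) ^ L'.length / (L'.length.factorial : ℝ) * C := by
      intro x hx0 hxa
      have e4 : ∀ t, cutm j (Φ x) t =
          if ind L'.toFinset (a - x) t then (cutm j H) t else 0 := by
        intro t
        simp only [cutm, hΦ, hx0, true_and]
        split_ifs <;> rfl
      have e5 := ih hnd' (a - x) (by linarith) (cutm j H)
        (by
          unfold cutm
          exact Measurable.ite hmeasj hm measurable_const)
        ⟨B, fun t => by
          unfold cutm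
          split_ifs
          · exact hB t
          · simpa using (abs_nonneg _).trans (hB t)⟩
        ⟨max T 1, fun t ht i hi => by
          unfold cutm at ht
          by_cases h2 : 0 ≤ t j ∧ t j < 1
          · rw [if_pos h2] at ht
            by_cases hij : i = j
            · subst hij
              exact ⟨h2.1, le_max_of_le_right h2.2.le⟩
            · have := hT t ht i (by simp [hij, hi])
              exact ⟨this.1, le_max_of_le_left this.2⟩
          · rw [if_neg h2] at ht
            exact absurd rfl ht⟩
        (by
          intro i hi t u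
          have hij : j ≠ i := by
            rintro rfl
            exact hj hi
          unfold cutm
          rw [Function.update_of_ne hij, hind i (List.mem_cons_of_mem _ hi)])
      rw [integral_congr_ae (Filter.Eventually.of_forall e4), e5, hC]
      congr 1
      exact integral_congr_ae (Filter.Eventually.of_forall hcut)
    have hout : ∀ x, ¬ (0 ≤ x ∧ x ≤ a) → ∫ t : Fin k → ℝ, cutm j (Φ x) t = 0 := by
      intro x hx
      have e6 : ∀ t, cutm j (Φ x) t = 0 := by
        intro t
        have : Φ x t = 0 := by
          simp only [hΦ]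
          rw [if_neg]
          rintro ⟨h1, h2⟩
          have := ind_nonneg _ _ _ h2
          exact hx ⟨h1, by linarith⟩
        unfold cutm
        rw [this]
        simp
      rw [integral_congr_ae (Filter.Eventually.of_forall e6)]
      simp
    have e7 : ∀ x : ℝ, ∫ t : Fin k → ℝ, cutm j (Φ x) t =
        (Set.Icc (0 : ℝ) a).indicator
          (fun x => (a - x) ^ L'.length / (L'.length.factorial : ℝ) * C) x := by
      intro x
      by_cases hx : 0 ≤ x ∧ x ≤ a
      · rw [hin x hx.1 hx.2, Set.indicator_of_mem (show x ∈ Set.Icc (0 : ℝ) a from hx)]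
      · rw [hout x hx, Set.indicator_of_notMem (show x ∉ Set.Icc (0 : ℝ) a from hx)]
    rw [e3, integral_congr_ae (Filter.Eventually.of_forall e7),
      integral_indicator measurableSet_Icc, integral_Icc_eq_integral_Ioc,
      ← intervalIntegral.integral_of_le ha, intervalIntegral.integral_mul_const,
      intervalIntegral.integral_div, intervalIntegral.integral_comp_sub_left (fun y => y ^ L'.length)]
    rw [sub_self, sub_zero, integral_pow, List.length_cons, Nat.factorial_succ]
    push_cast
    have h1 : (L'.length.factorial : ℝ) ≠ 0 := by exact_mod_cast Nat.factorial_ne_zero _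
    have h2 : ((L'.length : ℝ) + 1) ≠ 0 := by positivity
    rw [zero_pow (by omega), sub_zero]
    field_simp

end MPb51559.DQ
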