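import Pool.Agent.Work.MP_b51559_nt.DQ.Defs2

set_option autoImplicit false

/-!
# Block DQ, sieve part: the multi-colour form of BG/Q items Q1 - Q15

`N` is a finite set of additional colours, `n` its cardinality. Everything of BG/C is available as a
theorem: import Pool.Agent.Work.MP_b51559_nt.BG.C.All (prf_BAS, prf_SUP, prf_INV, all_TOT, all_PERT,
all_SUMK, all_APX, all_YM, all_QN, prf_MSU prf_BAS, prf_D1, prf_MG, ..) and the BG/Q items are
prq_Q1, .. (BG/Q/I_Q1.lean, ..): START FROM A COPY of the model file. Every docstring is the complete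
proof. Earlier items of this file may be assumed as hypotheses (listed under USES).
`A_*` are the analytic statements of helper31 (StmtsA), repeated here as hypotheses where needed.
-/

namespace MPb51559.DQ

open Finset Filter Topology MeasureTheory
open scoped Classical
open MPb51559.BG MPb51559.BG.Q

/-- S9. Elementary facts on the removal of the colours of N. Every prime of S has colour none, a colour
in N or another colour: nrm u is the product over the primes not coloured in N times prN N u (exchange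
the products in prN: for a fixed p the product over j in N of (p if u p = some j else 1) is p if the
colour is in N and 1 otherwise). mw f (dlN N u) drops factors f p ≥ 1. tv R u i = log (prt i u)/log R ≥ 0
as prt i u ≥ 1; prt i (dlN N u) = prt i u for i not in N and 1 for i in N; log prN = sum of the logs,
so prN N u ≤ R^a iff the sum over N of tv R u j is at most a. If G does not depend on the variables in
N then G (tv R (dlN N u)) = G (tv R u): the two vectors differ in the places of N only (induction over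
N with Function.update). (C_BAS may be used: prf_BAS.) -/
def S_9 : Prop := ∀ (S : Finset ℕ) (k : ℕ), (∀ p ∈ S, p.Prime) → ∀ (N : Finset (Fin k)) (u : Co S k),
  NoN N (dlN N u) ∧ nrm u = nrm (dlN N u) * prN N u ∧ 0 < prN N u ∧
  (∀ f : ℕ → ℝ, (∀ p ∈ S, 1 ≤ f p) → mw f (dlN N u) ≤ mw f u) ∧
  (∀ m : Fin k, m ∉ N → (NoC m u ↔ NoC m (dlN N u))) ∧ (NoN N u → dlN N u = u ∧ prN N u = 1) ∧
  ∀ R : ℝ, 1 < R → (∀ i, 0 ≤ tv R u i) ∧
    (∀ i, tv R (dlN N u) i = if i ∈ N then 0 else tv R u i) ∧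
    (∀ a : ℝ, (prN N u : ℝ) ≤ R ^ a ↔ ∑ j ∈ N, tv R u j ≤ a) ∧
    ∀ G : (Fin k → ℝ) → ℝ, (∀ j ∈ N, ∀ t v, G (Function.update t j v) = G t) →
      G (tv R (dlN N u)) = G (tv R u)

/-- S1. The extension in the colours of N (copy of Q1, BG/Q/I_Q1.lean, with dlN, prN, cpN, yxN for dl, prt,
cps, yex). Put B = ytr aF l. l lives on NoN N, so B does (C_SUP for every j in N). For d in NoN N:
Le d u iff Le d (dlN N u). So lam aF (yxN) d = mw (-1) d * mw aF d * sum over r with Le d r, r in NoN N, of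
(B r / cpN r) * sum over u with dlN N u = r, prN N u ≤ Z of 1/mw (aF-1) u, and the inner sum is
cpN r / mw (aF-1) r: total lam aF B d = l d (C_INV, a = aF). cpN N Z r ≥ 1 for r in NoN N: the term u = r
(prN N r = 1 ≤ Z), all terms positive; dlN N u is in NoN N for every u. Third part: yxN u /= 0 gives
B (dlN N u) /= 0, so dlN N u has no colour m (C_SUP), so u has none (m is not in N). -/
def S_1 : Prop := ∀ (S : Finset ℕ) (k : ℕ) (N : Finset (Fin k)), (∀ p ∈ S, 2 < p) →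
  ∀ (l : Co S k → ℝ) (Z : ℝ), 1 ≤ Z → (∀ d, l d ≠ 0 → NoN N d) →
  rstN N (lam aF (yxN N Z l)) = l ∧ (∀ u, |yxN N Z l u| ≤ |ytr aF l (dlN N u)|) ∧
  ∀ m : Fin k, m ∉ N → (∀ d, l d ≠ 0 → NoC m d) → ∀ u, yxN N Z l u ≠ 0 → NoC m u

/-- S2. Lower bound for the normaliser (model Q2, BG/Q/I_Q2.lean). Let r be in NoN N. First part: the term
u = r. Second part: for a colouring v with colours in N only and nrm v ≤ Z let v1 be its restriction to
the primes coloured by r, v2 its restriction to the others: 1/mw aF v = 1/mw aF v1 * 1/mw aF v2. Put u =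
r on the primes coloured by r and v2 on the others: dlN N u = r, prN N u = nrm v2 ≤ nrm v ≤ Z, and
1/mw aF v2 ≤ 1/mw (aF-1) v2 = mw (aF-1) r/mw (aF-1) u. The map v ↦ (v1, u) is injective; the sum over all v1
(colours in N or none on the primes coloured by r, none elsewhere) of 1/mw aF v1 is the product over
the primes coloured by r of (1 + card N/(p-1)) (aF p = p - 1), which is mw (1 + card N/(p-1)) r. All terms
are nonnegative. -/
def S_2 : Prop := ∀ (S : Finset ℕ) (k : ℕ) (N : Finset (Fin k)), (∀ p ∈ S, p.Prime ∧ 2 < p) →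
  ∀ (Z : ℝ), 1 ≤ Z → ∀ r : Co S k, NoN N r →
  1 ≤ cpN N Z r ∧ HN S N Z ≤ cpN N Z r * mw (fun p => 1 + (N.card : ℝ) / ((p : ℝ) - 1)) r

/-- V_SIM (helper31): the simplex in R^n, n = card, is of class BVk (T0 = 1, M = 1, V = 2). -/
def V_SIM : Prop := ∀ (n : ℕ) (a : ℝ), 0 ≤ a → a ≤ 1 →
  BVk n 1 1 2 (fun t => if (∀ i, 0 ≤ t i) ∧ ∑ i, t i ≤ a then 1 else 0) ∧
  ∫ t : Fin n → ℝ, (if (∀ i, 0 ≤ t i) ∧ ∑ i, t i ≤ a then (1 : ℝ) else 0) = a ^ n / (n.factorial : ℝ)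

/-- S3. The sum over the colourings in the colours of N. It depends on n = card N ≤ k only: N.equivFin (or
any bijection of N with Fin n) gives a bijection of the colourings v of Co S k with colours in N and
all colourings of Co S n, which preserves nrm and mw aF. all_SUMK with k = n, T0 = 1, M = 1, V = 2, Φ =
the indicator of the simplex of size 1 - s (V_SIM, integral (1-s)^n/n!): the sum over r of Φ(tv R r)/mw aF r
is at least lk^n ((1-s)^n/n! - ε). Φ(tv R r) = 1 iff the sum of the tv, which is sz R r, is at most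
1 - s, i.e. nrm r ≤ R^(1-s) (C_BAS, R = Rx δ x > 1 for x > 1). Take the maximum of the thresholds over
n ≤ k. USES: V_SIM. -/
def S_3 : Prop := ∀ (k : ℕ) (s δ : ℝ), 0 < s → s < 1 → 0 < δ → δ < 1 / 8 → ∀ ε : ℝ, 0 < ε →
  Ev fun D0 x => ∀ N : Finset (Fin k),
  lk D0 δ x ^ N.card * ((1 - s) ^ N.card / (N.card.factorial : ℝ) - ε) ≤
    HN (Sx D0 x) N (Rx δ x ^ (1 - s))

/-- S5. One more colour. lam aF (BN N) = rstN N (lam aF (ym R F m)) (C_INV second part, a = aF; aF p and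
aF p - 1 are not 0 for p > 2), rst j (rstN N l) = rstN (insert j N) l. For N empty rstN is the identity
and C_INV first part. (prf_INV is a theorem.) -/
def S_5 : Prop := ∀ (S : Finset ℕ) (k : ℕ), (∀ p ∈ S, 2 < p) → ∀ (R : ℝ) (F : (Fin k → ℝ) → ℝ)
  (m : Fin k) (N : Finset (Fin k)) (j : Fin k),
  (BN R F m (insert j N) : Co S k → ℝ) = ytr aF (rst j (lam aF (BN R F m N))) ∧
  (BN R F m ∅ : Co S k → ℝ) = ym R F m

/-- S6. THE STEP: summing out one more colour j (model: the whole proof of Q6, BG/Q/I_Q6.lean, with y for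
ym R F m, G for marg F m, lk^e for lk, NoN N for NoC m). Put y' = ytr aF (rst j (lam aF y)). Supports:
C_SUP (sz ≤ 1 iff nrm ≤ R as R > 1) and Q3 second part give y' r /= 0 → NoN (insert j N) r, sz ≤ 1. By Q3
(prq_Q3), for r in NoC j, y' r = sum over dl j u = r of y u (mw aF r/mw aF u) prod_{p | prt j u}
(1 + 1/(p-2)); u is in NoN N iff r is (j not in N). Bound and main term exactly as in Q6: only u with
nrm u ≤ R occur; error lk^e C2 (ε1 + (mw (1 + C2/(p-2)) u - 1)) in each term; sums over the j part by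
Hs ≤ kl ≤ 8 lk (C_TOT) and Q5 (prq_Q5 prf_BAS all_PERT); MSU and D1 for f n = G (update (tv R r) j (log n/log R)),
which vanishes unless 0 ≤ log n/log R ≤ s (Nice.supp). Result: lk^(e+1) marg G j (tv R r) with the error as
stated. The constant C depends on e, C1, M, V only; one may take ε1 = min ε 1 (or min (ε/..) 1).
USES: Q3, Q5 (both proved). -/
def S_6 : Prop := ∀ (k : ℕ) (s δ : ℝ), 0 < s → s < 1 → 0 < δ → δ < 1 / 8 → ∀ (e : ℕ) (C1 M : ℝ)
  (V : NNReal), 0 ≤ C1 → 0 ≤ M → ∃ C : ℝ, 0 ≤ C ∧ ∀ ε : ℝ, 0 < ε → ∃ ε1 : ℝ, 0 < ε1 ∧ Ev fun D0 x =>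
  ∀ (N : Finset (Fin k)) (j : Fin k), j ∉ N → ∀ G : (Fin k → ℝ) → ℝ, Nice k s M V N G →
  ∀ y : Co (Sx D0 x) k → ℝ, Apx k δ C1 ε1 D0 x e N G y →
  Apx k δ C ε D0 x (e + 1) (insert j N) (marg G j) (ytr aF (rst j (lam aF y)))

/-- A_NICE (helper31): the iterated marginals are uniformly nice. -/
def A_NICE : Prop := ∀ (k : ℕ) (s : ℝ) (F : (Fin k → ℝ) → ℝ), 0 < s → Tst k s F →
  ∃ (M : ℝ) (V : NNReal), 0 ≤ M ∧ ∀ L : List (Fin k), L.Nodup → Nice k s M V L.toFinset (mgL F L)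

/-- S7. The diagonal variables with the colours m and L removed, by induction on n from S6. n = 0:
L = [], BN = ym (S5), C_YM (all_YM, T = 3/2; Tst k s F gives Tst k (3/2) F), support sz ≤ s ≤ 1 from S8;
mgL F [m] = marg F m. Step: L = j :: L', BN of insert j L'.toFinset by S5, S6 with G = mgL F (L' ++ [m])
(A_NICE; (L' ++ [m]).toFinset = insert m L'.toFinset), marg G j = mgL F (L ++ [m]) by definition, insert
commutes. USES: S5, S6, S8, A_NICE. -/
def S_7 : Prop := ∀ (k : ℕ) (s : ℝ) (F : (Fin k → ℝ) → ℝ), 0 < s → s < 1 → Tst k s F → ∀ δ : ℝ,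
  0 < δ → δ < 1 / 8 → ∀ n : ℕ, ∃ C : ℝ, 0 ≤ C ∧ ∀ ε : ℝ, 0 < ε → Ev fun D0 x =>
  ∀ (m : Fin k) (L : List (Fin k)), (m :: L).Nodup → L.length = n →
  Apx k δ C ε D0 x (n + 1) (insert m L.toFinset) (mgL F (L ++ [m])) (BN (Rx δ x) F m L.toFinset)

/-- S8. Supports (copy of Q4, BG/Q/I_Q4.lean). F(tv u) /= 0 gives sz u ≤ s, i.e. nrm u ≤ R^s (R > 1); then
C_SUP for lam aP, rst m, ytr aF (ym), and once more for lam aF, rstN N, ytr aF (BN); NoC m is inherited by
the second part of C_SUP, NoC j (j in N) as rstN N lives on NoN N. For yN: prN N u ≤ R^(1-s) and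
nrm (dlN N u) ≤ R^s give nrm u = nrm (dlN N u) * prN N u ≤ R (S9). USES: S1, S9. -/
def S_8 : Prop := ∀ (S : Finset ℕ) (k : ℕ) (s R : ℝ) (F : (Fin k → ℝ) → ℝ),
  (∀ p ∈ S, p.Prime ∧ 2 < p) → 0 < s → s < 1 → 1 < R → Tst k s F → ∀ (m : Fin k)
  (N : Finset (Fin k)), m ∉ N →
  (∀ r : Co S k, BN R F m N r ≠ 0 → NoC m r ∧ NoN N r ∧ (nrm r : ℝ) ≤ R ^ s ∧ sz R r ≤ s) ∧
  (∀ u : Co S k, yN R s F m N u ≠ 0 → NoC m u ∧ (nrm u : ℝ) ≤ R ∧ sz R u ≤ 1)

/-- S10. Pointwise bound of the extension (model Q10, BG/Q/I_Q10.lean). For u with prN N u ≤ Z =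
R^(1-s): |yN u| = |BN (dlN N u)|/cpN ≤ |BN (dlN N u)| mw (1 + card N/(p-1)) (dlN N u)/HN (S2, r = dlN N u in
NoN N; Z ≥ 1) and HN ≥ lk^n ((1-s)^n/n! - ε') ≥ (1-ε) ((1-s)^n/n!) lk^n, n = card N, with ε' = ε times the
minimum over n ≤ k of (1-s)^n/n! (S3). Square it. For other u yN u = 0. USES: S2, S3. -/
def S_10 : Prop := ∀ (k : ℕ) (s δ : ℝ), 0 < s → s < 1 → 0 < δ → δ < 1 / 8 → ∀ ε : ℝ, 0 < ε → ε < 1 →
  Ev fun D0 x => ∀ (F : (Fin k → ℝ) → ℝ) (m : Fin k) (N : Finset (Fin k)),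
  ∀ u : Co (Sx D0 x) k, yN (Rx δ x) s F m N u ^ 2 ≤
    if (prN N u : ℝ) ≤ Rx δ x ^ (1 - s) then
      BN (Rx δ x) F m N (dlN N u) ^ 2 *
        mw (fun p => 1 + (N.card : ℝ) / ((p : ℝ) - 1)) (dlN N u) ^ 2 /
        ((1 - ε) * ((1 - s) ^ N.card / (N.card.factorial : ℝ)) * lk D0 δ x ^ N.card) ^ 2
    else 0

/-- A_BV (helper31): the integrand of the form is of class BVk, uniformly. -/
def A_BV : Prop := ∀ (k : ℕ) (s : ℝ) (F : (Fin k → ℝ) → ℝ), 0 < s → s < 1 → Tst k s F →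
  ∃ (M : ℝ) (V : NNReal), 0 ≤ M ∧ ∀ (m : Fin k) (L : List (Fin k)), (m :: L).Nodup →
  BVk k 1 M V (cutm m (PhN s L.toFinset (mgL F (L ++ [m]))))

/-- A_INT (helper31): its integral. -/
def A_INT : Prop := ∀ (k : ℕ) (s : ℝ) (F : (Fin k → ℝ) → ℝ), 0 < s → s < 1 → Tst k s F →
  ∀ (m : Fin k) (L : List (Fin k)), (m :: L).Nodup → 0 ≤ GN F (L ++ [m]) ∧
  ∫ t, cutm m (PhN s L.toFinset (mgL F (L ++ [m]))) t =
    (1 - s) ^ L.length / (L.length.factorial : ℝ) * GN F (L ++ [m])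

/-- S11. The form of the extension (model Q11, BG/Q/I_Q11.lean). N = L.toFinset, n = card N = L.length.
With y = yN: QN (a = aF; all_QN) gives Qf ≤ sum_u y^2/mw (aF-1) u * mw (1 + k/(p-2)) u, only u in NoC m occur
(S8). With c = (1-ε1) (1-s)^n/n! and S10 this is ≤ lk^2/c^2 times the sum over u in NoC m of f u/mw aF u,
f u = (BN (dlN u)/lk^(n+1))^2 [prN u ≤ R^(1-s)] mw (1+n/(p-1)) (dlN u)^2 mw (1+k/(p-2)) u mw (1+1/(p-2)) u
(as 1/(p-2) = (1/(p-1)) (1 + 1/(p-2)); lk^(2(n+1)) / lk^(2n) = lk^2). Φ = PhN s N (mgL F (L ++ [m])). By S9 the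
condition prN u ≤ R^(1-s) is the condition of PhN at t = tv R u, and G(tv (dlN u)) = G(tv u), G = mgL F
(L ++ [m]) (A_NICE: independent of the variables in N and of m). S7 gives |f u - Φ (tv u)| ≤
C (ε1 + (mw (1 + C/(p-2)) u - 1)) for u in NoC m (u in NoC m gives NoN (insert m N) (dlN u)). all_APX (T0 = 1,
A_BV; Φ t /= 0 gives sum of the variables other than m ≤ s + (1-s) = 1; support of f: sz u ≤ 1, S8) and
A_INT: the sum is ≤ lk^(k-1) ((1-s)^n/n! GN + ε2). Total lk^(k+1) (n!/(1-s)^n GN + ε) (k ≥ 1; uniform over the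
finitely many m, L: S2A_Ev_fin in BG/C/S2A.lean). USES: S7, S8, S9, S10, A_NICE, A_BV, A_INT. -/
def S_11 : Prop := ∀ (k : ℕ) (s : ℝ) (F : (Fin k → ℝ) → ℝ), 0 < s → s < 1 → Tst k s F → ∀ δ : ℝ,
  0 < δ → δ < 1 / 8 → ∀ n : ℕ, ∀ ε : ℝ, 0 < ε → Ev fun D0 x => ∀ (m : Fin k) (L : List (Fin k)),
  (m :: L).Nodup → L.length = n → ∀ y : Co (Sx D0 x) k → ℝ, y = yN (Rx δ x) s F m L.toFinset →
  Qf aF (lam aF y) (lam aF y) ≤
    lk D0 δ x ^ (k + 1) * ((n.factorial : ℝ) / (1 - s) ^ n * GN F (L ++ [m]) + ε)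

/-- S12. S2B for variables bounded by C log^e x: copy the proof of prf_S2B (BG/C/S2B.lean, helper2) with
|y| ≤ C log^e x for log^2 x, s = s' = 1, y' = y, and the exponent 4k + 2e + 6 in BVS (all pieces prf_SUP,
all_SZ, all_S2E, prf_BVS hBV, prf_JCT are theorems, see BG/C/All.lean): total
C^2 2^(4k) x/log^6 x ≤ x/log x for x large. -/
def S_12 : Prop := BVE → ∀ w, Wt w → ∀ (k : ℕ) (h : Fin k → ℕ), Function.Injective h →
  ∀ δ : ℝ, 0 < δ → δ < 1 / 8 → ∀ (C : ℝ) (e : ℕ), 0 ≤ C → ∀ D0 : ℕ, 3 ≤ D0 → (∀ i, h i ≤ D0) →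
  ∃ x0 : ℝ, ∀ x ≥ x0, ∀ v0 : ℕ, (∀ i, (v0 + h i).Coprime (primorial D0)) →
  ∀ (m : Fin k) (y : Co (Sx D0 x) k → ℝ), (∀ r, |y r| ≤ C * Real.log x ^ e) →
  (∀ r, y r ≠ 0 → NoC m r ∧ sz (Rx δ x) r ≤ 1) →
  |S2 w h D0 v0 x m (lam aF y) (lam aF y) -
    thW w x 1 0 / ((primorial D0).totient : ℝ) * Qf aF (lam aF y) (lam aF y)| ≤ x / Real.log x

/-- S13. The prime side of the extension (model Q13, BG/Q/I_Q13.lean). y = yN is bounded by
|BN (dlN u)| ≤ C lk^(n+1) ≤ C log^(n+1) x (S1 second part, S7; lk ≤ log x), support S8, so S12 applies with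
e = n + 1; Qf ≤ lk^(k+1) (A + ε1), A = n!/(1-s)^n GN ≥ 0 (S11, A_INT); 0 ≤ thW w x 1 0 ≤ x (∫ w + ε1) (PNTW);
lk = kap log R, kap = phi(W)/W, so x ∫w/phi(W) lk^(k+1) = Nn; and x/log x ≤ ε1 Nn for x large.
USES: S1, S7, S8, S11, S12, A_INT. -/
def S_13 : Prop := BVE → PNTW → ∀ w, Wt w → ∀ (k : ℕ) (h : Fin k → ℕ), Function.Injective h →
  ∀ (s : ℝ) (F : (Fin k → ℝ) → ℝ), 0 < s → s < 1 → Tst k s F → ∀ δ : ℝ, 0 < δ → δ < 1 / 8 →
  ∀ n : ℕ, ∀ ε : ℝ, 0 < ε → Ev fun D0 x => ∀ v0 : ℕ, (∀ i, (v0 + h i).Coprime (primorial D0)) →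
  ∀ (m : Fin k) (L : List (Fin k)), (m :: L).Nodup → L.length = n →
  ∀ y : Co (Sx D0 x) k → ℝ, y = yN (Rx δ x) s F m L.toFinset →
  S2 w h D0 v0 x m (lam aF y) (lam aF y) ≤
    Nn w k D0 δ x * ((n.factorial : ℝ) / (1 - s) ^ n * GN F (L ++ [m]) + ε)

/-- S14. Restriction to n with all primes (copy of Q14, BG/Q/I_Q14.lean). If tm w h x m n /= 0 then n + h m
is a prime > 9x/8 and (x large, depending on h) n > x; so neither n + h m nor, if it is prime, n + h j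
(j in N) is divisible by a prime of Sx D0 x (they are < x) and Vn h l n only sees colourings without m and
without the colours of N. Second part: the indicator is at most 1 and tm ≥ 0. -/
def S_14 : Prop := ∀ w, Wt w → ∀ (k : ℕ) (h : Fin k → ℕ), ∃ x0 : ℝ, ∀ x ≥ x0,
  ∀ (D0 v0 : ℕ) (m : Fin k) (N : Finset (Fin k)) (l l' : Co (Sx D0 x) k → ℝ),
  (rstN N (rst m l) = rstN N (rst m l') → S2M w h D0 v0 x m N l = S2M w h D0 v0 x m N l') ∧
  0 ≤ S2M w h D0 v0 x m N l ∧ S2M w h D0 v0 x m N l ≤ S2 w h D0 v0 x m l l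

/-- S15. The bound for the moment (model Q15, BG/Q/I_Q15.lean). r = n + 1, card N = n, L = N.toList (nodup,
L.toFinset = N, length n; (m :: L).Nodup). l = lam aP (yF R F). rst m l = lam aF (ym R F m) (ym is
ytr aF (rst m l); C_INV). l2 = rstN N (lam aF (ym R F m)) lives on NoN N and NoC m; y = yN = yxN N (R^(1-s)) l2;
l' = lam aF y has rstN N l' = l2 (S1) and no colour m (S8 second part, C_SUP), so rstN N (rst m l') = l2 =
rstN N (rst m l). By S14 S2M l = S2M l' ≤ S2 l' l', S13, and GN F (L ++ [m]) ≤ A as L ++ [m] is nodup of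
length r; Nn ≥ 0 for x large. (r ≥ 2 is not needed.) USES: S1, S8, S13, S14. -/
def S_15 : Prop := BVE → PNTW → ∀ w, Wt w → ∀ (k : ℕ) (h : Fin k → ℕ), Function.Injective h →
  ∀ (s : ℝ) (F : (Fin k → ℝ) → ℝ), 0 < s → s < 1 → Tst k s F → ∀ r : ℕ, 2 ≤ r → MultiConcl w h s F r

end MPb51559.DQ
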