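import Pool.Agent.Work.MP_b51559_nt.DQ.AllA
import Pool.Agent.Work.MP_b51559_nt.DQ.StmtsS

set_option autoImplicit false

/-!
# Block DQ: the analytic hypotheses of StmtsS are theorems
-/

namespace MPb51559.DQ

open Finset Filter Topology MeasureTheory
open scoped Classical
open MPb51559.BG MPb51559.BG.Q

theorem prs_V_SIM : V_SIM := all_SIM

theorem prs_A_NICE : A_NICE := fun _ _ _ hs hF => A1' hs hF

theorem prs_A_BV : A_BV := fun _ _ _ hs hs1 hF => A2 hs hs1 hF

theorem prs_A_INT : A_INT := fun _ _ _ hs hs1 hF m L hn => A3 hs hs1 hF m L hn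

end MPb51559.DQ
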