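import Pool.Agent.Work.MP_b51559_nt.DQ.Stmts

set_option autoImplicit false

/-!
# Block DQ, item CHO: the chord of the binomial coefficients
-/

namespace MPb51559.DQ

open Finset Filter Topology MeasureTheory
open scoped Classical
open MPb51559.BG MPb51559.BG.Q

theorem CHO_up (s X n : ℕ) : X.choose (s + 1) + n * X.choose s ≤ (X + n).choose (s + 1) := by
  induction n with
  | zero => simp
  | succ n ih =>
    have h1 : (X + (n + 1)).choose (s + 1) = (X + n).choose s + (X + n).choose (s + 1) :=
      Nat.choose_succ_succ (X + n) s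
    have h2 : X.choose s ≤ (X + n).choose s := Nat.choose_le_choose s (Nat.le_add_right X n)
    rw [h1, add_mul, one_mul]
    omega

theorem CHO_down (s X n : ℕ) : (X + n).choose (s + 1) ≤ X.choose (s + 1) + n * (X + n).choose s := by
  induction n with
  | zero => simp
  | succ n ih =>
    have h1 : (X + (n + 1)).choose (s + 1) = (X + n).choose s + (X + n).choose (s + 1) :=
      Nat.choose_succ_succ (X + n) s
    have h2 : (X + n).choose s ≤ (X + (n + 1)).choose s :=
      Nat.choose_le_choose s (Nat.le_succ (X + n))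
    have h3 : n * (X + n).choose s ≤ n * (X + (n + 1)).choose s := Nat.mul_le_mul_left n h2
    rw [h1, add_mul, one_mul]
    omega

theorem prf_CHO : D_CHO := by
  intro r X0 hr
  obtain ⟨s, rfl⟩ : ∃ s, r = s + 1 := ⟨r - 1, by omega⟩
  rw [Nat.add_sub_cancel]
  refine ⟨?_, fun X => ?_⟩
  · have h := CHO_down s 0 X0
    rw [Nat.zero_add, Nat.choose_zero_succ, Nat.zero_add] at h
    have h' : ((X0.choose (s + 1) : ℕ) : ℝ) ≤ (X0 : ℝ) * (X0.choose s : ℝ) := by exact_mod_cast h
    linarith
  · rcases le_total X0 X with h | h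
    · obtain ⟨n, rfl⟩ := Nat.exists_eq_add_of_le h
      have h1 := CHO_up s X0 n
      have h1' : ((X0.choose (s + 1) : ℕ) : ℝ) + (n : ℝ) * (X0.choose s : ℝ) ≤
          (((X0 + n).choose (s + 1) : ℕ) : ℝ) := by exact_mod_cast h1
      push_cast
      linarith
    · obtain ⟨n, rfl⟩ := Nat.exists_eq_add_of_le h
      have h1 := CHO_down s X n
      have h1' : (((X + n).choose (s + 1) : ℕ) : ℝ) ≤
          (X.choose (s + 1) : ℝ) + (n : ℝ) * ((X + n).choose s : ℝ) := by exact_mod_cast h1
      push_cast
      linarith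

end MPb51559.DQ
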