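import Pool.Agent.Work.MP_b51559_nt.DQ.Stmts
import Pool.Agent.Work.MP_b51559_nt.BG.Q.FUN

set_option autoImplicit false

/-!
# Block DQ, item FUNM: the function
-/

namespace MPb51559.DQ

open Finset Filter Topology MeasureTheory
open scoped Classical
open MPb51559.BG MPb51559.BG.Q MPb51559.BG.Q.XFUN

theorem FUNM_mgL_nonneg {k : ℕ} {a b s : ℝ} (ha : 0 < a) (L : List (Fin k)) (t : Fin k → ℝ) :
    0 ≤ mgL (FF a b s k) L t := by
  induction L generalizing t with
  | nil => exact FF_nonneg ha t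
  | cons j L ih =>
    show 0 ≤ marg (mgL (FF a b s k) L) j t
    exact integral_nonneg fun u => ih _

theorem FUNM_prod_upd {k : ℕ} {a b : ℝ} (S : Finset (Fin k)) (j : Fin k) (hj : j ∈ S)
    (t : Fin k → ℝ) (v : ℝ) : ∏ i ∈ S, g a b (Function.update t j v i) =
      g a b v * ∏ i ∈ S.erase j, g a b (t i) := by
  rw [← Finset.mul_prod_erase _ _ hj]
  congr 1
  · simp
  · refine Finset.prod_congr rfl fun i hi => ?_
    rw [Function.update_of_ne (Finset.ne_of_mem_erase hi)]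

theorem FUNM_mgL_le {k : ℕ} {a b s : ℝ} (ha : 0 < a) (L : List (Fin k)) (hL : L.Nodup)
    (t : Fin k → ℝ) : mgL (FF a b s k) L t ≤
      (∫ u, g a b u) ^ L.length * ∏ i ∈ univ.filter (fun i => i ∉ L), g a b (t i) := by
  induction L generalizing t with
  | nil =>
    show FF a b s k t ≤ _
    refine (FF_le ha t).trans (le_of_eq ?_)
    simp
  | cons j L ih =>
    rw [List.nodup_cons] at hL
    have hj : j ∈ univ.filter (fun i => i ∉ L) := by simpa using hL.1
    have he : (univ.filter (fun i => i ∉ L)).erase j = univ.filter (fun i => i ∉ j :: L) := by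
      ext i
      simp only [mem_erase, mem_filter, mem_univ, true_and, List.mem_cons, not_or]
    have h2 : (∫ u, g a b u) ^ (j :: L).length *
        ∏ i ∈ univ.filter (fun i => i ∉ j :: L), g a b (t i) =
        ∫ v, (∫ u, g a b u) ^ L.length *
          (g a b v * ∏ i ∈ univ.filter (fun i => i ∉ j :: L), g a b (t i)) := by
      rw [integral_const_mul, integral_mul_const, List.length_cons, pow_succ]
      ring
    rw [h2]
    show ∫ v, mgL (FF a b s k) L (Function.update t j v) ≤ _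
    refine integral_mono_of_nonneg (Eventually.of_forall fun v => FUNM_mgL_nonneg ha L _)
      (((g_int ha).mul_const _).const_mul _) (Eventually.of_forall fun v => ?_)
    show mgL (FF a b s k) L (Function.update t j v) ≤ _
    refine (ih hL.2 _).trans ?_
    rw [FUNM_prod_upd _ j hj, he]

theorem FUNM_cutL {k : ℕ} (Φ : (Fin k → ℝ) → ℝ) (L : List (Fin k)) (t : Fin k → ℝ) :
    cutL Φ L t = if ∀ i ∈ L, 0 ≤ t i ∧ t i < 1 then Φ t else 0 := by
  induction L with
  | nil => simp [cutL]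
  | cons j L ih =>
    show cutm j (cutL Φ L) t = _
    unfold cutm
    rw [ih]
    by_cases h1 : 0 ≤ t j ∧ t j < 1
    · rw [if_pos h1]
      by_cases h2 : ∀ i ∈ L, 0 ≤ t i ∧ t i < 1
      · rw [if_pos h2, if_pos]
        intro i hi
        rcases List.mem_cons.1 hi with rfl | hi
        · exact h1
        · exact h2 i hi
      · rw [if_neg h2, if_neg]
        intro h3
        exact h2 fun i hi => h3 i (List.mem_cons_of_mem _ hi)
    · rw [if_neg h1, if_neg]
      intro h3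
      exact h1 (h3 j List.mem_cons_self)

/-- the factors -/
noncomputable def FUNM_ph {k : ℕ} (a b : ℝ) (L : List (Fin k)) (i : Fin k) : ℝ → ℝ :=
  if i ∈ L then chi else fun u => g a b u ^ 2

theorem FUNM_ph_int {k : ℕ} {a b : ℝ} (ha : 0 < a) (L : List (Fin k)) (i : Fin k) :
    Integrable (FUNM_ph a b L i) := by
  unfold FUNM_ph
  split_ifs
  · exact chi_int
  · exact gsq_int ha

theorem FUNM_ph_val {k : ℕ} {a b : ℝ} (L : List (Fin k)) (hL : L.Nodup) :
    ∏ i, ∫ u, FUNM_ph a b L i u = (∫ u, g a b u ^ 2) ^ (k - L.length) := by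
  have h1 : ∀ i, ∫ u, FUNM_ph a b L i u = if i ∈ L then 1 else ∫ u, g a b u ^ 2 := by
    intro i
    unfold FUNM_ph
    split_ifs
    · exact chi_val
    · rfl
  simp only [h1]
  rw [Finset.prod_ite, Finset.prod_const_one, one_mul, Finset.prod_const]
  congr 1
  have h2 : univ.filter (fun i => i ∉ L) = univ \ L.toFinset := by
    ext i
    simp
  rw [h2, Finset.card_sdiff_of_subset (Finset.subset_univ _), Finset.card_univ, Fintype.card_fin,
    List.toFinset_card_of_nodup hL]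

theorem FUNM_GN_le {k : ℕ} {a b s : ℝ} (ha : 0 < a) (L : List (Fin k)) (hL : L.Nodup) :
    GN (FF a b s k) L ≤
      (∫ u, g a b u) ^ (2 * L.length) * (∫ u, g a b u ^ 2) ^ (k - L.length) := by
  unfold GN
  rw [← FUNM_ph_val L hL, ← int_prod, ← integral_const_mul]
  refine integral_mono_of_nonneg (Eventually.of_forall fun t => ?_)
    ((int_prod_int _ fun i => FUNM_ph_int ha L i).const_mul _) (Eventually.of_forall fun t => ?_)
  · show 0 ≤ cutL (fun t => mgL (FF a b s k) L t ^ 2) L t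
    rw [FUNM_cutL]
    split_ifs
    · exact sq_nonneg _
    · exact le_rfl
  · show cutL (fun t => mgL (FF a b s k) L t ^ 2) L t ≤
      (∫ u, g a b u) ^ (2 * L.length) * ∏ i, FUNM_ph a b L i (t i)
    have hp : ∏ i, FUNM_ph a b L i (t i) = (∏ i ∈ univ.filter (fun i => i ∈ L), chi (t i)) *
        ∏ i ∈ univ.filter (fun i => i ∉ L), g a b (t i) ^ 2 := by
      rw [← Finset.prod_filter_mul_prod_filter_not univ (fun i => i ∈ L)]
      congr 1
      · refine Finset.prod_congr rfl fun i hi => ?_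
        unfold FUNM_ph
        rw [if_pos (mem_filter.1 hi).2]
      · refine Finset.prod_congr rfl fun i hi => ?_
        unfold FUNM_ph
        rw [if_neg (mem_filter.1 hi).2]
    have hI : 0 ≤ ∫ u, g a b u := integral_nonneg fun u => g_nonneg ha u
    rw [FUNM_cutL]
    split_ifs with h
    · have h1 : ∏ i ∈ univ.filter (fun i => i ∈ L), chi (t i) = 1 := by
        refine Finset.prod_eq_one fun i hi => ?_
        exact if_pos (h i (mem_filter.1 hi).2)
      rw [hp, h1, one_mul, Finset.prod_pow, mul_comm 2, pow_mul, ← mul_pow]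
      exact pow_le_pow_left₀ (FUNM_mgL_nonneg ha L t) (FUNM_mgL_le ha L hL t) 2
    · rw [hp]
      refine mul_nonneg (by positivity) (mul_nonneg ?_ ?_)
      · exact Finset.prod_nonneg fun i _ => chi_nonneg _
      · exact Finset.prod_nonneg fun i _ => sq_nonneg _

/-- the comparison of the constants -/
theorem FUNM_num {ε e : ℝ} {t : ℕ} (hε : 0 < ε) (hε1 : ε < 1) (he0 : 0 < e) (he1 : e ≤ 1 / 8)
    (he : e ≤ ε / (8 * ((t : ℝ) + 1))) : 1 - ε < (1 - ε / 4) * (1 - e) ^ (2 * t + 1) := by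
  have h1 : 1 + ((2 * t + 1 : ℕ) : ℝ) * (-e) ≤ (1 + -e) ^ (2 * t + 1) :=
    one_add_mul_le_pow (by linarith) _
  have h2 : e * (8 * ((t : ℝ) + 1)) ≤ ε := by rwa [le_div_iff₀ (by positivity)] at he
  have h3 : ((2 * t + 1 : ℕ) : ℝ) * e ≤ ε / 4 := by
    push_cast
    nlinarith
  have h4 : 1 - ε / 4 ≤ (1 - e) ^ (2 * t + 1) := by
    have : (1 + -e) = 1 - e := by ring
    rw [this] at h1
    linarith
  have h5 : (1 - ε / 4) * (1 - ε / 4) ≤ (1 - ε / 4) * (1 - e) ^ (2 * t + 1) :=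
    mul_le_mul_of_nonneg_left h4 (by linarith)
  nlinarith

theorem FUNM_alg (ε e q I F : ℝ) (t : ℕ) (hF : F ≠ 0) :
    (1 - ε / 4) * (1 - e) ^ (t + 1) * (q ^ (t + 1) * I / (4 ^ t * F)) =
      4 * I * ((1 - ε / 4) * ((1 - e) * q / 4) ^ (t + 1) / F) := by
  have h4 : (4 : ℝ) ^ t ≠ 0 := by positivity
  rw [div_pow, mul_pow, pow_succ (4 : ℝ) t]
  generalize (1 - e) ^ (t + 1) = u
  generalize q ^ (t + 1) = v
  generalize hw : (4 : ℝ) ^ t = w at h4 ⊢
  field_simp

theorem prf_FUNM (h1 : D_CHO) (h2 : D_RAT) : D_FUNM := by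
  intro r hr ε hε hε1
  obtain ⟨t, rfl⟩ : ∃ t, r = t + 1 := ⟨r - 1, by omega⟩
  obtain ⟨ρ0, hρ0, hrat⟩ := h2 (t + 1) (ε / 4) (by positivity)
  set e : ℝ := min (1 / 8) (min (ε / (8 * ((t : ℝ) + 1))) (1 / (2 * ρ0))) with he
  have he0 : 0 < e := lt_min (by norm_num) (lt_min (by positivity) (by positivity))
  have he8 : e ≤ 1 / 8 := min_le_left _ _
  have heε : e ≤ ε / (8 * ((t : ℝ) + 1)) := (min_le_right _ _).trans (min_le_left _ _)
  have heρ : e ≤ 1 / (2 * ρ0) := (min_le_right _ _).trans (min_le_right _ _)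
  have hnum := FUNM_num hε hε1 he0 he8 heε
  obtain ⟨K0, hK0⟩ := param e he0 he8
  refine ⟨max K0 (t + 2), fun k hk => ?_⟩
  obtain ⟨w, hw, hw1, hw2⟩ := hK0 k ((le_max_left _ _).trans hk)
  have hkt : t + 2 ≤ k := (le_max_right _ _).trans hk
  have hk0 : (0 : ℝ) < k := by
    have : (0 : ℕ) < k := by omega
    exact_mod_cast this
  set b : ℝ := e / 2 with hb
  have hb0 : 0 < b := by positivity
  set a : ℝ := b * w with ha
  have ha0 : 0 < a := by positivity
  have hs : e = 2 * b := by rw [hb]; ring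
  have hba : b / a = 1 / w := by rw [ha]; field_simp
  set A1 : ℝ := ∫ u, g a b u with hA1
  set A2 : ℝ := ∫ u, g a b u ^ 2 with hA2
  have hA1v : A1 = Real.log (1 + 1 / w) := by rw [hA1, g_val ha0 hb0.le, hba]
  have hA2v : A2 = b / (a * (a + b)) := gsq_val ha0 hb0.le
  have hA1p : 0 < A1 := by
    rw [hA1v]
    refine Real.log_pos ?_
    have : 0 < 1 / w := by positivity
    linarith
  have hA2p : 0 < A2 := by rw [hA2v]; positivity
  set q : ℝ := k * A1 ^ 2 / A2 with hq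
  have hA2i : 1 / A2 = b * (w * (1 + w)) := by
    rw [hA2v, ha]
    field_simp
    ring
  have hqv : 4 / e < q := by
    have : q = k * Real.log (1 + 1 / w) ^ 2 * (e / 2 * (w * (1 + w))) := by
      rw [hq, ← hA1v, div_eq_mul_one_div, hA2i, hb]
    rw [this]
    exact hw2
  have hq0 : 0 < q := lt_trans (by positivity) hqv
  have hmark : k * (A1 / (b * A2)) ≤ e := by
    have : A1 / (b * A2) = Real.log (1 + 1 / w) * (w * (1 + w)) := by
      have h1 : A1 / (b * A2) = A1 * (1 / A2) / b := by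
        field_simp
      rw [h1, hA2i, hA1v]
      field_simp
    rw [this, ← mul_assoc]
    exact hw1
  have hT : ∫ u, u * g a b u ^ 2 ≤ A1 := gsqt_le ha0
  obtain ⟨n, rfl⟩ : ∃ n, k = n + 2 := ⟨k - 2, by omega⟩
  have hJ : ∀ m : Fin (n + 2), (1 - e) * (A1 ^ 2 * A2 ^ (n + 1)) ≤ JJ (FF a b e (n + 2)) m := by
    intro m
    refine le_trans ?_ (JJ_ge ha0 hb0 hs m)
    rw [Finset.sum_const, Finset.card_erase_of_mem (Finset.mem_univ m), Finset.card_univ,
      Fintype.card_fin, nsmul_eq_mul]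
    have e1 : n + 2 - 1 = n + 1 := rfl
    have e2 : n + 2 - 2 = n := rfl
    rw [e1, e2, ← hA1, ← hA2]
    have h1 : ((n + 1 : ℕ) : ℝ) * (1 / b * ((∫ u, u * g a b u ^ 2) * A2 ^ n)) ≤
        e * A2 ^ (n + 1) := by
      have h2 : (((n + 2 : ℕ) : ℝ)) * (A1 / (b * A2)) * A2 ^ (n + 1) ≤ e * A2 ^ (n + 1) :=
        mul_le_mul_of_nonneg_right hmark (by positivity)
      refine le_trans ?_ h2
      have h3 : (((n + 2 : ℕ) : ℝ)) * (A1 / (b * A2)) * A2 ^ (n + 1) =
          ((n + 2 : ℕ) : ℝ) * (1 / b * (A1 * A2 ^ n)) := by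
        rw [pow_succ]
        field_simp
      rw [h3]
      have h4 : ((n + 1 : ℕ) : ℝ) ≤ ((n + 2 : ℕ) : ℝ) := by exact_mod_cast Nat.le_succ _
      have h5 : 1 / b * ((∫ u, u * g a b u ^ 2) * A2 ^ n) ≤ 1 / b * (A1 * A2 ^ n) :=
        mul_le_mul_of_nonneg_left (mul_le_mul_of_nonneg_right hT (by positivity)) (by positivity)
      have h6 : 0 ≤ 1 / b * (A1 * A2 ^ n) := by positivity
      calc ((n + 1 : ℕ) : ℝ) * (1 / b * ((∫ u, u * g a b u ^ 2) * A2 ^ n))
          ≤ ((n + 1 : ℕ) : ℝ) * (1 / b * (A1 * A2 ^ n)) :=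
            mul_le_mul_of_nonneg_left h5 (by positivity)
        _ ≤ ((n + 2 : ℕ) : ℝ) * (1 / b * (A1 * A2 ^ n)) := mul_le_mul_of_nonneg_right h4 h6
    have h7 : 0 ≤ A1 ^ 2 := sq_nonneg _
    nlinarith [mul_le_mul_of_nonneg_left h1 h7]
  have h1e : 0 < 1 - e := by linarith
  set ρ : ℝ := (1 - e) * q / 4 with hρ
  have hρρ : ρ0 ≤ ρ := by
    have h3 : e * (2 * ρ0) ≤ 1 := by rwa [le_div_iff₀ (by positivity)] at heρ
    have h4 : 4 < q * e := by rwa [div_lt_iff₀ he0] at hqv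
    have h5 : 4 * ρ0 ≤ (1 - e) * q := by
      have h6 : 4 * ρ0 * e ≤ (1 - e) * q * e := by nlinarith
      exact le_of_mul_le_mul_right h6 he0
    rw [hρ]
    linarith
  have hρ0' : 0 ≤ ρ := hρ0.le.trans hρρ
  have hX := hrat ρ hρρ
  set X : ℕ := ⌊ρ⌋₊ with hXdef
  have hXρ : (X : ℝ) ≤ ρ := Nat.floor_le hρ0'
  have hch := h1 (t + 1) X (by omega)
  rw [Nat.add_sub_cancel] at hch
  have hfac : (0 : ℝ) < ((t.factorial : ℕ) : ℝ) := by exact_mod_cast t.factorial_pos
  have hfac1 : (0 : ℝ) < (((t + 1).factorial : ℕ) : ℝ) := by exact_mod_cast (t + 1).factorial_pos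
  refine ⟨e, (X.choose t : ℝ), (X : ℝ) * (X.choose t : ℝ) - (X.choose (t + 1) : ℝ), A2 ^ (n + 2),
    (1 - e) * (A1 ^ 2 * A2 ^ (n + 1)), A1 ^ (2 * (t + 1)) * A2 ^ (n + 2 - (t + 1)),
    FF a b e (n + 2), he0, by linarith, Nat.cast_nonneg _, hch, by positivity, FF_tst ha0,
    F_sq ha0, hJ, ?_, ?_⟩
  · intro L hL hLr
    have h3 := FUNM_GN_le (s := e) ha0 L hL (b := b)
    rw [hLr] at h3
    exact h3
  · rw [Nat.add_sub_cancel]
    have hqA : ((n + 2 : ℕ) : ℝ) * A1 ^ 2 = q * A2 := by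
      rw [hq]
      field_simp
    set I : ℝ := A2 ^ (n + 2) with hI
    have hI0 : 0 < I := by positivity
    have hkA : ((n + 2 : ℕ) : ℝ) ^ (t + 1) * (A1 ^ (2 * (t + 1)) * A2 ^ (n + 2 - (t + 1))) =
        q ^ (t + 1) * I := by
      calc ((n + 2 : ℕ) : ℝ) ^ (t + 1) * (A1 ^ (2 * (t + 1)) * A2 ^ (n + 2 - (t + 1)))
          = (((n + 2 : ℕ) : ℝ) * A1 ^ 2) ^ (t + 1) * A2 ^ (n + 2 - (t + 1)) := by
            rw [mul_pow, pow_mul]; ring
        _ = q ^ (t + 1) * (A2 ^ (t + 1) * A2 ^ (n + 2 - (t + 1))) := by rw [hqA, mul_pow]; ring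
        _ = q ^ (t + 1) * I := by
            rw [← pow_add, hI]
            congr 2
            omega
    have hkJ : ((n + 2 : ℕ) : ℝ) * ((1 - e) * (A1 ^ 2 * A2 ^ (n + 1))) = 4 * ρ * I := by
      calc ((n + 2 : ℕ) : ℝ) * ((1 - e) * (A1 ^ 2 * A2 ^ (n + 1)))
          = (1 - e) * (((n + 2 : ℕ) : ℝ) * A1 ^ 2) * A2 ^ (n + 1) := by ring
        _ = 4 * ρ * I := by rw [hqA, hρ, hI]; ring
    have hC : (((n + 2).choose (t + 1) : ℕ) : ℝ) ≤
        ((n + 2 : ℕ) : ℝ) ^ (t + 1) / (((t + 1).factorial : ℕ) : ℝ) :=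
      Nat.choose_le_pow_div (t + 1) (n + 2)
    set A : ℝ := A1 ^ (2 * (t + 1)) * A2 ^ (n + 2 - (t + 1)) with hA
    have hA0 : 0 < A := by positivity
    set Y : ℝ := q ^ (t + 1) * I / (4 ^ t * (((t + 1).factorial : ℕ) : ℝ)) with hY
    have hY0 : 0 < Y := by positivity
    have hp0 : 0 < (1 - e) ^ t := by positivity
    -- first term
    have hF : (1 - ε) * (((n + 2).choose (t + 1) : ℕ) : ℝ) / (4 ^ t * ((t.factorial : ℕ) : ℝ)) *
        (((t.factorial : ℕ) : ℝ) * A / (1 - e) ^ t) ≤ (1 - ε) * Y / (1 - e) ^ t := by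
      have h3 : (1 - ε) * (((n + 2).choose (t + 1) : ℕ) : ℝ) / (4 ^ t * ((t.factorial : ℕ) : ℝ)) *
          (((t.factorial : ℕ) : ℝ) * A / (1 - e) ^ t) =
          (1 - ε) * ((((n + 2).choose (t + 1) : ℕ) : ℝ) * A / 4 ^ t) / (1 - e) ^ t := by
        field_simp
      rw [h3]
      refine div_le_div_of_nonneg_right (mul_le_mul_of_nonneg_left ?_ (by linarith)) hp0.le
      calc (((n + 2).choose (t + 1) : ℕ) : ℝ) * A / 4 ^ t
          ≤ ((n + 2 : ℕ) : ℝ) ^ (t + 1) / (((t + 1).factorial : ℕ) : ℝ) * A / 4 ^ t :=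
            div_le_div_of_nonneg_right (mul_le_mul_of_nonneg_right hC hA0.le) (by positivity)
        _ = (((n + 2 : ℕ) : ℝ) ^ (t + 1) * A) / (4 ^ t * (((t + 1).factorial : ℕ) : ℝ)) := by
            field_simp
        _ = Y := by rw [hkA]
    -- right hand side
    have hG : (1 - ε / 4) * (1 - e) ^ (t + 1) * Y ≤
        4 * I * ((X.choose t : ℝ) * ρ - ((X : ℝ) * (X.choose t : ℝ) - (X.choose (t + 1) : ℝ))) := by
      have h3 : (1 - ε / 4) * (1 - e) ^ (t + 1) * Y =
          4 * I * ((1 - ε / 4) * ρ ^ (t + 1) / (((t + 1).factorial : ℕ) : ℝ)) := by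
        rw [hY, hρ]
        exact FUNM_alg ε e q I _ t (by positivity)
      rw [h3]
      refine mul_le_mul_of_nonneg_left ?_ (by positivity)
      refine hX.trans ?_
      have h4 : (X.choose t : ℝ) * X ≤ (X.choose t : ℝ) * ρ :=
        mul_le_mul_of_nonneg_left hXρ (Nat.cast_nonneg _)
      linarith
    have hH : (1 - ε) * Y / (1 - e) ^ t < (1 - ε / 4) * (1 - e) ^ (t + 1) * Y := by
      rw [div_lt_iff₀ hp0]
      have h3 : (1 - ε / 4) * (1 - e) ^ (t + 1) * Y * (1 - e) ^ t =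
          ((1 - ε / 4) * (1 - e) ^ (2 * t + 1)) * Y := by
        rw [show 2 * t + 1 = (t + 1) + t by ring, pow_add]
        ring
      rw [h3]
      exact mul_lt_mul_of_pos_right hnum hY0
    rw [hkJ]
    have h5 : (X.choose t : ℝ) * (4 * ρ * I) = 4 * I * ((X.choose t : ℝ) * ρ) := by ring
    rw [h5]
    have h6 : 4 * I * ((X.choose t : ℝ) * ρ - ((X : ℝ) * (X.choose t : ℝ) - (X.choose (t + 1) : ℝ))) =
        4 * I * ((X.choose t : ℝ) * ρ) -
          4 * ((X : ℝ) * (X.choose t : ℝ) - (X.choose (t + 1) : ℝ)) * I := by ring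
    rw [h6] at hG
    linarith

end MPb51559.DQ
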