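import Pool.Agent.Work.MP_b51559_nt.DQ.Fin1

set_option autoImplicit false

/-! # Block DQ: the form with finite sets, no own definitions -/

namespace MPb51559.DQ

open Finset
open scoped Classical
open MPb51559.BG MPb51559.BG.Q

theorem tuples_of (hQ : ThmQ) (r : ℕ) (hr : 2 ≤ r) (ε : ℝ) (hε : 0 < ε) :
    ∃ K : ℕ, ∀ V : Finset ℕ, K ≤ V.card →
      (∀ p : ℕ, p.Prime → ∃ v : ℕ, ∀ a ∈ V, ¬ p ∣ v + a) →
      ∃ x₀ : ℕ, ∀ x : ℕ, x₀ ≤ x →
        (1 - ε) * (V.card.choose r : ℝ) / (4 ^ (r - 1) * ((r - 1).factorial : ℝ)) ≤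
          (((V.powersetCard r).filter (fun M => ∃ n : ℕ, x < n ∧ (∀ a ∈ V, n + a < 2 * x) ∧
            ∀ a ∈ M, (n + a).Prime)).card : ℝ) := by
  obtain ⟨K, hK⟩ := hQ r hr ε hε
  refine ⟨K, fun V hV hadm => ?_⟩
  have e : Fin V.card ≃ V := V.equivFin.symm
  let h : Fin V.card → ℕ := fun i => (e i : ℕ)
  have hinj : Function.Injective h := fun i j hij => e.injective (Subtype.ext hij)
  have hmem : ∀ i, h i ∈ V := fun i => (e i).2
  have hA : Adm h := ⟨hinj, fun p hp => by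
    obtain ⟨v, hv⟩ := hadm p hp
    exact ⟨v, fun i => hv _ (hmem i)⟩⟩
  obtain ⟨x0, hx0⟩ := hK V.card hV h hA
  refine ⟨x0, fun x hx => (hx0 x hx).trans ?_⟩
  rw [Nat.cast_le]
  refine card_le_card_of_injOn (fun M => M.map ⟨h, hinj⟩) ?_ ?_
  · intro M hM
    rw [mem_coe, mem_filter, mem_powersetCard] at hM
    rw [mem_coe, mem_filter, mem_powersetCard, card_map]
    obtain ⟨⟨_, hc⟩, n, h1, h2, h3⟩ := hM
    refine ⟨⟨fun a ha => ?_, hc⟩, n, h1, fun a ha => ?_, fun a ha => ?_⟩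
    · rw [mem_map] at ha
      obtain ⟨i, _, rfl⟩ := ha
      exact hmem i
    · have := h2 (e.symm ⟨a, ha⟩)
      simpa [h] using this
    · rw [mem_map] at ha
      obtain ⟨i, hi, rfl⟩ := ha
      exact h3 i hi
  · intro M _ M' _ hMM
    exact map_injective _ hMM

end MPb51559.DQ
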