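import Pool.Agent.Work.MP_b51559_nt.DQ.StmtsS

/-!
# Block DQ, item S1: the extension in the colours of `N`
-/

set_option autoImplicit false

namespace MPb51559.DQ

open Finset Filter Topology MeasureTheory
open scoped Classical
open MPb51559.BG MPb51559.BG.Q

namespace I_S1

variable {S : Finset ℕ} {k : ℕ}

theorem dlN_eq {N : Finset (Fin k)} {r : Co S k} (h : NoN N r) : dlN N r = r := by
  funext p
  unfold dlN
  rw [if_neg]
  rintro ⟨j, hj, hp⟩
  exact h j hj p hp

theorem noN_dlN (N : Finset (Fin k)) (r : Co S k) : NoN N (dlN N r) := by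
  intro j hj p
  unfold dlN
  split_ifs with h
  · simp
  · intro hp
    exact h ⟨j, hj, hp⟩

theorem dlN_dlN (N : Finset (Fin k)) (r : Co S k) : dlN N (dlN N r) = dlN N r :=
  dlN_eq (noN_dlN N r)

theorem le_dlN {N : Finset (Fin k)} {d u : Co S k} (hd : NoN N d) : Le d u ↔ Le d (dlN N u) := by
  unfold Le
  refine forall_congr' fun p => ?_
  unfold dlN
  split_ifs with h
  · obtain ⟨j, hj, hp⟩ := h
    constructor
    · rintro (h1 | h1)
      · exact Or.inl h1
      · exact absurd (h1.trans hp) (hd j hj p)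
    · rintro (h1 | h1)
      · exact Or.inl h1
      · exact Or.inl h1
  · exact Iff.rfl

theorem mw_pos (hS : ∀ p ∈ S, 2 < p) (u : Co S k) : 0 < mw (fun p => aF p - 1) u := by
  unfold mw
  refine Finset.prod_pos fun p _ => ?_
  split_ifs
  · exact one_pos
  · have h1 : (2 : ℝ) < (p : ℕ) := by exact_mod_cast hS p p.2
    unfold aF
    linarith

theorem prN_eq_one {N : Finset (Fin k)} {u : Co S k} (h : NoN N u) : prN N u = 1 := by
  unfold prN
  refine Finset.prod_eq_one fun j hj => ?_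
  unfold prt
  refine Finset.prod_eq_one fun p _ => ?_
  rw [if_neg (h j hj p)]

theorem one_le_cpN (hS : ∀ p ∈ S, 2 < p) (N : Finset (Fin k)) (Z : ℝ) (hZ : 1 ≤ Z) (r : Co S k)
    (hr : NoN N r) : 1 ≤ cpN N Z r := by
  unfold cpN
  have h1 : mw (fun p => aF p - 1) r / mw (fun p => aF p - 1) r = 1 := div_self (mw_pos hS r).ne'
  refine h1.ge.trans ?_
  refine Finset.single_le_sum
    (f := fun u => mw (fun p => aF p - 1) r / mw (fun p => aF p - 1) u)
    (fun u _ => (div_pos (mw_pos hS r) (mw_pos hS u)).le) ?_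
  rw [mem_filter]
  refine ⟨mem_univ _, dlN_eq hr, ?_⟩
  rw [prN_eq_one hr]
  exact_mod_cast hZ

theorem inner (hS : ∀ p ∈ S, 2 < p) (N : Finset (Fin k)) (l : Co S k → ℝ) (Z : ℝ) (hZ : 1 ≤ Z)
    (r : Co S k) (hB : ytr aF l r ≠ 0 → NoN N r) :
    ∑ u ∈ univ.filter (fun u : Co S k => dlN N u = r), yxN N Z l u / mw (fun p => aF p - 1) u =
      ytr aF l r / mw (fun p => aF p - 1) r := by
  have h1 : ∑ u ∈ univ.filter (fun u : Co S k => dlN N u = r),
      yxN N Z l u / mw (fun p => aF p - 1) u =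
      ∑ u ∈ univ.filter (fun u : Co S k => dlN N u = r ∧ (prN N u : ℝ) ≤ Z),
        ytr aF l r / cpN N Z r / mw (fun p => aF p - 1) r *
          (mw (fun p => aF p - 1) r / mw (fun p => aF p - 1) u) := by
    rw [← Finset.filter_filter, Finset.sum_filter (fun u : Co S k => (prN N u : ℝ) ≤ Z)]
    refine Finset.sum_congr rfl fun u hu => ?_
    rw [mem_filter] at hu
    unfold yxN
    rw [hu.2]
    have h2 := (mw_pos hS r).ne'
    have h3 := (mw_pos hS u).ne'
    split_ifs
    · field_simp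
    · simp
  rw [h1, ← Finset.mul_sum]
  change ytr aF l r / cpN N Z r / mw (fun p => aF p - 1) r * cpN N Z r = _
  by_cases h0 : ytr aF l r = 0
  · rw [h0]; simp
  · have h2 := hB h0
    have h4 : cpN N Z r ≠ 0 := (lt_of_lt_of_le one_pos (one_le_cpN hS N Z hZ r h2)).ne'
    have h5 := (mw_pos hS r).ne'
    field_simp

theorem key (hS : ∀ p ∈ S, 2 < p) (N : Finset (Fin k)) (l : Co S k → ℝ) (Z : ℝ) (hZ : 1 ≤ Z)
    (hB : ∀ r, ytr aF l r ≠ 0 → NoN N r) (d : Co S k) (hd : NoN N d) :
    lam aF (yxN N Z l) d = lam aF (ytr aF l) d := by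
  unfold lam
  congr 1
  rw [← Finset.sum_fiberwise_of_maps_to (g := dlN N)
    (s := univ.filter (fun r : Co S k => Le d r)) (t := univ.filter (fun r : Co S k => Le d r))]
  · refine Finset.sum_congr rfl fun r hr => ?_
    rw [mem_filter] at hr
    rw [← inner hS N l Z hZ r (hB r)]
    refine Finset.sum_congr ?_ fun _ _ => rfl
    ext u
    simp only [mem_filter, mem_univ, true_and]
    constructor
    · exact fun h => h.2
    · intro h
      refine ⟨?_, h⟩
      rw [le_dlN hd, h]
      exact hr.2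
  · intro u hu
    rw [mem_filter] at hu ⊢
    exact ⟨mem_univ _, (le_dlN hd).1 hu.2⟩

end I_S1

theorem prs_S1 (hI : C_INV) (hSup : C_SUP) : S_1 := by
  intro S k N hS l Z hZ hl
  have hS1 : ∀ p ∈ S, 1 ≤ p := fun p hp => by have := hS p hp; omega
  obtain ⟨-, hC⟩ := hSup S k aF hS1 l
  have hB2 : ∀ r, ytr aF l r ≠ 0 → NoN N r := fun r hr j hj =>
    (hC j fun r hr => hl r hr j hj).2 r hr
  have ha : ∀ p ∈ S, aF p ≠ 0 ∧ aF p - 1 ≠ 0 := by
    intro p hp
    have h1 : (2 : ℝ) < (p : ℕ) := by exact_mod_cast hS p hp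
    unfold aF
    constructor
    · intro h
      linarith
    · intro h
      linarith
  refine ⟨?_, fun u => ?_, fun m hm hlm u hu => ?_⟩
  · funext d
    unfold rstN
    split_ifs with hd
    · rw [I_S1.key hS N l Z hZ hB2 d hd, (hI S k aF ha l).2]
    · by_contra h
      exact hd (hl d (Ne.symm h))
  · unfold yxN
    split_ifs with h
    · rw [abs_div]
      have h1 : 1 ≤ cpN N Z (dlN N u) := I_S1.one_le_cpN hS N Z hZ _ (I_S1.noN_dlN N u)
      have h2 : 1 ≤ |cpN N Z (dlN N u)| := h1.trans (le_abs_self _)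
      exact div_le_self (abs_nonneg _) h2
    · rw [abs_zero]
      exact abs_nonneg _
  · have hB : ytr aF l (dlN N u) ≠ 0 := by
      intro h0
      apply hu
      unfold yxN
      rw [h0, zero_div, ite_self]
    have h1 := (hC m fun r hr => hlm r hr).2 _ hB
    intro p hp
    apply h1 p
    unfold dlN
    rw [hp, if_neg]
    rintro ⟨j, hj, h⟩
    exact hm (by rw [Option.some.inj h]; exact hj)

end MPb51559.DQ
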