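import Pool.Agent.Work.MP_b51559_nt.DQ.StmtsS
import Pool.Agent.Work.MP_b51559_nt.BG.C.GRA

set_option autoImplicit false

/-!
# Block DQ, item S11: the form of the extension
-/

namespace MPb51559.DQ

open Finset Filter Topology MeasureTheory
open scoped Classical
open MPb51559.BG MPb51559.BG.Q

namespace I_S11

/-- uniformity over a finite type -/
theorem Ev_fin {ι : Type} [Fintype ι] {P : ι → ℕ → ℝ → Prop} (h : ∀ i, Ev (P i)) :
    Ev (fun D0 x => ∀ i, P i D0 x) := by
  choose D1 hD1 using h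
  refine ⟨univ.sup D1, fun D0 hD0 => ?_⟩
  have h2 : ∀ i, ∃ x0 : ℝ, ∀ x ≥ x0, P i D0 x := fun i =>
    hD1 i D0 (le_trans (Finset.le_sup (f := D1) (mem_univ i)) hD0)
  choose x0 hx0 using h2
  obtain ⟨B, hB⟩ := (Set.finite_range x0).bddAbove
  exact ⟨B, fun x hx i => hx0 i x (le_trans (hB ⟨i, rfl⟩) hx)⟩

/-- one step of the local inequality -/
theorem loc2 (a b y : ℝ) (ha : 0 ≤ a) (hb : 0 ≤ b) (hy0 : 0 ≤ y) (hy1 : y ≤ 1) :
    (1 + a * y) * (1 + b * y) ≤ 1 + (a + b + a * b) * y := by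
  have h2 : y ^ 2 ≤ y := by nlinarith
  have e : (1 + a * y) * (1 + b * y) = 1 + (a + b) * y + a * b * y ^ 2 := by ring
  rw [e]
  have h3 : a * b * y ^ 2 ≤ a * b * y := mul_le_mul_of_nonneg_left h2 (by positivity)
  linarith

/-- algebra -/
theorem alg (b E w M P D : ℝ) (hP : P ≠ 0) (hD : D ≠ 0) (hM : M ≠ 0) :
    b ^ 2 * E ^ 2 / D * (w / M) = P ^ 2 / D * ((1 * (b / P)) ^ 2 * (E * E * w) / M) := by
  field_simp

/-- the constant of the local inequality -/
noncomputable def cc (k n : ℕ) : ℝ :=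
  ((n : ℝ) + n + n * n) + ((k : ℝ) + 1 + k * 1) + ((n : ℝ) + n + n * n) * ((k : ℝ) + 1 + k * 1)

theorem cc_nonneg (k n : ℕ) : 0 ≤ cc k n := by
  unfold cc
  positivity

/-- the local inequality between the weights -/
theorem loc (k n : ℕ) (p C : ℝ) (hp : 3 ≤ p) (hC : cc k n ≤ C) :
    (1 + (n : ℝ) / (p - 2)) * (1 + (n : ℝ) / (p - 2)) *
      ((1 + (k : ℝ) / (p - 2)) * (1 + 1 / (p - 2))) ≤ 1 + C / (p - 2) := by
  have h1 : 1 ≤ p - 2 := by linarith
  have h0 : 0 < p - 2 := by linarith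
  obtain ⟨y, hy⟩ : ∃ y : ℝ, y = 1 / (p - 2) := ⟨_, rfl⟩
  have hy0 : 0 ≤ y := by rw [hy]; positivity
  have hy1 : y ≤ 1 := by
    rw [hy, div_le_one h0]
    exact h1
  have e0 : (n : ℝ) / (p - 2) = n * y := by rw [hy]; ring
  have e1 : (k : ℝ) / (p - 2) = k * y := by rw [hy]; ring
  have e2 : C / (p - 2) = C * y := by rw [hy]; ring
  have e3 : 1 / (p - 2) = 1 * y := by rw [hy]; ring
  rw [e0, e1, e2, e3]
  have hk : (0 : ℝ) ≤ k := Nat.cast_nonneg k
  have hn : (0 : ℝ) ≤ n := Nat.cast_nonneg n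
  have s1 := loc2 n n y hn hn hy0 hy1
  have s2 := loc2 k 1 y hk zero_le_one hy0 hy1
  have s3 := loc2 ((n : ℝ) + n + n * n) ((k : ℝ) + 1 + k * 1) y (by positivity) (by positivity)
    hy0 hy1
  have s4 : cc k n * y ≤ C * y := mul_le_mul_of_nonneg_right hC hy0
  have s5 : (1 + (n : ℝ) * y) * (1 + n * y) * ((1 + k * y) * (1 + 1 * y)) ≤
      (1 + ((n : ℝ) + n + n * n) * y) * (1 + ((k : ℝ) + 1 + k * 1) * y) :=
    mul_le_mul s1 s2 (by positivity) (by positivity)
  unfold cc at s4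
  linarith

/-- the choice of the constants -/
theorem consts (g a e : ℝ) (hg : 0 ≤ g) (ha : 0 < a) (he : 0 < e) :
    ∃ e1 e2 : ℝ, 0 < e1 ∧ e1 < 1 ∧ 0 < e2 ∧
      (a * g + e2) / ((1 - e1) * a) ^ 2 ≤ g / a + e := by
  obtain ⟨G, hG⟩ : ∃ G : ℝ, G = g / a := ⟨_, rfl⟩
  have hG0 : 0 ≤ G := by rw [hG]; positivity
  have hgG : g = G * a := by
    rw [hG]
    field_simp
  rw [← hG]
  obtain ⟨e1, he1⟩ : ∃ e1 : ℝ, e1 = min (1 / 4) (e / (8 * (G + 1))) := ⟨_, rfl⟩
  have h1 : 0 < e1 := by rw [he1]; positivity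
  have h2 : e1 ≤ 1 / 4 := by rw [he1]; exact min_le_left _ _
  refine ⟨e1, e * a ^ 2 / 4, h1, by linarith, by positivity, ?_⟩
  have h3 : e1 * (8 * (G + 1)) ≤ e := by
    have : e1 ≤ e / (8 * (G + 1)) := by rw [he1]; exact min_le_right _ _
    rwa [le_div_iff₀ (by positivity)] at this
  have h4 : 0 < 1 - e1 := by linarith
  rw [div_le_iff₀ (by positivity)]
  rw [hgG]
  have e3 : a * (G * a) + e * a ^ 2 / 4 = (G + e / 4) * a ^ 2 := by ring
  rw [e3]
  have e4 : (G + e) * ((1 - e1) * a) ^ 2 = ((G + e) * (1 - e1) ^ 2) * a ^ 2 := by ring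
  rw [e4]
  apply mul_le_mul_of_nonneg_right _ (by positivity)
  have h5 : G * e1 ≤ e / 8 := by nlinarith
  have h6 : (9 / 16 : ℝ) ≤ (1 - e1) ^ 2 := by nlinarith
  have h7 : 1 - 2 * e1 ≤ (1 - e1) ^ 2 := by nlinarith
  have h8 : G * (1 - 2 * e1) ≤ G * (1 - e1) ^ 2 := mul_le_mul_of_nonneg_left h7 hG0
  have h9 : e * (9 / 16) ≤ e * (1 - e1) ^ 2 := mul_le_mul_of_nonneg_left h6 he.le
  nlinarith

section
variable {S : Finset ℕ} {k : ℕ}

/-- the sum of the logarithmic sizes, split by the colours of `N` -/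
theorem sum_split (N : Finset (Fin k)) (f g : Fin k → ℝ) (h : ∀ i, g i = if i ∈ N then 0 else f i) :
    ∑ i, f i = ∑ i ∈ N, f i + ∑ i, g i := by
  have h1 : ∑ i, g i = ∑ i ∈ univ \ N, f i := by
    rw [← Finset.sum_sdiff (Finset.subset_univ N) (f := g)]
    have h2 : ∑ i ∈ N, g i = 0 := Finset.sum_eq_zero fun i hi => by rw [h i, if_pos hi]
    rw [h2, add_zero]
    refine Finset.sum_congr rfl fun i hi => ?_
    rw [h i, if_neg (Finset.mem_sdiff.1 hi).2]
  rw [h1, ← Finset.sum_sdiff (Finset.subset_univ N) (f := f), add_comm]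

/-- the sum over the variables other than `m` -/
theorem sum_erase (N : Finset (Fin k)) (m : Fin k) (hm : m ∉ N) (t : Fin k → ℝ) :
    ∑ i ∈ univ.erase m, t i = ∑ i ∈ N, t i + ∑ i ∈ univ \ insert m N, t i := by
  have h1 : (univ : Finset (Fin k)).erase m = N ∪ (univ \ insert m N) := by
    ext i
    rw [Finset.mem_union, Finset.mem_sdiff, Finset.mem_insert, Finset.mem_erase]
    constructor
    · intro h
      by_cases hi : i ∈ N
      · exact Or.inl hi
      · exact Or.inr ⟨mem_univ _, fun h' => h'.elim h.1 hi⟩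
    · rintro (h | h)
      · exact ⟨fun h' => hm (h' ▸ h), mem_univ _⟩
      · exact ⟨fun h' => h.2 (Or.inl h'), mem_univ _⟩
  rw [h1, Finset.sum_union]
  rw [Finset.disjoint_left]
  intro i hi hi'
  exact (Finset.mem_sdiff.1 hi').2 (Finset.mem_insert_of_mem hi)

end

theorem one (hBAS : C_BAS) (hQN : C_QN) (hAPX : C_APX) (h7 : S_7) (h8 : S_8) (h9 : S_9)
    (h10 : S_10) (hN : A_NICE) (hBV : A_BV) (hI : A_INT) (k : ℕ) (s : ℝ) (F : (Fin k → ℝ) → ℝ)
    (hs0 : 0 < s) (hs1 : s < 1) (hF : Tst k s F) (δ : ℝ) (hδ0 : 0 < δ) (hδ : δ < 1 / 8) (n : ℕ)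
    (ε : ℝ) (hε : 0 < ε) (m : Fin k) (L : List (Fin k)) (hmL : (m :: L).Nodup)
    (hL : L.length = n) :
    Ev fun D0 x => ∀ y : Co (Sx D0 x) k → ℝ, y = yN (Rx δ x) s F m L.toFinset →
      Qf aF (lam aF y) (lam aF y) ≤ lk D0 δ x ^ (k + 1) *
        ((n.factorial : ℝ) / (1 - s) ^ n * GN F (L ++ [m]) + ε) := by
  have hk1 : 0 < k := Fin.pos m
  have hs' : 0 < 1 - s := by linarith
  obtain ⟨hmL1, hLnd⟩ := List.nodup_cons.1 hmL
  obtain ⟨N, hNdef⟩ : ∃ N : Finset (Fin k), N = L.toFinset := ⟨_, rfl⟩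
  have hmN : m ∉ N := by
    rw [hNdef, List.mem_toFinset]
    exact hmL1
  have hNc : N.card = n := by
    rw [hNdef, List.toFinset_card_of_nodup hLnd, hL]
  have hLm : (L ++ [m]).Nodup := by
    rw [List.nodup_append_comm]
    exact hmL
  have hLmf : (L ++ [m]).toFinset = insert m N := by
    rw [List.toFinset_append, hNdef]
    ext i
    simp
  obtain ⟨C6, hC60, hC6⟩ := h7 k s F hs0 hs1 hF δ hδ0 hδ n
  obtain ⟨Mg, Vg, hMg0, hMg⟩ := hN k s F hs0 hF
  have hG := hMg (L ++ [m]) hLm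
  rw [hLmf] at hG
  obtain ⟨M, V, hM0, hBV'⟩ := hBV k s F hs0 hs1 hF
  have hBV1 := hBV' m L hmL
  obtain ⟨hGN0, hint⟩ := hI k s F hs0 hs1 hF m L hmL
  rw [hL] at hint
  rw [← hNdef] at hBV1 hint
  obtain ⟨G, hGdef⟩ : ∃ G : (Fin k → ℝ) → ℝ, G = mgL F (L ++ [m]) := ⟨_, rfl⟩
  rw [← hGdef] at hG hBV1 hint
  obtain ⟨g, hg⟩ : ∃ g : ℝ, g = GN F (L ++ [m]) := ⟨_, rfl⟩
  rw [← hg] at hGN0 hint
  obtain ⟨a, ha⟩ : ∃ a : ℝ, a = (1 - s) ^ n / (n.factorial : ℝ) := ⟨_, rfl⟩
  have hfac : (0 : ℝ) < (n.factorial : ℝ) := by exact_mod_cast n.factorial_pos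
  have ha0 : 0 < a := by rw [ha]; positivity
  rw [← ha] at hint
  obtain ⟨e1, e2, he1, he1', he2, hcon⟩ := consts g a ε hGN0 ha0 hε
  have hres : (n.factorial : ℝ) / (1 - s) ^ n * GN F (L ++ [m]) = g / a := by
    rw [← hg, ha]
    field_simp
  obtain ⟨Φ, hΦ⟩ : ∃ Φ : (Fin k → ℝ) → ℝ, Φ = PhN s N G := ⟨_, rfl⟩
  rw [← hΦ] at hBV1 hint
  have hΦ' : ∀ t, Φ t = if (∀ j ∈ N, 0 ≤ t j) ∧ ∑ j ∈ N, t j ≤ 1 - s then G t ^ 2 else 0 := by
    intro t
    rw [hΦ]
    rfl
  obtain ⟨C', hC'⟩ : ∃ C' : ℝ, C' = cc k n + C6 + (C6 ^ 2 + C6 * (C6 + Mg)) := ⟨_, rfl⟩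
  have hq0 : 0 ≤ C6 ^ 2 + C6 * (C6 + Mg) := by positivity
  have hkk : 0 ≤ cc k n := cc_nonneg k n
  have hC'0 : 0 ≤ C' := by linarith
  obtain ⟨ε1, hε1, hA⟩ := hAPX k m 1 M C' V δ le_rfl (by norm_num) hM0 hC'0 hδ0 hδ e2 he2
  refine GRA_Ev_mono (GRA_Ev_and (GRA_Ev_and hA (hC6 ε1 hε1))
    (GRA_Ev_and (h10 k s δ hs0 hs1 hδ0 hδ e1 he1 he1')
      (GRA_Ev_and (GRA_Ev_D 2) (GRA_Ev_x 2)))) ?_
  rintro D0 x ⟨⟨a1, a2⟩, a3, hD, hx⟩ y hy
  rw [hres]
  have hx1 : 1 < x := by linarith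
  have hS : ∀ p ∈ Sx D0 x, p.Prime ∧ D0 < p := by
    intro p hp
    unfold Sx at hp
    exact (mem_filter.1 hp).2
  have hSp : ∀ p ∈ Sx D0 x, p.Prime := fun p hp => (hS p hp).1
  have hS' : ∀ p ∈ Sx D0 x, p.Prime ∧ 2 < p := fun p hp => ⟨(hS p hp).1, by
    have := (hS p hp).2
    omega⟩
  have hS3 : ∀ p ∈ Sx D0 x, (3 : ℝ) ≤ p := by
    intro p hp
    have h4 : 3 ≤ p := by
      have := (hS p hp).2
      omega
    exact_mod_cast h4
  have hlk : 0 < lk D0 δ x := GRA_lk_pos D0 hδ hx1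
  have hlogR : 0 < Real.log (Rx δ x) := by
    rw [GRA_logR hx1]
    have h1 := Real.log_pos hx1
    have h3 : 0 < 1 / 4 - δ := by linarith
    positivity
  have hR1 : 1 < Rx δ x := by
    unfold Rx
    exact Real.one_lt_rpow hx1 (by linarith)
  have hR0 : 0 < Rx δ x := by linarith
  rw [← hNdef] at hy
  obtain ⟨b2, b3⟩ := h8 (Sx D0 x) k s (Rx δ x) F hS' hs0 hs1 hR1 hF m N hmN
  rw [← hy] at b3
  have a3' := a3 F m N
  rw [← hy, hNc, ← ha] at a3'
  have a2' := a2 m L hmL hL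
  rw [← hNdef, ← hGdef] at a2'
  have b9 := h9 (Sx D0 x) k hSp N
  -- the weights
  set A : Co (Sx D0 x) k → ℝ := fun r => mw (fun p => 1 + 1 / ((p : ℝ) - 2)) r with hAdef
  have hA1 : ∀ r, 1 ≤ A r := fun r => GRA_one_le_mw (fun p hp => by
    have h4 := hS3 p hp
    have h5 : 0 < (p : ℝ) - 2 := by linarith
    have h6 : 0 < 1 / ((p : ℝ) - 2) := by positivity
    linarith) r
  have hFp : ∀ r : Co (Sx D0 x) k, 0 < mw aF r := fun r => GRA_mw_pos (fun p hp => by
    have h4 := hS3 p hp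
    unfold aF
    linarith) r
  have hF1p : ∀ r : Co (Sx D0 x) k, 0 < mw (fun p => aF p - 1) r := fun r =>
    GRA_mw_pos (fun p hp => by
      have h4 := hS3 p hp
      unfold aF
      linarith) r
  have hAF : ∀ r : Co (Sx D0 x) k, mw (fun p => aF p - 1) r * A r = mw aF r := by
    intro r
    rw [hAdef]
    simp only
    rw [GRA_mw_mul]
    refine GRA_mw_congr (fun p hp => ?_) r
    have h4 := hS3 p hp
    have h5 : (p : ℝ) - 2 ≠ 0 := by linarith
    unfold aF
    field_simp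
    ring
  have hinv : ∀ r : Co (Sx D0 x) k, 1 / mw (fun p => aF p - 1) r = A r / mw aF r := by
    intro r
    rw [← hAF r]
    have h4 := (hF1p r).ne'
    have h5 : A r ≠ 0 := by linarith [hA1 r]
    field_simp
  set B : Co (Sx D0 x) k → ℝ := fun r => mw (fun p => 1 + (k : ℝ) / (aF p - 1)) r with hBdef
  have hB1 : ∀ r, 1 ≤ B r := fun r =>
    GRA_one_le_mw (fun p hp => by
      have h4 := hS3 p hp
      have h5 : 0 ≤ (k : ℝ) / (aF p - 1) := by
        apply div_nonneg (Nat.cast_nonneg k)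
        unfold aF
        linarith
      linarith) r
  set E : Co (Sx D0 x) k → ℝ := fun r => mw (fun p => 1 + (n : ℝ) / ((p : ℝ) - 1)) r with hEdef
  have hE1p : ∀ p ∈ Sx D0 x, 1 ≤ 1 + (n : ℝ) / ((p : ℝ) - 1) := by
    intro p hp
    have h4 := hS3 p hp
    have h5 : 0 < (p : ℝ) - 1 := by linarith
    have h6 : 0 ≤ (n : ℝ) / ((p : ℝ) - 1) := by positivity
    linarith
  have hE1 : ∀ r, 1 ≤ E r := fun r => GRA_one_le_mw hE1p r
  set Lk := lk D0 δ x with hLk
  set f : Co (Sx D0 x) k → ℝ := fun u =>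
    if (prN N u : ℝ) ≤ Rx δ x ^ (1 - s) then
      (1 * (BN (Rx δ x) F m N (dlN N u) / Lk ^ (n + 1))) ^ 2 *
        (E (dlN N u) * E (dlN N u) * (B u * A u))
    else 0 with hf
  have h1e : 0 < 1 - e1 := by linarith
  have hden : 0 < ((1 - e1) * a * Lk ^ n) ^ 2 := by positivity
  obtain ⟨K, hK⟩ : ∃ K : ℝ, K = (Lk ^ (n + 1)) ^ 2 / ((1 - e1) * a * Lk ^ n) ^ 2 := ⟨_, rfl⟩
  have hK0 : 0 ≤ K := by rw [hK]; positivity
  -- the upper bound by the diagonal sum
  have hQ := hQN (Sx D0 x) k aF (fun p hp => by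
    have h4 := hS3 p hp
    unfold aF
    linarith) y
  have c1 : Qf aF (lam aF y) (lam aF y) ≤
      ∑ u : Co (Sx D0 x) k, y u ^ 2 / mw (fun p => aF p - 1) u * B u := by
    have h1 := (abs_le.1 hQ).2
    have e3 : ∑ u : Co (Sx D0 x) k, y u ^ 2 / mw (fun p => aF p - 1) u * B u =
        ∑ r : Co (Sx D0 x) k, y r ^ 2 / mw (fun p => aF p - 1) r +
        ∑ r : Co (Sx D0 x) k, y r ^ 2 / mw (fun p => aF p - 1) r *
          (mw (fun p => 1 + (k : ℝ) / (aF p - 1)) r - 1) := by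
      rw [← Finset.sum_add_distrib]
      refine Finset.sum_congr rfl fun r _ => ?_
      rw [hBdef]
      ring
    rw [e3]
    linarith
  have c2 : ∀ u : Co (Sx D0 x) k,
      y u ^ 2 / mw (fun p => aF p - 1) u * B u ≤
        if NoC m u then K * (f u / mw aF u) else 0 := by
    intro u
    by_cases hu : NoC m u
    · rw [if_pos hu]
      have h1 := a3' u
      have e3 : y u ^ 2 / mw (fun p => aF p - 1) u * B u =
          y u ^ 2 * (B u * A u / mw aF u) := by
        have : y u ^ 2 / mw (fun p => aF p - 1) u =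
            y u ^ 2 * (A u / mw aF u) := by
          rw [← hinv, mul_one_div]
        rw [this]
        ring
      rw [e3]
      have h2 : 0 ≤ B u * A u / mw aF u := by
        have := hB1 u
        have := hA1 u
        have := hFp u
        positivity
      refine (mul_le_mul_of_nonneg_right h1 h2).trans (le_of_eq ?_)
      rw [hf]
      simp only
      split_ifs with h3
      · rw [hK]
        have h5 := hlk.ne'
        have h6 := hden.ne'
        have h7 := (hFp u).ne'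
        have h8 : Lk ^ (n + 1) ≠ 0 := pow_ne_zero _ h5
        have eE : mw (fun p => 1 + (n : ℝ) / ((p : ℝ) - 1)) (dlN N u) = E (dlN N u) := rfl
        rw [eE]
        exact alg _ _ _ _ _ _ h8 h6 h7
      · rw [zero_mul, zero_div, mul_zero]
    · rw [if_neg hu]
      have h1 : y u = 0 := by
        by_contra h2
        exact hu (b3 u h2).1
      rw [h1]
      simp
  have c3 : Qf aF (lam aF y) (lam aF y) ≤
      K * ∑ u ∈ univ.filter (fun u : Co (Sx D0 x) k => NoC m u), f u / mw aF u := by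
    refine c1.trans ((Finset.sum_le_sum fun u _ => c2 u).trans (le_of_eq ?_))
    rw [Finset.mul_sum, Finset.sum_filter]
  -- the main term
  have c4 := a1 Φ f
    (fun t u => by
      have g1 : ∀ j ∈ N, Function.update t m u j = t j := by
        intro j hj
        have hne : j ≠ m := by
          rintro rfl
          exact hmN hj
        exact Function.update_of_ne hne _ _
      have g2 : G (Function.update t m u) = G t := hG.indep m (mem_insert_self m N) t u
      have g3 : ((∀ j ∈ N, 0 ≤ Function.update t m u j) ∧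
          ∑ j ∈ N, Function.update t m u j ≤ 1 - s) ↔
          ((∀ j ∈ N, 0 ≤ t j) ∧ ∑ j ∈ N, t j ≤ 1 - s) := by
        rw [Finset.sum_congr rfl g1]
        refine and_congr_left fun _ => forall₂_congr fun j hj => ?_
        rw [g1 j hj]
      rw [hΦ' t, hΦ' (Function.update t m u), g2]
      simp only [g3])
    hBV1
    (fun t ht => by
      rw [hΦ'] at ht
      split_ifs at ht with h1
      · have h2 : G t ≠ 0 := fun h => ht (by rw [h]; ring)
        have h3 := (hG.supp t h2).2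
        rw [sum_erase N m hmN t]
        linarith [h1.2]
      · exact absurd rfl ht)
    (fun u hu => by
      rw [hf] at hu
      simp only at hu
      split_ifs at hu with h1
      · have h2 : BN (Rx δ x) F m N (dlN N u) ≠ 0 := fun h => hu (by rw [h]; simp)
        have h3 := (b2 _ h2).2.2.2
        obtain ⟨k1, k2, k3, -⟩ := (b9 u).2.2.2.2.2.2 (Rx δ x) hR1
        have h5 := (k3 (1 - s)).1 h1
        rw [(hBAS (Sx D0 x) k hSp u).2.2.2.2.2.2.2.2.1, sum_split N _ _ k2,
          ← (hBAS (Sx D0 x) k hSp (dlN N u)).2.2.2.2.2.2.2.2.1]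
        linarith
      · exact absurd rfl hu)
    (fun u hu => by
      obtain ⟨q1, -, -, q4, q5, -, q7⟩ := b9 u
      obtain ⟨k1, k2, k3, k4⟩ := q7 (Rx δ x) hR1
      have hCpos : ∀ c1 : ℝ, 0 ≤ c1 → ∀ p ∈ Sx D0 x, 1 ≤ 1 + c1 / ((p : ℝ) - 2) := by
        intro c1 hc1 p hp
        have h10 := hS3 p hp
        have h11 : 0 < (p : ℝ) - 2 := by linarith
        have h12 : 0 ≤ c1 / ((p : ℝ) - 2) := by positivity
        linarith
      by_cases h1 : (prN N u : ℝ) ≤ Rx δ x ^ (1 - s)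
      · have ef : f u = (1 * (BN (Rx δ x) F m N (dlN N u) / Lk ^ (n + 1))) ^ 2 *
            (E (dlN N u) * E (dlN N u) * (B u * A u)) := by
          rw [hf]
          simp only
          rw [if_pos h1]
        have eΦ : Φ (tv (Rx δ x) u) = 1 ^ 2 * G (tv (Rx δ x) (dlN N u)) ^ 2 := by
          rw [hΦ', if_pos ⟨fun j _ => k1 j, (k3 (1 - s)).1 h1⟩, one_pow, one_mul,
            k4 G (fun j hj t v => hG.indep j (mem_insert_of_mem hj) t v)]
        rw [ef, eΦ]
        obtain ⟨d1, -, d2⟩ := a2' (dlN N u)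
        have d3 := d2 (by
          intro j hj
          rcases Finset.mem_insert.1 hj with rfl | hj
          · exact (q5 _ hmN).1 hu
          · exact q1 j hj)
        have hL2 : 0 < Lk ^ (n + 1) := by positivity
        refine GRA_real 1 (BN (Rx δ x) F m N (dlN N u) / Lk ^ (n + 1))
          (G (tv (Rx δ x) (dlN N u))) (E (dlN N u) * E (dlN N u) * (B u * A u))
          (mw (fun p => 1 + C6 / ((p : ℝ) - 2)) (dlN N u)) _ C6 Mg 1 ε1 C'
          (by norm_num) ?_ ?_ (hG.bdd _) ?_ ?_ ?_ ?_ hε1.le (by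
            rw [one_pow, one_mul]
            linarith)
        · rw [abs_div, abs_of_pos hL2, div_le_iff₀ hL2]
          exact d1
        · have e3 : BN (Rx δ x) F m N (dlN N u) / Lk ^ (n + 1) - G (tv (Rx δ x) (dlN N u)) =
              (BN (Rx δ x) F m N (dlN N u) - Lk ^ (n + 1) * G (tv (Rx δ x) (dlN N u))) /
                Lk ^ (n + 1) := by
            field_simp
          rw [e3, abs_div, abs_of_pos hL2, div_le_iff₀ hL2, mul_comm _ (Lk ^ (n + 1))]
          exact d3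
        · have h2 := hE1 (dlN N u)
          have h3 := hB1 u
          have h5 := hA1 u
          exact one_le_mul_of_one_le_of_one_le (one_le_mul_of_one_le_of_one_le h2 h2)
            (one_le_mul_of_one_le_of_one_le h3 h5)
        · have h2 : E (dlN N u) ≤ mw (fun p => 1 + (n : ℝ) / ((p : ℝ) - 2)) u := by
            refine (q4 _ hE1p).trans (GRA_mw_mono (fun p hp => ?_) (fun p hp => ?_) u)
            · exact zero_le_one.trans (hE1p p hp)
            · have h10 := hS3 p hp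
              have h11 : 0 < (p : ℝ) - 2 := by linarith
              have h12 : (n : ℝ) / ((p : ℝ) - 1) ≤ (n : ℝ) / ((p : ℝ) - 2) :=
                div_le_div_of_nonneg_left (Nat.cast_nonneg n) h11 (by linarith)
              linarith
          have h3 : 0 ≤ E (dlN N u) := by linarith [hE1 (dlN N u)]
          have h5 : 0 ≤ B u * A u := by
            have := hB1 u
            have := hA1 u
            positivity
          calc E (dlN N u) * E (dlN N u) * (B u * A u) ≤
              mw (fun p => 1 + (n : ℝ) / ((p : ℝ) - 2)) u *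
                mw (fun p => 1 + (n : ℝ) / ((p : ℝ) - 2)) u * (B u * A u) := by
                apply mul_le_mul_of_nonneg_right _ h5
                exact mul_le_mul h2 h2 h3 (h3.trans h2)
            _ = mw (fun p => (1 + (n : ℝ) / ((p : ℝ) - 2)) * (1 + (n : ℝ) / ((p : ℝ) - 2)) *
                ((1 + (k : ℝ) / (aF p - 1)) * (1 + 1 / ((p : ℝ) - 2)))) u := by
                rw [hAdef, hBdef]
                simp only
                rw [GRA_mw_mul, GRA_mw_mul, GRA_mw_mul]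
            _ ≤ mw (fun p => 1 + C' / ((p : ℝ) - 2)) u := by
                refine GRA_mw_mono (fun p hp => ?_) (fun p hp => ?_) u
                · have h10 := hS3 p hp
                  have h11 : 0 < (p : ℝ) - 2 := by linarith
                  have h12 : aF p - 1 = (p : ℝ) - 2 := by
                    unfold aF
                    ring
                  rw [h12]
                  positivity
                · have h10 := hS3 p hp
                  have h12 : aF p - 1 = (p : ℝ) - 2 := by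
                    unfold aF
                    ring
                  rw [h12]
                  exact loc k n p C' h10 (by linarith)
        · exact GRA_one_le_mw (hCpos C6 hC60) _
        · refine (q4 _ (hCpos C6 hC60)).trans
            (GRA_mw_mono (fun p hp => ?_) (fun p hp => ?_) u)
          · exact zero_le_one.trans (hCpos C6 hC60 p hp)
          · have h10 := hS3 p hp
            have h11 : 0 < (p : ℝ) - 2 := by linarith
            have h12 : C6 / ((p : ℝ) - 2) ≤ C' / ((p : ℝ) - 2) :=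
              div_le_div_of_nonneg_right (by linarith) h11.le
            linarith
      · have ef : f u = 0 := by
          rw [hf]
          simp only
          rw [if_neg h1]
        have eΦ : Φ (tv (Rx δ x) u) = 0 := by
          rw [hΦ', if_neg (fun h => h1 ((k3 (1 - s)).2 h.2))]
        rw [ef, eΦ, sub_zero, abs_zero]
        apply mul_nonneg hC'0
        have := GRA_one_le_mw (hCpos C' hC'0) u
        linarith)
  rw [hint] at c4
  have c5 := (abs_le.1 c4).2
  have c6 : ∑ u ∈ univ.filter (fun u : Co (Sx D0 x) k => NoC m u), f u / mw aF u ≤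
      Lk ^ (k - 1) * (a * g + e2) := by
    linarith
  refine c3.trans ((mul_le_mul_of_nonneg_left c6 hK0).trans ?_)
  have e3 : k + 1 = (k - 1) + 2 := by omega
  rw [e3, pow_add Lk]
  have e4 : K * (Lk ^ (k - 1) * (a * g + e2)) =
      Lk ^ (k - 1) * Lk ^ 2 * ((a * g + e2) / ((1 - e1) * a) ^ 2) := by
    rw [hK]
    have h5 := hlk.ne'
    have h6 : 1 - e1 ≠ 0 := by linarith
    have h7 : a ≠ 0 := ha0.ne'
    have h8 : Lk ^ n ≠ 0 := pow_ne_zero _ h5
    rw [pow_succ Lk n]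
    field_simp
  rw [e4]
  exact mul_le_mul_of_nonneg_left hcon (by positivity)

end I_S11

open I_S11 in
theorem prs_S11 (hBAS : C_BAS) (hQN : C_QN) (hAPX : C_APX) (h7 : S_7) (h8 : S_8) (h9 : S_9)
    (h10 : S_10) (hN : A_NICE) (hBV : A_BV) (hI : A_INT) : S_11 := by
  intro k s F hs0 hs1 hF δ hδ0 hδ n ε hε
  have key : ∀ mL : Fin k × List.Vector (Fin k) n, Ev fun D0 x => (mL.1 :: mL.2.toList).Nodup →
      ∀ y : Co (Sx D0 x) k → ℝ, y = yN (Rx δ x) s F mL.1 mL.2.toList.toFinset →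
      Qf aF (lam aF y) (lam aF y) ≤ lk D0 δ x ^ (k + 1) *
        ((n.factorial : ℝ) / (1 - s) ^ n * GN F (mL.2.toList ++ [mL.1]) + ε) := by
    intro mL
    by_cases h : (mL.1 :: mL.2.toList).Nodup
    · exact GRA_Ev_mono (one hBAS hQN hAPX h7 h8 h9 h10 hN hBV hI k s F hs0 hs1 hF δ hδ0 hδ n ε hε
        mL.1 mL.2.toList h mL.2.toList_length) fun D0 x h1 _ => h1
    · exact ⟨0, fun D0 _ => ⟨0, fun x _ h' => absurd h' h⟩⟩
  refine GRA_Ev_mono (Ev_fin key) fun D0 x h m L hmL hL y hy => ?_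
  exact h (m, ⟨L, hL⟩) hmL y hy

end MPb51559.DQ
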