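import Pool.Agent.Work.MP_b51559_nt.DQ.StmtsS
import Pool.Agent.Work.MP_b51559_nt.BG.C.BAS
import Pool.Agent.Work.MP_b51559_nt.BG.C.SUP
import Pool.Agent.Work.MP_b51559_nt.BG.C.TAU
import Pool.Agent.Work.MP_b51559_nt.BG.C.SZ
import Pool.Agent.Work.MP_b51559_nt.BG.C.ADJ
import Pool.Agent.Work.MP_b51559_nt.BG.C.CRT
import Pool.Agent.Work.MP_b51559_nt.BG.C.TMS
import Pool.Agent.Work.MP_b51559_nt.BG.C.S2E
import Pool.Agent.Work.MP_b51559_nt.BG.C.BVS
import Pool.Agent.Work.MP_b51559_nt.BG.C.JCT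
import Pool.Agent.Work.MP_b51559_nt.BG.C.S2B

set_option autoImplicit false

/-!
# Block DQ, item S12: the prime side for variables bounded by a power of the logarithm
-/

namespace MPb51559.DQ

open Finset Filter Topology MeasureTheory
open scoped Classical
open MPb51559.BG MPb51559.BG.Q

theorem prs_S12 : S_12 := by
  intro hBV w hw k h hinj δ hδ hδ8 C a hC D0 hD0 hhD
  have hSUP : C_SUP := prf_SUP
  have hSZ : C_SZ := prf_SZ prf_TAU
  have hS2E : C_S2E := prf_S2E prf_BAS prf_ADJ prf_CRT prf_TMS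
  have hBVS : C_BVS := prf_BVS hBV
  have hJCT : C_JCT := prf_JCT
  obtain ⟨x1, h1⟩ := hS2E w hw k h hinj
  obtain ⟨x2, h2⟩ := hBVS w hw δ hδ (8 * k) (4 * k + 2 * a + 6)
  have hW0 : 0 < primorial D0 := primorial_pos D0
  have hlog := Real.tendsto_log_atTop
  have hev : ∀ᶠ x : ℝ in atTop, 1 < x ∧ (primorial D0 : ℝ) ≤ x ^ δ ∧
      C ^ 2 * (2 : ℝ) ^ (4 * k) ≤ Real.log x ∧ 1 ≤ Real.log x ∧ x1 ≤ x ∧ x2 ≤ x :=
    (eventually_gt_atTop 1).and (((tendsto_rpow_atTop hδ).eventually_ge_atTop _).and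
      ((hlog.eventually_ge_atTop _).and ((hlog.eventually_ge_atTop _).and
        ((eventually_ge_atTop x1).and (eventually_ge_atTop x2)))))
  obtain ⟨x0, hx0⟩ := eventually_atTop.1 hev
  refine ⟨x0, fun x hx v0 hv0 m y hy hym => ?_⟩
  obtain ⟨hx1, hWx, h2k, hl1, hxx1, hxx2⟩ := hx0 x hx
  have hk : 0 < k := Fin.pos m
  have hxp : 0 < x := by linarith
  have hS : ∀ p ∈ Sx D0 x, p.Prime ∧ D0 < p := by
    intro p hp
    exact (Finset.mem_filter.1 hp).2
  have hSp : ∀ p ∈ Sx D0 x, p.Prime := fun p hp => (hS p hp).1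
  have hS3 : ∀ p ∈ Sx D0 x, p.Prime ∧ 3 < p := fun p hp => ⟨(hS p hp).1, by
    have := (hS p hp).2; omega⟩
  have hS1 : ∀ p ∈ Sx D0 x, 1 ≤ p := fun p hp => (hSp p hp).one_le
  have hSc : ∀ p ∈ Sx D0 x, p.Prime ∧ p.Coprime (primorial D0) := fun p hp =>
    ⟨hSp p hp, S2B_coprime (hSp p hp) (hS p hp).2⟩
  obtain ⟨R, hRdef⟩ : ∃ R, R = Rx δ x := ⟨_, rfl⟩
  rw [← hRdef] at hym
  have hR : 1 < R := by
    rw [hRdef, Rx]
    exact Real.one_lt_rpow hx1 (by linarith)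
  have hRs : ∀ u : ℝ, u ≤ 2 → R ^ u ≤ x := by
    intro u hu
    rw [hRdef, Rx, ← Real.rpow_mul hxp.le]
    calc x ^ ((1 / 4 - δ) * u) ≤ x ^ (1 : ℝ) :=
          Real.rpow_le_rpow_of_exponent_le hx1.le (by nlinarith)
      _ = x := Real.rpow_one x
  have hN1 : 1 ≤ ⌊x⌋₊ := Nat.le_floor (by exact_mod_cast hx1.le)
  have hlN : Real.log (⌊x⌋₊ : ℝ) ≤ Real.log x :=
    Real.log_le_log (by exact_mod_cast hN1) (Nat.floor_le hxp.le)
  have hlN0 : 0 ≤ Real.log (⌊x⌋₊ : ℝ) := Real.log_nonneg (by exact_mod_cast hN1)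
  obtain ⟨M, hM⟩ : ∃ M, M = C * Real.log x ^ a := ⟨_, rfl⟩
  have hM0 : 0 ≤ M := by rw [hM]; positivity
  rw [← hM] at hy
  -- general facts on the weight
  obtain ⟨hlm, hln, hlb⟩ : (∀ d, lam aF y d ≠ 0 → NoC m d) ∧
      (∀ d, lam aF y d ≠ 0 → (nrm d : ℝ) ≤ R ^ (1 : ℝ)) ∧
      ∀ d, |lam aF y d| ≤ M * mw (fun _ => 2) d *
        (1 + Real.log (⌊x⌋₊ : ℝ)) ^ (2 * k) := by
    obtain ⟨hA, hB⟩ := hSUP (Sx D0 x) k aF hS1 y
    have hn : ∀ r, y r ≠ 0 → (nrm r : ℝ) ≤ R ^ (1 : ℝ) := fun r hr =>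
      S2B_size hR r (S2B_nrm_pos hSp r) (hym r hr).2
    refine ⟨(hB m fun r hr => (hym r hr).1).1, (hA _ hn).1, ?_⟩
    refine hSZ (Sx D0 x) k hS3 aF (Or.inr rfl) y M ⌊x⌋₊ hN1 hM0 hy ?_
    intro r hr
    exact Nat.le_floor ((hn r hr).trans (hRs 1 (by norm_num)))
  obtain ⟨l, hl⟩ : ∃ l, l = lam aF y := ⟨_, rfl⟩
  rw [← hl] at hlm hln hlb
  rw [← hl]
  refine (h1 x hxx1 D0 v0 (Sx D0 x) hhD hS hv0 m l l hlm hlm).trans ?_
  obtain ⟨P, hP⟩ : ∃ P, P = (1 + Real.log (⌊x⌋₊ : ℝ)) ^ (2 * k) := ⟨_, rfl⟩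
  rw [← hP] at hlb
  have hP0 : 0 ≤ P := by rw [hP]; positivity
  obtain ⟨Z, hZ⟩ : ∃ Z, Z = R ^ (2 : ℝ) := ⟨_, rfl⟩
  have hZ0 : 0 ≤ Z := by rw [hZ]; positivity
  have hWZ : (primorial D0 : ℝ) * Z ≤ x ^ (1 / 2 - δ) := by
    have e1 : Z = x ^ (1 / 2 - 2 * δ) := by
      rw [hZ, hRdef, Rx, ← Real.rpow_mul hxp.le]
      congr 1
      ring
    have e2 : x ^ (1 / 2 - δ) = x ^ δ * x ^ (1 / 2 - 2 * δ) := by
      rw [← Real.rpow_add hxp]
      congr 1
      ring
    rw [e2, e1]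
    gcongr
  have hterm : ∀ d e : Co (Sx D0 x) k,
      (if Cmp d e then |l d| * |l e| * Eq1 w x (primorial D0 * nrm (jn d e)) else 0) ≤
      (M * P) * (M * P) *
        (if Cmp d e ∧ (nrm d : ℝ) * nrm e ≤ Z then
          mw (fun _ => 2) d * mw (fun _ => 2) e * Eq1 w x (primorial D0 * nrm (jn d e)) else 0) := by
    intro d e
    have hE := S2B_Eq1_nonneg w x (primorial D0 * nrm (jn d e))
    have hm1 := S2B_mw_nonneg d
    have hm2 := S2B_mw_nonneg e
    by_cases hc : Cmp d e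
    · by_cases hz : (nrm d : ℝ) * nrm e ≤ Z
      · rw [if_pos hc, if_pos ⟨hc, hz⟩]
        calc |l d| * |l e| * Eq1 w x (primorial D0 * nrm (jn d e)) ≤
            (M * mw (fun _ => 2) d * P) * (M * mw (fun _ => 2) e * P) *
              Eq1 w x (primorial D0 * nrm (jn d e)) := by
              have hb1 := hlb d
              have hb2 := hlb e
              gcongr
          _ = _ := by ring
      · rw [if_pos hc, if_neg (fun hh => hz hh.2), mul_zero]
        have : l d = 0 ∨ l e = 0 := by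
          by_contra hcon
          rw [not_or] at hcon
          apply hz
          calc (nrm d : ℝ) * nrm e ≤ R ^ (1 : ℝ) * R ^ (1 : ℝ) := by
                have a1 := hln d hcon.1
                have a2 := hln e hcon.2
                gcongr
            _ = R ^ ((1 : ℝ) + 1) := by rw [Real.rpow_add (by linarith)]
            _ = Z := by rw [hZ]; norm_num
        rcases this with h0 | h0
        · rw [h0]; simp
        · rw [h0]; simp
    · rw [if_neg hc, if_neg (fun hh => hc hh.1), mul_zero]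
  have hsum : (∑ d, ∑ e, if Cmp d e then
      |l d| * |l e| * Eq1 w x (primorial D0 * nrm (jn d e)) else 0) ≤
      (M * P) * (M * P) *
        ∑ n ∈ Icc 1 ⌊(primorial D0 : ℝ) * Z⌋₊, ((8 * k : ℕ) : ℝ) ^ n.primeFactors.card *
          Eq1 w x n := by
    calc _ ≤ ∑ d, ∑ e, (M * P) * (M * P) *
        (if Cmp d e ∧ (nrm d : ℝ) * nrm e ≤ Z then
          mw (fun _ => 2) d * mw (fun _ => 2) e * Eq1 w x (primorial D0 * nrm (jn d e)) else 0) :=
          Finset.sum_le_sum fun d _ => Finset.sum_le_sum fun e _ => hterm d e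
      _ = (M * P) * (M * P) * ∑ d, ∑ e,
        (if Cmp d e ∧ (nrm d : ℝ) * nrm e ≤ Z then
          mw (fun _ => 2) d * mw (fun _ => 2) e * Eq1 w x (primorial D0 * nrm (jn d e)) else 0) := by
          rw [Finset.mul_sum]
          refine Finset.sum_congr rfl fun d _ => ?_
          rw [Finset.mul_sum]
      _ ≤ _ := by
          have hj := hJCT (Sx D0 x) k (primorial D0) hk hW0 hSc (Eq1 w x)
            (S2B_Eq1_nonneg w x) Z hZ0
          gcongr
  have hbv : ∑ n ∈ Icc 1 ⌊(primorial D0 : ℝ) * Z⌋₊, ((8 * k : ℕ) : ℝ) ^ n.primeFactors.card *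
      Eq1 w x n ≤ x / Real.log x ^ (4 * k + 2 * a + 6) := by
    refine le_trans ?_ (h2 x hxx2)
    refine Finset.sum_le_sum_of_subset_of_nonneg ?_ ?_
    · exact Finset.Icc_subset_Icc le_rfl (Nat.floor_le_floor hWZ)
    · intro n _ _
      have := S2B_Eq1_nonneg w x n
      positivity
  refine hsum.trans ?_
  have hlx : 0 < Real.log x := by linarith
  have hPb : P ≤ (2 * Real.log x) ^ (2 * k) := by
    rw [hP]
    gcongr
    linarith
  calc (M * P) * (M * P) *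
        ∑ n ∈ Icc 1 ⌊(primorial D0 : ℝ) * Z⌋₊, ((8 * k : ℕ) : ℝ) ^ n.primeFactors.card *
          Eq1 w x n
      ≤ (M * (2 * Real.log x) ^ (2 * k)) *
        (M * (2 * Real.log x) ^ (2 * k)) * (x / Real.log x ^ (4 * k + 2 * a + 6)) := by
        have h0 : 0 ≤ ∑ n ∈ Icc 1 ⌊(primorial D0 : ℝ) * Z⌋₊,
            ((8 * k : ℕ) : ℝ) ^ n.primeFactors.card * Eq1 w x n := by
          refine Finset.sum_nonneg fun n _ => ?_
          have := S2B_Eq1_nonneg w x n
          positivity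
        gcongr
    _ = C ^ 2 * (2 : ℝ) ^ (4 * k) * (x / Real.log x ^ 6) := by
        have e1 : Real.log x ^ (4 * k + 2 * a + 6) = Real.log x ^ (4 * k) *
            (Real.log x ^ a * Real.log x ^ a) * Real.log x ^ 6 := by
          rw [← pow_add, ← pow_add, ← pow_add]
          congr 1
          ring
        rw [e1, mul_pow, hM]
        have e2 : (2 : ℝ) ^ (4 * k) = 2 ^ (2 * k) * 2 ^ (2 * k) := by rw [← pow_add]; congr 1; ring
        have e3 : Real.log x ^ (4 * k) = Real.log x ^ (2 * k) * Real.log x ^ (2 * k) := by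
          rw [← pow_add]; congr 1; ring
        rw [e2, e3]
        field_simp
    _ ≤ Real.log x * (x / Real.log x ^ 6) := by gcongr
    _ ≤ x / Real.log x := by
        rw [← mul_div_assoc, div_le_div_iff₀ (by positivity) hlx]
        have e4 : Real.log x * x * Real.log x = x * Real.log x ^ 2 := by ring
        rw [e4]
        have : Real.log x ^ 2 ≤ Real.log x ^ 6 := pow_le_pow_right₀ hl1 (by norm_num)
        gcongr

end MPb51559.DQ
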