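import Pool.Agent.Work.MP_b51559_nt.DQ.StmtsS
import Pool.Agent.Work.MP_b51559_nt.BG.Q.I_Q13

set_option autoImplicit false

/-!
# Block DQ, item S13: the prime side of the extension
-/

namespace MPb51559.DQ

open Finset Filter Topology MeasureTheory
open scoped Classical
open MPb51559.BG MPb51559.BG.Q

namespace I_S13

/-- the extension variables are bounded by the diagonal variables -/
theorem abs_yN_le (h1 : S_1) {S : Finset ℕ} {k : ℕ} (hS : ∀ p ∈ S, 2 < p) (R s : ℝ) (hR : 1 < R)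
    (hs : s < 1) (F : (Fin k → ℝ) → ℝ) (m : Fin k) (N : Finset (Fin k)) (u : Co S k) :
    |yN R s F m N u| ≤ |BN R F m N (dlN N u)| := by
  have hZ : 1 ≤ R ^ (1 - s) := Real.one_le_rpow hR.le (by linarith)
  have hl : ∀ d : Co S k, rstN N (lam aF (ym R F m)) d ≠ 0 → NoN N d := by
    intro d hd
    unfold rstN at hd
    split_ifs at hd with h
    · exact h
    · exact absurd rfl hd
  exact (h1 S k N hS (rstN N (lam aF (ym R F m))) (R ^ (1 - s)) hZ hl).2.1 u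

/-- a bound for all the norms -/
theorem exists_bound {k : ℕ} (F : (Fin k → ℝ) → ℝ) (s : ℝ) (n : ℕ) :
    ∃ G : ℝ, 0 ≤ G ∧ ∀ (m : Fin k) (L : List (Fin k)), L.length = n →
      (n.factorial : ℝ) / (1 - s) ^ n * GN F (L ++ [m]) ≤ G := by
  have hfin : Set.Finite {p : Fin k × List (Fin k) | p.2.length = n} := by
    have h1 := (Set.finite_univ (α := Fin k)).prod (List.finite_length_eq (Fin k) n)
    refine h1.subset fun p hp => ?_
    exact ⟨Set.mem_univ _, hp⟩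
  obtain ⟨G, hG⟩ := (hfin.image fun p : Fin k × List (Fin k) =>
    (n.factorial : ℝ) / (1 - s) ^ n * GN F (p.2 ++ [p.1])).bddAbove
  refine ⟨max G 0, le_max_right _ _, fun m L hL => (hG ?_).trans (le_max_left _ _)⟩
  exact ⟨(m, L), hL, rfl⟩

end I_S13

theorem prs_S13 (h1 : S_1) (h7 : S_7) (h8 : S_8) (h11 : S_11) (h12 : S_12) (hInt : A_INT) :
    S_13 := by
  intro hBV hPNT w hw k h hinj s F hs0 hs1 hF δ hδ hδ8 n ε hε
  obtain ⟨C, hC0, hB7⟩ := h7 k s F hs0 hs1 hF δ hδ hδ8 n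
  have hI := hw.pos
  have hs' : 0 < 1 - s := by linarith
  obtain ⟨G, hG0, hGG⟩ := I_S13.exists_bound F s n
  set η : ℝ := min (∫ u, w u) ((∫ u, w u) * (ε / (3 * (G + 1)))) with hη
  have hηpos : 0 < η := lt_min hI (by positivity)
  have hη1 : η ≤ ∫ u, w u := min_le_left _ _
  have hη2 : η ≤ (∫ u, w u) * (ε / (3 * (G + 1))) := min_le_right _ _
  have E1 := hB7 1 one_pos
  have E2 := h11 k s F hs0 hs1 hF δ hδ hδ8 n (ε / 6) (by positivity)
  set D1 : ℕ := max 3 (∑ i, h i) with hD1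
  have hhD : ∀ D0 ≥ D1, ∀ i, h i ≤ D0 := fun D0 hD i =>
    le_trans (Finset.single_le_sum (fun j _ => Nat.zero_le (h j)) (Finset.mem_univ i))
      (le_trans (le_max_right _ _) hD)
  have E3 : Ev fun D0 x => 3 ≤ D0 ∧ 1 < x ∧ x / Real.log x ≤ ε / 3 * Nn w k D0 δ x ∧
      |thW w x 1 0 / x - ∫ u, w u| < η ∧
      (∀ v0 : ℕ, (∀ i, (v0 + h i).Coprime (primorial D0)) →
        ∀ (m : Fin k) (y : Co (Sx D0 x) k → ℝ), (∀ r, |y r| ≤ C * Real.log x ^ (n + 1)) →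
        (∀ r, y r ≠ 0 → NoC m r ∧ sz (Rx δ x) r ≤ 1) →
        |S2 w h D0 v0 x m (lam aF y) (lam aF y) -
          thW w x 1 0 / ((primorial D0).totient : ℝ) * Qf aF (lam aF y) (lam aF y)| ≤
          x / Real.log x) := by
    refine GRM_Ev_of D1 fun D0 hD => ?_
    have hD3 : 3 ≤ D0 := le_trans (le_max_left _ _) hD
    obtain ⟨x0, hx0⟩ := h12 hBV w hw k h hinj δ hδ hδ8 C (n + 1) hC0 D0 hD3 (hhD D0 hD)
    filter_upwards [eventually_ge_atTop x0, eventually_gt_atTop (1 : ℝ),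
      GRM_small w hw k D0 δ hδ8 (ε / 3) (by positivity),
      (Metric.tendsto_nhds.mp (hPNT w hw)) η hηpos] with x h1 h2 h5 h6
    refine ⟨hD3, h2, h5, ?_, fun v0 hv => hx0 x h1 v0 hv⟩
    rwa [Real.dist_eq] at h6
  refine GRM_Ev_mono (GRM_Ev_and E1 (GRM_Ev_and E2 E3)) ?_
  rintro D0 x ⟨hA, hB, hD3, hx, hsm, hth, hS⟩ v0 hv0 m L hmL hL y rfl
  have hx0 : 0 < x := by linarith
  have hR : 1 < Rx δ x := U.Rx_gt_one δ x hδ8 hx
  have hSx : ∀ p ∈ Sx D0 x, p.Prime ∧ 2 < p := fun p hp =>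
    ⟨(U.Sx_prime hp).1, by have := (U.Sx_prime hp).2.1; omega⟩
  have hlk0 : 0 ≤ lk D0 δ x := (U.lk_pos D0 δ x hδ8 hx).le
  have hlkl : lk D0 δ x ≤ Real.log x := U.lk_le_log D0 δ x hδ.le hx
  have hmN : m ∉ L.toFinset := fun hm =>
    (List.nodup_cons.1 hmL).1 (List.mem_toFinset.1 hm)
  have hbd : ∀ r : Co (Sx D0 x) k, |yN (Rx δ x) s F m L.toFinset r| ≤
      C * Real.log x ^ (n + 1) := by
    intro r
    refine (I_S13.abs_yN_le h1 (fun p hp => (hSx p hp).2) (Rx δ x) s hR hs1 F m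
      L.toFinset r).trans ?_
    refine ((hA m L hmL hL (dlN L.toFinset r)).1).trans ?_
    exact mul_le_mul_of_nonneg_left (pow_le_pow_left₀ hlk0 hlkl (n + 1)) hC0
  have hsp : ∀ r : Co (Sx D0 x) k, yN (Rx δ x) s F m L.toFinset r ≠ 0 →
      NoC m r ∧ sz (Rx δ x) r ≤ 1 := by
    intro r hr
    obtain ⟨e1, _, e3⟩ :=
      (h8 (Sx D0 x) k s (Rx δ x) F hSx hs0 hs1 hR hF m L.toFinset hmN).2 r hr
    exact ⟨e1, e3⟩
  have hS2 := hS v0 hv0 m (yN (Rx δ x) s F m L.toFinset) hbd hsp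
  have hQ := hB m L hmL hL (yN (Rx δ x) s F m L.toFinset) rfl
  have hGN := (hInt k s F hs0 hs1 hF m L hmL).1
  have hA0 : 0 ≤ (n.factorial : ℝ) / (1 - s) ^ n * GN F (L ++ [m]) := by positivity
  have hfin := I_Q13.final w hw k D0 δ x hx0 (Real.log_pos hR).le hA0 (hGG m L hL) hG0 hε
    hη1 hη2 hth hQ
  have h10 := (abs_le.mp hS2).2
  have h11 : Nn w k D0 δ x * ((n.factorial : ℝ) / (1 - s) ^ n * GN F (L ++ [m]) + ε) =
      Nn w k D0 δ x * ((n.factorial : ℝ) / (1 - s) ^ n * GN F (L ++ [m]) + 2 * ε / 3) +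
      ε / 3 * Nn w k D0 δ x := by ring
  rw [h11]
  linarith

end MPb51559.DQ
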