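import Pool.Agent.Work.MP_b51559_nt.DQ.StmtsS
import Pool.Agent.Work.MP_b51559_nt.BG.Q.I_Q14

set_option autoImplicit false

/-! # Block DQ, item S14 -/

namespace MPb51559.DQ

open Finset Filter Topology MeasureTheory
open scoped Classical
open MPb51559.BG MPb51559.BG.Q

namespace I_S14

theorem rstN_empty {S : Finset ℕ} {k : ℕ} (l : Co S k → ℝ) : rstN (∅ : Finset (Fin k)) l = l := by
  funext d
  unfold rstN NoN
  rw [if_pos (by simp)]

theorem rstN_insert {S : Finset ℕ} {k : ℕ} (j : Fin k) (N : Finset (Fin k)) (l : Co S k → ℝ) :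
    rstN (insert j N) l = rst j (rstN N l) := by
  funext d
  unfold rstN NoN rst
  by_cases h1 : NoC j d
  · by_cases h2 : ∀ i ∈ N, NoC i d
    · rw [if_pos (by
        intro i hi
        rcases Finset.mem_insert.1 hi with h | h
        · rw [h]; exact h1
        · exact h2 i h), if_pos h1]
      exact (if_pos h2).symm
    · rw [if_neg (fun h => h2 fun i hi => h i (Finset.mem_insert_of_mem hi)), if_pos h1]
      exact (if_neg h2).symm
  · rw [if_neg (fun h => h1 (h j (Finset.mem_insert_self j N))), if_neg h1]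

end I_S14

theorem prs_S14 : S_14 := by
  intro w hw k h
  refine ⟨8 * (∑ i, (h i : ℝ)) + 8, fun x hx D0 v0 m N l l' => ?_⟩
  have hH0 : ∀ i, (0 : ℝ) ≤ h i := fun i => Nat.cast_nonneg _
  have hHs : ∀ i, (h i : ℝ) ≤ ∑ j, (h j : ℝ) := fun i =>
    Finset.single_le_sum (f := fun j => (h j : ℝ)) (fun j _ => hH0 j) (mem_univ i)
  have hsum0 : 0 ≤ ∑ j, (h j : ℝ) := sum_nonneg fun j _ => hH0 j
  have hx1 : 1 ≤ x := by linarith
  have hx0 : 0 < x := by linarith
  have key : ∀ (n : ℕ) (l : Co (Sx D0 x) k → ℝ), tm w h x m n ≠ 0 →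
      (∀ j ∈ N, (n + h j).Prime) → Vn h l n = Vn h (rstN N (rst m l)) n := by
    intro n l hn hN
    obtain ⟨hp, hlt⟩ := RS_tm hw h x hx1 m n hn
    have h9 : 9 / 8 * x < (n : ℝ) + h m := by
      unfold tm at hn
      rw [if_pos hp] at hn
      have h1 := hw.supp _ (right_ne_zero_of_mul hn)
      exact (lt_div_iff₀ hx0).1 h1.1
    have hn1 : x < n := by
      have := hHs m
      linarith
    have hS1 : ∀ j : Fin k, ∀ p ∈ Sx D0 x, 1 < p ∧ p < n + h j := by
      intro j p hpS
      obtain ⟨h1, _, h3⟩ := RS_Sx D0 x p hpS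
      refine ⟨h1.one_lt, ?_⟩
      have : (p : ℝ) < ((n + h j : ℕ) : ℝ) := by
        push_cast
        have := hH0 j
        linarith
      exact_mod_cast this
    have hind : ∀ (N' : Finset (Fin k)), (∀ j ∈ N', (n + h j).Prime) →
        ∀ l1 : Co (Sx D0 x) k → ℝ, Vn h l1 n = Vn h (rstN N' l1) n := by
      intro N'
      induction N' using Finset.induction_on with
      | empty => intro _ l1; rw [I_S14.rstN_empty]
      | insert j N' hj ih =>
        intro hP l1
        rw [I_S14.rstN_insert, ih (fun i hi => hP i (Finset.mem_insert_of_mem hi)) l1,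
          RS_Vn h j n (hP j (Finset.mem_insert_self j N')) (hS1 j) (rstN N' l1)]
    rw [RS_Vn h m n hp (hS1 m) l]
    exact hind N hN (rst m l)
  refine ⟨fun hll => ?_, ?_, ?_⟩
  · unfold S2M
    refine Finset.sum_congr rfl fun n _ => ?_
    by_cases hn : tm w h x m n = 0
    · rw [hn, zero_mul, zero_mul]
    · by_cases hj : ∀ j ∈ N, (n + h j).Prime
      · rw [key n l hn hj, key n l' hn hj, hll]
      · rw [if_neg hj, zero_mul, zero_mul]
  · unfold S2M
    refine Finset.sum_nonneg fun n _ => ?_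
    refine mul_nonneg (MPb51559.BG.Q.I_Q14.tm_nonneg hw h x m n) (mul_nonneg ?_ (sq_nonneg _))
    split_ifs <;> norm_num
  · unfold S2M S2
    refine Finset.sum_le_sum fun n _ => ?_
    refine mul_le_mul_of_nonneg_left ?_ (MPb51559.BG.Q.I_Q14.tm_nonneg hw h x m n)
    rw [← pow_two]
    split_ifs
    · rw [one_mul]
    · rw [zero_mul]; exact sq_nonneg _

end MPb51559.DQ
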