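import Pool.Agent.Work.MP_b51559_nt.DQ.StmtsS

set_option autoImplicit false

/-! # Block DQ, item S15: the bound for the moment -/

namespace MPb51559.DQ

open Finset Filter Topology MeasureTheory
open scoped Classical
open MPb51559.BG MPb51559.BG.Q

namespace I_S15

theorem rst_comm {S : Finset ℕ} {k : ℕ} (m : Fin k) (N : Finset (Fin k)) (l : Co S k → ℝ) :
    rstN N (rst m l) = rst m (rstN N l) := by
  funext d
  unfold rst rstN
  by_cases h1 : NoN N d <;> by_cases h2 : NoC m d <;> simp [h1, h2]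

theorem rst_idem {S : Finset ℕ} {k : ℕ} (m : Fin k) (l : Co S k → ℝ) :
    rst m (rst m l) = rst m l := by
  funext d
  unfold rst
  by_cases h2 : NoC m d <;> simp [h2]

theorem Nn_nonneg {w : ℝ → ℝ} (hw : Wt w) (k D0 : ℕ) {δ x : ℝ} (hx : 1 ≤ x) (hδ : δ < 1 / 8) :
    0 ≤ Nn w k D0 δ x := by
  have hR : 1 ≤ Rx δ x := Real.one_le_rpow hx (by linarith)
  have h1 : 0 ≤ Real.log (Rx δ x) := Real.log_nonneg hR
  have h2 : 0 ≤ kap D0 := by unfold kap; positivity
  have h3 : 0 ≤ lk D0 δ x := mul_nonneg h2 h1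
  have h4 := hw.pos.le
  have h5 : 0 ≤ x := by linarith
  unfold Nn
  positivity

end I_S15

open I_S15 in
theorem prs_S15 (hINV : C_INV) (h1 : S_1) (h13 : S_13) (h14 : S_14) : S_15 := by
  intro hBV hPNT w hw k h hinj s F hs0 hs1 hF r _ A hA δ hδ0 hδ ε hε
  obtain ⟨D1, hD1⟩ := h13 hBV hPNT w hw k h hinj s F hs0 hs1 hF δ hδ0 hδ (r - 1) ε hε
  obtain ⟨x1, hx1⟩ := h14 w hw k h
  refine ⟨max D1 2, fun D0 hD0 => ?_⟩
  obtain ⟨x2, hx2⟩ := hD1 D0 (le_trans (le_max_left _ _) hD0)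
  have hD2 : 2 ≤ D0 := le_trans (le_max_right _ _) hD0
  refine ⟨max (max x1 x2) 1, fun x hx v0 hv0 m N hmN hN l hl => ?_⟩
  have hxa : x1 ≤ x := le_trans (le_trans (le_max_left _ _) (le_max_left _ _)) hx
  have hxb : x2 ≤ x := le_trans (le_trans (le_max_right _ _) (le_max_left _ _)) hx
  have hxc : 1 ≤ x := le_trans (le_max_right _ _) hx
  have hS : ∀ p ∈ Sx D0 x, 2 < p := by
    intro p hp
    have := (Finset.mem_filter.1 hp).2.2
    omega
  have hSF : ∀ p ∈ Sx D0 x, aF p ≠ 0 ∧ aF p - 1 ≠ 0 := by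
    intro p hp
    have h2 : (2 : ℝ) < (p : ℝ) := by exact_mod_cast hS p hp
    unfold aF
    exact ⟨by linarith, by linarith⟩
  have hR : 1 ≤ Rx δ x := Real.one_le_rpow hxc (by linarith)
  have hZ : 1 ≤ Rx δ x ^ (1 - s) := Real.one_le_rpow hR (by linarith)
  have e1 : lam aF (ym (Rx δ x) F m) = rst m l := by
    rw [hl]
    exact (hINV (Sx D0 x) k aF hSF (rst m (lam aP (yF (Rx δ x) F)))).2
  have hy : yN (Rx δ x) s F m N = yxN N (Rx δ x ^ (1 - s)) (rstN N (rst m l)) := by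
    unfold yN
    rw [e1]
  have hno : ∀ d, rstN N (rst m l) d ≠ 0 → NoN N d := by
    intro d hd
    by_contra hc
    apply hd
    unfold rstN
    rw [if_neg hc]
  have hext := (h1 (Sx D0 x) k N hS (rstN N (rst m l)) (Rx δ x ^ (1 - s)) hZ hno).1
  rw [← hy] at hext
  have e3 : rstN N (rst m l) =
      rstN N (rst m (lam aF (yN (Rx δ x) s F m N : Co (Sx D0 x) k → ℝ))) := by
    rw [rst_comm m N (lam aF (yN (Rx δ x) s F m N : Co (Sx D0 x) k → ℝ)), hext,
      rst_comm m N l, rst_idem]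
  have e4 := (hx1 x hxa D0 v0 m N l (lam aF (yN (Rx δ x) s F m N))).1 e3
  have e5 := (hx1 x hxa D0 v0 m N (lam aF (yN (Rx δ x) s F m N : Co (Sx D0 x) k → ℝ))
    (lam aF (yN (Rx δ x) s F m N))).2.2
  have hnd : (m :: N.toList).Nodup :=
    List.nodup_cons.2 ⟨fun hc => hmN (Finset.mem_toList.1 hc), N.nodup_toList⟩
  have hlen : N.toList.length = r - 1 := by
    rw [Finset.length_toList]
    omega
  have e6 := hx2 x hxb v0 hv0 m N.toList hnd hlen (yN (Rx δ x) s F m N)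
    (by rw [Finset.toList_toFinset])
  have hG : GN F (N.toList ++ [m]) ≤ A := by
    refine hA _ ?_ ?_
    · rw [List.nodup_append_comm]
      exact hnd
    · rw [List.length_append, hlen, List.length_singleton]
      omega
  rw [e4]
  refine e5.trans (e6.trans ?_)
  refine mul_le_mul_of_nonneg_left ?_ (Nn_nonneg hw k D0 hxc hδ)
  have h7 : (((r - 1).factorial : ℕ) : ℝ) / (1 - s) ^ (r - 1) * GN F (N.toList ++ [m]) ≤
      (((r - 1).factorial : ℕ) : ℝ) / (1 - s) ^ (r - 1) * A := by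
    refine mul_le_mul_of_nonneg_left hG ?_
    have : 0 < 1 - s := by linarith
    positivity
  have h8 : (((r - 1).factorial : ℕ) : ℝ) * A / (1 - s) ^ (r - 1) =
      (((r - 1).factorial : ℕ) : ℝ) / (1 - s) ^ (r - 1) * A := by ring
  linarith

end MPb51559.DQ
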