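import Pool.Agent.Work.MP_b51559_nt.DQ.StmtsS

set_option autoImplicit false

/-!
# Block DQ, sieve part, item S2 (helper27): lower bound for the normaliser in several colours
-/

namespace MPb51559.DQ

open Finset Filter Topology MeasureTheory
open scoped Classical
open MPb51559.BG MPb51559.BG.Q

namespace I_S2

variable {S : Finset ℕ} {k : ℕ}

/-- the part of `v` on the primes coloured by `r` -/
noncomputable def v1 (r v : Co S k) : Co S k := fun p => if r p = none then none else v p

/-- `r` extended by `v` -/
noncomputable def uu (r v : Co S k) : Co S k := fun p => if r p = none then v p else r p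

/-- the allowed values -/
noncomputable def AA (N : Finset (Fin k)) (r : Co S k) (p : {p // p ∈ S}) :
    Finset (Option (Fin k)) :=
  if r p = none then {none} else insert none (N.image some)

theorem inv_mw (f : ℕ → ℝ) (v : Co S k) :
    1 / mw f v = ∏ p : {p // p ∈ S}, (if v p = none then (1 : ℝ) else 1 / f p) := by
  unfold mw
  rw [one_div, ← Finset.prod_inv_distrib]
  refine Finset.prod_congr rfl fun p _ => ?_
  split_ifs
  · exact inv_one
  · exact (one_div _).symm

theorem sum_AA (N : Finset (Fin k)) (r : Co S k) (p : {p // p ∈ S}) (c : ℝ) :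
    ∑ x ∈ AA N r p, (if x = none then (1 : ℝ) else c) =
      if r p = none then 1 else 1 + (N.card : ℝ) * c := by
  unfold AA
  by_cases h : r p = none
  · rw [if_pos h, if_pos h, Finset.sum_singleton, if_pos rfl]
  · rw [if_neg h, if_neg h, Finset.sum_insert, if_pos rfl, Finset.sum_image]
    · congr 1
      rw [Finset.sum_congr rfl (g := fun _ => c) (fun j _ => if_neg (by simp)), Finset.sum_const,
        nsmul_eq_mul]
    · intro a _ b _ hab
      exact Option.some_injective _ hab
    · intro h'
      obtain ⟨a, _, ha⟩ := Finset.mem_image.1 h'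
      simp at ha

theorem mw_sum (N : Finset (Fin k)) (r : Co S k) :
    mw (fun p => 1 + (N.card : ℝ) / ((p : ℝ) - 1)) r =
      ∑ v ∈ Fintype.piFinset (AA N r), 1 / mw aF v := by
  have h1 : ∀ v : Co S k, 1 / mw aF v =
      ∏ p : {p // p ∈ S}, (if v p = none then (1 : ℝ) else 1 / (((p : ℕ) : ℝ) - 1)) := by
    intro v
    rw [inv_mw]
    rfl
  rw [Finset.sum_congr rfl fun v _ => h1 v]
  rw [← Finset.prod_univ_sum (AA N r)
    (fun (p : {p // p ∈ S}) (x : Option (Fin k)) =>
      if x = none then (1 : ℝ) else 1 / (((p : ℕ) : ℝ) - 1))]
  unfold mw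
  refine Finset.prod_congr rfl fun p _ => ?_
  rw [sum_AA]
  split_ifs
  · rfl
  · rw [mul_one_div]

end I_S2

open I_S2 in
/-- Item S2. -/
theorem prs_S2 : S_2 := by
  intro S k N hS Z hZ r hr
  have hp1 : ∀ p : {p // p ∈ S}, (3 : ℝ) ≤ ((p : ℕ) : ℝ) := fun p => by
    exact_mod_cast (hS p.1 p.2).2
  have hpos : ∀ v : Co S k, 0 < mw (fun p => aF p - 1) v := by
    intro v
    unfold mw
    refine Finset.prod_pos fun p _ => ?_
    split_ifs
    · exact one_pos
    · unfold aF
      linarith [hp1 p]
  have hpos2 : ∀ v : Co S k, 0 < mw aF v := by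
    intro v
    unfold mw
    refine Finset.prod_pos fun p _ => ?_
    split_ifs
    · exact one_pos
    · unfold aF
      linarith [hp1 p]
  have hprN : ∀ u : Co S k, prN N u =
      ∏ p : {p // p ∈ S}, ∏ j ∈ N, (if u p = some j then (p : ℕ) else 1) := by
    intro u
    unfold prN prt
    exact Finset.prod_comm
  have hone : ∀ (u : Co S k) (p : {p // p ∈ S}), (∀ j ∈ N, u p ≠ some j) →
      ∏ j ∈ N, (if u p = some j then (p : ℕ) else 1) = 1 := fun u p h =>
    Finset.prod_eq_one fun j hj => if_neg (h j hj)
  have hdl : dlN N r = r := by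
    funext p
    unfold dlN
    rw [if_neg]
    rintro ⟨j, hj, h⟩
    exact hr j hj p h
  constructor
  · unfold cpN
    have h1 : r ∈ univ.filter (fun u : Co S k => dlN N u = r ∧ (prN N u : ℝ) ≤ Z) := by
      rw [Finset.mem_filter]
      refine ⟨Finset.mem_univ _, hdl, ?_⟩
      have h2 : prN N r = 1 := by
        rw [hprN]
        exact Finset.prod_eq_one fun p _ => hone r p fun j hj => hr j hj p
      rw [h2, Nat.cast_one]
      exact hZ
    refine le_trans (le_of_eq ?_) (Finset.single_le_sum
      (f := fun u : Co S k => mw (fun p => aF p - 1) r / mw (fun p => aF p - 1) u)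
      (fun u _ => (div_pos (hpos r) (hpos u)).le) h1)
    exact (div_self (hpos r).ne').symm
  · rw [mw_sum N r]
    unfold cpN
    rw [Finset.sum_mul_sum, ← Finset.sum_product']
    set U := univ.filter (fun u : Co S k => dlN N u = r ∧ (prN N u : ℝ) ≤ Z) with hU
    set W := Fintype.piFinset (AA N r) with hW
    unfold HN
    set V := univ.filter (fun v : Co S k => NoN (univ \ N) v ∧ (nrm v : ℝ) ≤ Z) with hV
    have hval : ∀ v ∈ V, ∀ p, v p = none ∨ ∃ j ∈ N, v p = some j := by
      intro v hv p
      rw [hV, Finset.mem_filter] at hv
      rcases h : v p with _ | j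
      · exact Or.inl rfl
      · right
        refine ⟨j, ?_, rfl⟩
        by_contra hj
        exact hv.2.1 j (Finset.mem_sdiff.2 ⟨Finset.mem_univ _, hj⟩) p h
    have hval2 : ∀ v ∈ V, ∀ p, r p = none → dlN N (uu r v) p = none := by
      intro v hv p hp
      unfold dlN uu
      rw [if_pos hp]
      rcases hval v hv p with h | ⟨j, hj, h⟩
      · rw [h]
        split_ifs <;> rfl
      · rw [if_pos ⟨j, hj, h⟩]
    have hmemU : ∀ v ∈ V, uu r v ∈ U := by
      intro v hv
      rw [hU, Finset.mem_filter]
      refine ⟨Finset.mem_univ _, ?_, ?_⟩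
      · funext p
        by_cases hp : r p = none
        · rw [hval2 v hv p hp, hp]
        · unfold dlN uu
          rw [if_neg hp, if_neg]
          rintro ⟨j, hj, h⟩
          exact hr j hj p h
      · have hvZ : (nrm v : ℝ) ≤ Z := by
          rw [hV, Finset.mem_filter] at hv
          exact hv.2.2
        refine le_trans ?_ hvZ
        have h1 : prN N (uu r v) ≤ nrm v := by
          rw [hprN]
          unfold nrm
          refine Finset.prod_le_prod' fun p _ => ?_
          have hpp : 1 ≤ (p : ℕ) := (hS p.1 p.2).1.one_le
          by_cases hp : r p = none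
          · rcases hval v hv p with h | ⟨j, hj, h⟩
            · rw [if_pos h, hone _ p (fun j _ => by unfold uu; rw [if_pos hp, h]; simp)]
            · rw [if_neg (by rw [h]; simp)]
              have h2 : uu r v p = some j := by unfold uu; rw [if_pos hp, h]
              rw [h2]
              have h3 : ∏ i ∈ N, (if (some j : Option (Fin k)) = some i then (p : ℕ) else 1) =
                  ∏ i ∈ N, (if i = j then (p : ℕ) else 1) := by
                refine Finset.prod_congr rfl fun i _ => ?_
                by_cases hij : i = j
                · rw [if_pos hij, if_pos (by rw [hij])]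
                · rw [if_neg hij, if_neg (fun h => hij (Option.some_injective _ h).symm)]
              rw [h3, Finset.prod_ite_eq' N j (fun _ => (p : ℕ)), if_pos hj]
          · rw [hone _ p (fun j hj => by unfold uu; rw [if_neg hp]; exact hr j hj p)]
            split_ifs
            · exact le_rfl
            · exact hpp
        exact_mod_cast h1
    have hmemW : ∀ v ∈ V, v1 r v ∈ W := by
      intro v hv
      rw [hW, Fintype.mem_piFinset]
      intro p
      unfold AA v1
      by_cases hp : r p = none
      · rw [if_pos hp, if_pos hp]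
        exact Finset.mem_singleton_self _
      · rw [if_neg hp, if_neg hp]
        rcases hval v hv p with h | ⟨j, hj, h⟩
        · rw [h]
          exact Finset.mem_insert_self _ _
        · rw [h]
          exact Finset.mem_insert_of_mem (Finset.mem_image_of_mem _ hj)
    have hle : ∀ v ∈ V, 1 / mw aF v ≤
        (mw (fun p => aF p - 1) r / mw (fun p => aF p - 1) (uu r v)) * (1 / mw aF (v1 r v)) := by
      intro v _
      rw [inv_mw aF v, inv_mw aF (v1 r v)]
      have h1 : mw (fun p => aF p - 1) r / mw (fun p => aF p - 1) (uu r v) =
          ∏ p : {p // p ∈ S}, ((if r p = none then (1 : ℝ) else aF p - 1) /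
            (if uu r v p = none then (1 : ℝ) else aF p - 1)) := by
        unfold mw
        rw [Finset.prod_div_distrib]
      rw [h1, ← Finset.prod_mul_distrib]
      refine Finset.prod_le_prod ?_ ?_
      · intro p _
        split_ifs
        · exact zero_le_one
        · unfold aF
          exact (div_pos one_pos (by linarith [hp1 p])).le
      · intro p _
        have h3 : (1 : ℝ) ≤ aF p - 1 := by
          unfold aF
          linarith [hp1 p]
        by_cases hp : r p = none
        · have h4 : uu r v p = v p := by unfold uu; rw [if_pos hp]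
          have h5 : v1 r v p = none := by unfold v1; rw [if_pos hp]
          rw [if_pos hp, h4, if_pos h5, mul_one]
          by_cases hv : v p = none
          · rw [if_pos hv, if_pos hv, div_one]
          · rw [if_neg hv, if_neg hv]
            exact one_div_le_one_div_of_le (by linarith) (by linarith)
        · have h4 : uu r v p = r p := by unfold uu; rw [if_neg hp]
          have h5 : v1 r v p = v p := by unfold v1; rw [if_neg hp]
          rw [h4, h5, if_neg hp, div_self (by linarith), one_mul]
    have hinj : Set.InjOn (fun v : Co S k => (uu r v, v1 r v)) V := by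
      intro v _ w _ h
      simp only [Prod.mk.injEq] at h
      funext p
      by_cases hp : r p = none
      · have h1 := congrFun h.1 p
        unfold uu at h1
        rwa [if_pos hp, if_pos hp] at h1
      · have h1 := congrFun h.2 p
        unfold v1 at h1
        rwa [if_neg hp, if_neg hp] at h1
    calc ∑ v ∈ V, 1 / mw aF v
        ≤ ∑ v ∈ V, (fun x : Co S k × Co S k =>
          (mw (fun p => aF p - 1) r / mw (fun p => aF p - 1) x.1) * (1 / mw aF x.2))
            ((fun v : Co S k => (uu r v, v1 r v)) v) := Finset.sum_le_sum hle
      _ = ∑ x ∈ V.image (fun v : Co S k => (uu r v, v1 r v)),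
          (mw (fun p => aF p - 1) r / mw (fun p => aF p - 1) x.1) * (1 / mw aF x.2) :=
        (Finset.sum_image (f := fun x : Co S k × Co S k =>
          (mw (fun p => aF p - 1) r / mw (fun p => aF p - 1) x.1) * (1 / mw aF x.2)) hinj).symm
      _ ≤ ∑ x ∈ U ×ˢ W,
          (mw (fun p => aF p - 1) r / mw (fun p => aF p - 1) x.1) * (1 / mw aF x.2) := by
        refine Finset.sum_le_sum_of_subset_of_nonneg ?_ ?_
        · intro x hx
          obtain ⟨v, hv, rfl⟩ := Finset.mem_image.1 hx
          exact Finset.mem_product.2 ⟨hmemU v hv, hmemW v hv⟩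
        · intro x _ _
          exact mul_nonneg (div_pos (hpos r) (hpos x.1)).le (div_pos one_pos (hpos2 x.2)).le

end MPb51559.DQ
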