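import Pool.Agent.Work.MP_b51559_nt.DQ.StmtsS

set_option autoImplicit false

namespace MPb51559.DQ

open Finset Filter Topology MeasureTheory
open scoped Classical
open MPb51559.BG MPb51559.BG.Q

namespace I_S3

theorem Ev_lt (L : ℕ) {P : ℕ → ℕ → ℝ → Prop} (h : ∀ i, Ev (P i)) :
    Ev fun D0 x => ∀ i < L, P i D0 x := by
  induction L with
  | zero => exact ⟨0, fun D0 _ => ⟨0, fun x _ i hi => absurd hi (Nat.not_lt_zero i)⟩⟩
  | succ L ih =>
    obtain ⟨D1, h1⟩ := ih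
    obtain ⟨D2, h2⟩ := h L
    refine ⟨max D1 D2, fun D0 hD => ?_⟩
    obtain ⟨x1, hx1⟩ := h1 D0 (le_trans (le_max_left _ _) hD)
    obtain ⟨x2, hx2⟩ := h2 D0 (le_trans (le_max_right _ _) hD)
    refine ⟨max x1 x2, fun x hx i hi => ?_⟩
    rcases Nat.lt_succ_iff_lt_or_eq.1 hi with hi | hi
    · exact hx1 x (le_trans (le_max_left _ _) hx) i hi
    · rw [hi]
      exact hx2 x (le_trans (le_max_right _ _) hx)

/-- the colouring with renamed colours -/
def Psi {S : Finset ℕ} {k n : ℕ} {N : Finset (Fin k)} (e : Fin n ≃ {j // j ∈ N}) (r : Co S n) :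
    Co S k := fun p => (r p).map (fun i => (e i : Fin k))

theorem Psi_none {S : Finset ℕ} {k n : ℕ} {N : Finset (Fin k)} (e : Fin n ≃ {j // j ∈ N})
    (r : Co S n) (p : {p // p ∈ S}) : Psi e r p = none ↔ r p = none := by
  unfold Psi
  exact Option.map_eq_none_iff

theorem mw_Psi {S : Finset ℕ} {k n : ℕ} {N : Finset (Fin k)} (e : Fin n ≃ {j // j ∈ N})
    (r : Co S n) (f : ℕ → ℝ) : mw f (Psi e r) = mw f r := by
  unfold mw
  refine prod_congr rfl fun p _ => ?_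
  simp only [Psi_none]

theorem nrm_Psi {S : Finset ℕ} {k n : ℕ} {N : Finset (Fin k)} (e : Fin n ≃ {j // j ∈ N})
    (r : Co S n) : nrm (Psi e r) = nrm r := by
  unfold nrm
  refine prod_congr rfl fun p _ => ?_
  simp only [Psi_none]

theorem HN_eq {S : Finset ℕ} {k n : ℕ} (N : Finset (Fin k)) (e : Fin n ≃ {j // j ∈ N}) (Z : ℝ) :
    HN S N Z = ∑ r ∈ univ.filter (fun r : Co S n => (nrm r : ℝ) ≤ Z), 1 / mw aF r := by
  symm
  unfold HN
  refine sum_bij (fun r _ => Psi e r) ?_ ?_ ?_ ?_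
  · intro r hr
    rw [mem_filter] at hr ⊢
    refine ⟨mem_univ _, ?_, by rw [nrm_Psi]; exact hr.2⟩
    intro j hj p hp
    rw [Finset.mem_sdiff] at hj
    unfold Psi at hp
    obtain ⟨i, _, hi⟩ := Option.map_eq_some_iff.1 hp
    exact hj.2 (hi ▸ (e i).2)
  · intro r _ r' _ h
    funext p
    have h1 := congrFun h p
    have hinj : Function.Injective (fun i : Fin n => (e i : Fin k)) :=
      Subtype.val_injective.comp e.injective
    exact Option.map_injective hinj h1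
  · intro v hv
    rw [mem_filter] at hv
    have key : ∀ p, Psi e (fun p => (v p).bind (fun j => if h : j ∈ N then some (e.symm ⟨j, h⟩)
        else none)) p = v p := by
      intro p
      show ((v p).bind (fun j => if h : j ∈ N then some (e.symm ⟨j, h⟩) else none)).map
        (fun i => (e i : Fin k)) = v p
      cases hvp : v p with
      | none => rw [Option.bind_none, Option.map_none]
      | some j =>
        have hj : j ∈ N := by
          by_contra hj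
          exact hv.2.1 j (Finset.mem_sdiff.2 ⟨mem_univ _, hj⟩) p hvp
        rw [Option.bind_some, dif_pos hj, Option.map_some, Equiv.apply_symm_apply]
    have key' := funext key
    refine ⟨_, ?_, key'⟩
    rw [mem_filter]
    refine ⟨mem_univ _, ?_⟩
    rw [← nrm_Psi e, key']
    exact hv.2.2
  · intro r _
    rw [mw_Psi]

theorem step (hB : C_BAS) (hV : V_SIM) {k : ℕ} (n : ℕ) (s δ ε : ℝ) (hs0 : 0 < s) (hs1 : s < 1)
    (D0 : ℕ) (x : ℝ) (hδ : δ < 1 / 8) (hx : 1 < x)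
    (h : ∀ Φ : (Fin n → ℝ) → ℝ, BVk n 1 1 2 Φ →
      |∑ r : Co (Sx D0 x) n, Φ (tv (Rx δ x) r) / mw aF r - lk D0 δ x ^ n * ∫ t, Φ t| ≤
        ε * lk D0 δ x ^ n) (N : Finset (Fin k)) (hN : N.card = n) :
    lk D0 δ x ^ n * ((1 - s) ^ n / (n.factorial : ℝ) - ε) ≤ HN (Sx D0 x) N (Rx δ x ^ (1 - s)) := by
  have hR : 1 < Rx δ x := Real.one_lt_rpow hx (by linarith)
  have hlR : 0 < Real.log (Rx δ x) := Real.log_pos hR
  have hR0 : 0 < Rx δ x := by linarith
  obtain ⟨hbv, hint⟩ := hV n (1 - s) (by linarith) (by linarith)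
  have h1 := h _ hbv
  rw [hint] at h1
  rw [HN_eq N ((Fin.castOrderIso hN).symm.toEquiv.trans N.equivFin.symm)]
  have h2 : ∑ r : Co (Sx D0 x) n, (if (∀ i, 0 ≤ tv (Rx δ x) r i) ∧ ∑ i, tv (Rx δ x) r i ≤ 1 - s
      then (1 : ℝ) else 0) / mw aF r =
      ∑ r ∈ univ.filter (fun r : Co (Sx D0 x) n => (nrm r : ℝ) ≤ Rx δ x ^ (1 - s)), 1 / mw aF r := by
    rw [sum_filter]
    refine sum_congr rfl fun r _ => ?_
    have hS : ∀ p ∈ Sx D0 x, p.Prime := by
      intro p hp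
      unfold Sx at hp
      exact (mem_filter.1 hp).2.1
    obtain ⟨-, hn0, -, -, -, -, -, hpr, hsz, -, -⟩ := hB (Sx D0 x) n hS r
    have e1 : ∀ i, 0 ≤ tv (Rx δ x) r i := by
      intro i
      unfold tv
      refine div_nonneg (Real.log_nonneg ?_) hlR.le
      exact_mod_cast (hpr i).1
    have e2 : (∑ i, tv (Rx δ x) r i ≤ 1 - s) ↔ (nrm r : ℝ) ≤ Rx δ x ^ (1 - s) := by
      rw [← hsz (Rx δ x)]
      unfold sz
      rw [div_le_iff₀ hlR, ← Real.log_rpow hR0, Real.log_le_log_iff (by exact_mod_cast hn0)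
        (Real.rpow_pos_of_pos hR0 _)]
    by_cases hc : (nrm r : ℝ) ≤ Rx δ x ^ (1 - s)
    · rw [if_pos ⟨e1, e2.2 hc⟩, if_pos hc]
    · rw [if_neg (fun h => hc (e2.1 h.2)), if_neg hc, zero_div]
  rw [h2] at h1
  have h3 := (abs_le.1 h1).1
  nlinarith

end I_S3

theorem prs_3 (hB : C_BAS) (hSUMK : C_SUMK) (hV : V_SIM) : S_3 := by
  intro k s δ hs0 hs1 hδ0 hδ1 ε hε
  obtain ⟨D1, hD1⟩ := I_S3.Ev_lt (k + 1) (P := fun n D0 x => ∀ Φ : (Fin n → ℝ) → ℝ, BVk n 1 1 2 Φ →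
      |∑ r : Co (Sx D0 x) n, Φ (tv (Rx δ x) r) / mw aF r - lk D0 δ x ^ n * ∫ t, Φ t| ≤
        ε * lk D0 δ x ^ n)
    (fun n => hSUMK n 1 1 2 δ one_pos one_le_two zero_le_one hδ0 hδ1 ε hε)
  refine ⟨D1, fun D0 hD0 => ?_⟩
  obtain ⟨x0, hx0⟩ := hD1 D0 hD0
  refine ⟨max x0 2, fun x hx N => ?_⟩
  have hx1 : x0 ≤ x := le_trans (le_max_left _ _) hx
  have hx2 : 2 ≤ x := le_trans (le_max_right _ _) hx
  have hN : N.card < k + 1 := by
    have := card_le_univ N
    rw [Fintype.card_fin] at this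
    omega
  exact I_S3.step hB hV N.card s δ ε hs0 hs1 D0 x hδ1 (by linarith)
    (hx0 x hx1 N.card hN) N rfl

end MPb51559.DQ
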