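import Pool.Agent.Work.MP_b51559_nt.DQ.StmtsS
import Pool.Agent.Work.MP_b51559_nt.BG.C.INV

/-!
# Block DQ, sieve part, item S5: one more colour
-/

set_option autoImplicit false

namespace MPb51559.DQ

open Finset Filter Topology MeasureTheory
open scoped Classical
open MPb51559.BG MPb51559.BG.Q

namespace I_S5

theorem aF_ne {S : Finset ℕ} (hS : ∀ p ∈ S, 2 < p) : ∀ p ∈ S, aF p ≠ 0 ∧ aF p - 1 ≠ 0 := by
  intro p hp
  have h1 : (2 : ℝ) < p := by exact_mod_cast hS p hp
  unfold aF
  constructor
  · intro h
    linarith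
  · intro h
    linarith

theorem rst_rstN {S : Finset ℕ} {k : ℕ} (j : Fin k) (N : Finset (Fin k)) (l : Co S k → ℝ) :
    rst j (rstN N l) = rstN (insert j N) l := by
  funext d
  unfold rst rstN
  by_cases h1 : NoC j d
  · rw [if_pos h1]
    by_cases h2 : NoN N d
    · have h3 : NoN (insert j N) d := by
        intro i hi
        rcases Finset.mem_insert.1 hi with rfl | hi
        · exact h1
        · exact h2 i hi
      rw [if_pos h2, if_pos h3]
    · have h3 : ¬ NoN (insert j N) d := fun h => h2 fun i hi => h i (Finset.mem_insert_of_mem hi)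
      rw [if_neg h2, if_neg h3]
  · have h3 : ¬ NoN (insert j N) d := fun h => h1 (h j (Finset.mem_insert_self j N))
    rw [if_neg h1, if_neg h3]

theorem rstN_empty {S : Finset ℕ} {k : ℕ} (l : Co S k → ℝ) : rstN ∅ l = l := by
  funext d
  unfold rstN
  rw [if_pos]
  intro i hi
  exact absurd hi (Finset.notMem_empty i)

end I_S5

open I_S5 in
theorem prs_S5 : S_5 := by
  intro S k hS R F m N j
  have hI := prf_INV S k aF (aF_ne hS)
  constructor
  · unfold BN
    rw [(hI (rstN N (lam aF (ym R F m)))).2, rst_rstN]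
  · unfold BN
    rw [rstN_empty, (hI (ym R F m)).1]

end MPb51559.DQ
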