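import Pool.Agent.Work.MP_b51559_nt.DQ.StmtsS
import Pool.Agent.Work.MP_b51559_nt.BG.Q.I_Q6

/-!
# Block DQ, item S6: summing out one more colour
-/

set_option autoImplicit false

namespace MPb51559.DQ

open Finset Filter Topology MeasureTheory
open scoped Classical
open MPb51559.BG MPb51559.BG.Q

namespace I_S6

section
variable {S : Finset ℕ} {k : ℕ}

theorem noN_of_dl {N : Finset (Fin k)} {j : Fin k} (hj : j ∉ N) {u r : Co S k} (h : dl j u = r)
    (hr : NoN N r) : NoN N u :=
  fun i hi => I_Q6.noC_of_dl (fun e : i = j => hj (by rw [← e]; exact hi)) h (hr i hi)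

theorem noN_dl {N : Finset (Fin k)} {j : Fin k} {u r : Co S k} (h : dl j u = r)
    (hu : NoN N u) : NoN (insert j N) r := by
  intro i hi p hp
  rw [← h] at hp
  unfold dl at hp
  by_cases h1 : u p = some j
  · rw [if_pos h1] at hp
    exact absurd hp (by simp)
  · rw [if_neg h1] at hp
    rcases mem_insert.1 hi with h2 | h2
    · exact h1 (h2 ▸ hp)
    · exact hu i h2 p hp

theorem sz_dl (hBAS : C_BAS) (hS : ∀ p ∈ S, p.Prime) {R : ℝ} (hR : 1 < R) {j : Fin k}
    {u r : Co S k} (h : dl j u = r) : sz R r ≤ sz R u := by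
  have hle : Le r u := by
    intro p
    rw [← h]
    unfold dl
    by_cases h1 : u p = some j
    · rw [if_pos h1]
      exact Or.inl rfl
    · rw [if_neg h1]
      exact Or.inr rfl
  have hr := hBAS S k hS r
  have hu := hBAS S k hS u
  have h1 : nrm r ∣ nrm u := hr.2.2.2.2.2.2.2.2.2.1 u hle
  have h2 : nrm r ≤ nrm u := Nat.le_of_dvd hu.2.1 h1
  have h3 : (0 : ℝ) < nrm r := by exact_mod_cast hr.2.1
  have h4 : (nrm r : ℝ) ≤ nrm u := by exact_mod_cast h2
  unfold sz
  exact div_le_div_of_nonneg_right (Real.log_le_log h3 h4) (Real.log_pos hR).le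

end

end I_S6

open I_Q6 I_S6 in
theorem prs_S6 (hBAS : C_BAS) (hMSU : C_MSU) (hTOT : C_TOT) (hONE : C_ONE) (hD1 : C_D1)
    (h3 : Q3) (h5 : Q5) : S_6 := by
  intro k s δ hs0 hs1 hδ0 hδ1 ex C1 M V hC10 hM0
  have hC20 : 0 ≤ 2 * C1 + 1 := by linarith
  set C : ℝ := 32 * C1 + 24 * M + 2 * V + 1 with hC
  have hC0 : 0 ≤ C := by positivity
  refine ⟨C, hC0, fun ε hε => ?_⟩
  set e1 : ℝ := min ε 1 with he1
  have he1p : 0 < e1 := lt_min hε one_pos
  have he11 : e1 ≤ 1 := min_le_right _ _
  have hee : e1 ≤ ε := min_le_left _ _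
  refine ⟨e1, he1p, ?_⟩
  obtain ⟨Db, hQb⟩ := h5 (2 * C1 + 1) hC20 e1 he1p
  refine ⟨max Db 3, fun D0 hD0 => ?_⟩
  have hDb : Db ≤ D0 := (le_max_left _ _).trans hD0
  have hD3 : 3 ≤ D0 := (le_max_right _ _).trans hD0
  have hκ := U.kap_pos D0
  set η : ℝ := kap D0 * e1 / 8 with hη
  have hηp : 0 < η := by positivity
  obtain ⟨xb, hxb⟩ := hQb D0 hDb
  obtain ⟨x1, hx1⟩ := hTOT k D0 (by omega)
  obtain ⟨x2, hx2⟩ := hONE D0 (by omega) η hηp
  refine ⟨max (max xb (max x1 x2)) 4, fun x hx Nc j hjN G hG y hy => ?_⟩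
  have hxxb : xb ≤ x := (le_max_left _ _).trans ((le_max_left _ _).trans hx)
  have hxx1 : x1 ≤ x := (le_max_left _ _).trans ((le_max_right _ _).trans
    ((le_max_left _ _).trans hx))
  have hxx2 : x2 ≤ x := (le_max_right _ _).trans ((le_max_right _ _).trans
    ((le_max_left _ _).trans hx))
  have hx4 : (4 : ℝ) ≤ x := (le_max_right _ _).trans hx
  have hx1' : 1 < x := by linarith
  have hlog : 0 < Real.log x := Real.log_pos hx1'
  suffices key : ∀ S : Finset ℕ, S = Sx D0 x → ∀ y : Co S k → ℝ,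
      (∀ (r : Co S k), |y r| ≤ C1 * lk D0 δ x ^ ex ∧
        (y r ≠ 0 → NoN Nc r ∧ sz (Rx δ x) r ≤ 1) ∧
        (NoN Nc r → |y r - lk D0 δ x ^ ex * G (tv (Rx δ x) r)| ≤
          lk D0 δ x ^ ex * (C1 * (e1 + (mw (fun p => 1 + C1 / ((p : ℝ) - 2)) r - 1))))) →
      (∑ n ∈ SqF S (Real.sqrt x),
        ((∏ p ∈ n.primeFactors, (1 + (2 * C1 + 1) / ((p : ℝ) - 2))) - 1) / (n.totient : ℝ) ≤
          e1 * kl D0 x) →
      ∀ r : Co S k, |ytr aF (rst j (lam aF y)) r| ≤ C * lk D0 δ x ^ (ex + 1) ∧
        (ytr aF (rst j (lam aF y)) r ≠ 0 → NoN (insert j Nc) r ∧ sz (Rx δ x) r ≤ 1) ∧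
        (NoN (insert j Nc) r →
          |ytr aF (rst j (lam aF y)) r - lk D0 δ x ^ (ex + 1) * marg G j (tv (Rx δ x) r)| ≤
          lk D0 δ x ^ (ex + 1) * (C * (ε + (mw (fun p => 1 + C / ((p : ℝ) - 2)) r - 1)))) from
    fun r => key _ rfl y hy (hxb x hxxb) r
  clear hy y
  intro S hSdef y hym hq5 r
  set R := Rx δ x with hR
  set l := lk D0 δ x with hl
  have hlp : 0 < l := U.lk_pos D0 δ x hδ1 hx1'
  have hpow : l ^ (ex + 1) = l ^ ex * l := pow_succ l ex
  rw [hpow]
  set le : ℝ := l ^ ex with hle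
  have hlep : 0 < le := pow_pos hlp ex
  have hR1 : 1 < R := U.Rx_gt_one δ x hδ1 hx1'
  have hR0 : 0 < R := by linarith
  have hlR : 0 < Real.log R := Real.log_pos hR1
  have hleq : l = kap D0 * Real.log R := rfl
  have hS2 : ∀ p ∈ S, p.Prime ∧ 2 < p := fun p hp => ⟨(U.Sx_prime (hSdef ▸ hp)).1, by
    have := (U.Sx_prime (hSdef ▸ hp)).2.1; omega⟩
  have hSP : ∀ p ∈ S, p.Prime := fun p hp => (hS2 p hp).1
  have hSr : ∀ p ∈ S, (3 : ℝ) < p := fun p hp => by
    have := (U.Sx_prime (hSdef ▸ hp)).2.1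
    exact_mod_cast (show 3 < p by omega)
  set N : ℝ := R ^ (3 / 2 : ℝ) with hN
  have hN0 : 0 < N := Real.rpow_pos_of_pos hR0 _
  have hNle : N ≤ Real.sqrt x :=
    U.Rx_rpow_le δ x (3 / 2) hδ0.le hx1'.le (by norm_num) (by norm_num)
  have hkl : kl D0 x ≤ 8 * l := U.kl_le D0 δ x hδ1 hx1'
  have hHs : Hs S N ≤ 8 * l := (U.Hs_mono S hNle).trans ((hSdef ▸ (hx1 x hxx1).1 :
    Hs S (Real.sqrt x) ≤ kl D0 x).trans hkl)
  have hHs0 : 0 ≤ Hs S N := U.Hs_nonneg _ _
  -- the weights
  set c2 : ℕ → ℝ := fun p => 1 + (2 * C1 + 1) / ((p : ℝ) - 2) with hc2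
  have hc21 : ∀ p ∈ S, 1 ≤ c2 p := fun p hp => by
    have := hSr p hp
    have : 0 ≤ (2 * C1 + 1) / ((p : ℝ) - 2) := div_nonneg hC20 (by linarith)
    rw [hc2]
    linarith
  have hgp1 : ∀ n ∈ SqF S (Real.sqrt x), 1 ≤ gp c2 n := fun n hn => by
    unfold SqF at hn
    rw [mem_filter] at hn
    exact one_le_gp hc21 hn.2.2
  have hgp1' : ∀ n ∈ SqF S N, 1 ≤ gp c2 n := fun n hn => by
    unfold SqF at hn
    rw [mem_filter] at hn
    exact one_le_gp hc21 hn.2.2
  have hsub : SqF S N ⊆ SqF S (Real.sqrt x) := by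
    intro n hn
    unfold SqF at hn ⊢
    rw [mem_filter, mem_Icc] at hn ⊢
    exact ⟨⟨hn.1.1, hn.1.2.trans (Nat.floor_le_floor hNle)⟩, hn.2⟩
  set Us : Finset (Co S k) := univ.filter (fun u : Co S k => dl j u = r ∧ (nrm u : ℝ) ≤ N) with hUs
  have hUmem : ∀ u ∈ Us, dl j u = r ∧ (nrm u : ℝ) ≤ N := fun u hu => (mem_filter.1 hu).2
  set q : Co S k → ℝ := fun u => mw aF r / mw aF u with hq
  have hq0 : ∀ u, 0 ≤ q u := fun u => (div_pos (mwF_pos hS2 _) (mwF_pos hS2 _)).le
  have hm0 : ∑ u ∈ Us, q u ≤ 8 * l := by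
    have h := mass hBAS hS2 j r N (fun _ => 1) (fun _ _ => zero_le_one)
    simp only [mul_one] at h
    exact h.trans hHs
  have hm1 : ∑ u ∈ Us, q u * (gp c2 (prt j u) - 1) ≤ 8 * l * e1 := by
    have h := mass hBAS hS2 j r N (fun n => gp c2 n - 1)
      (fun n hn => by linarith [hgp1' n hn])
    refine h.trans ?_
    have h' : ∑ n ∈ SqF S N, (gp c2 n - 1) / (n.totient : ℝ) ≤
        ∑ n ∈ SqF S (Real.sqrt x), (gp c2 n - 1) / (n.totient : ℝ) :=
      sum_le_sum_of_subset_of_nonneg hsub fun n hn _ =>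
        div_nonneg (by linarith [hgp1 n hn]) (by positivity)
    refine h'.trans (hq5.trans ?_)
    calc e1 * kl D0 x ≤ e1 * (8 * l) := mul_le_mul_of_nonneg_left hkl he1p.le
      _ = 8 * l * e1 := by ring
  have hgpu : ∀ u : Co S k, 1 ≤ gp c2 (prt j u) := fun u => by
    have h := hBAS S k hSP u
    refine one_le_gp hc21 fun p hp hpd => ?_
    exact ((h.2.2.1 p hp).1 (hpd.trans (h.2.2.2.2.2.2.2.1 j).2)).1
  -- the factor G
  set Gf : Co S k → ℝ := fun u => gp (fun p => 1 + 1 / ((p : ℝ) - 2)) (prt j u) with hGf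
  have hG1 : ∀ u, 1 ≤ Gf u := fun u => by
    have h := hBAS S k hSP u
    refine one_le_gp (S := S) (fun p hp => ?_) fun p hp hpd => ?_
    · have := hSr p hp
      have : 0 ≤ 1 / ((p : ℝ) - 2) := div_nonneg zero_le_one (by linarith)
      linarith
    · exact ((h.2.2.1 p hp).1 (hpd.trans (h.2.2.2.2.2.2.2.1 j).2)).1
  have hGc : ∀ u, Gf u ≤ gp c2 (prt j u) := fun u => by
    have h := hBAS S k hSP u
    rw [hGf]
    unfold gp
    refine prod_le_prod (fun p hp => ?_) fun p hp => ?_
    · have hpS : p ∈ S := ((h.2.2.1 p (Nat.prime_of_mem_primeFactors hp)).1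
        ((Nat.dvd_of_mem_primeFactors hp).trans (h.2.2.2.2.2.2.2.1 j).2)).1
      have := hSr p hpS
      have : 0 ≤ 1 / ((p : ℝ) - 2) := div_nonneg zero_le_one (by linarith)
      linarith
    · have hpS : p ∈ S := ((h.2.2.1 p (Nat.prime_of_mem_primeFactors hp)).1
        ((Nat.dvd_of_mem_primeFactors hp).trans (h.2.2.2.2.2.2.2.1 j).2)).1
      have := hSr p hpS
      have : 1 / ((p : ℝ) - 2) ≤ (2 * C1 + 1) / ((p : ℝ) - 2) :=
        div_le_div_of_nonneg_right (by linarith) (by linarith)
      rw [hc2]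
      linarith
  -- the formula for BB
  set y' : Co S k → ℝ := ytr aF (rst j (lam aF y)) with hy'
  have hBB : NoC j r → y' r = ∑ u ∈ Us, q u * (y u * Gf u) := by
    intro hr
    have h := (h3 S k j (fun p hp => (hS2 p hp).2) y r).1 hr
    rw [hy', h, hUs, ← filter_filter, sum_filter (fun u : Co S k => (nrm u : ℝ) ≤ N)]
    refine sum_congr rfl fun u hu => ?_
    have hu1 := (mem_filter.1 hu).2
    have e := ratio hS2 j u
    rw [hu1] at e
    rw [e]
    split_ifs with h4
    · rw [hq, hGf]
      ring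
    · have : y u = 0 := by
        by_contra h0
        apply h4
        have h5 := ((hym u).2.1 h0).2
        unfold sz at h5
        rw [div_le_iff₀ hlR] at h5
        have h6 : (0 : ℝ) < nrm u := by exact_mod_cast (hBAS S k hSP u).2.1
        rw [hN, ← Real.log_le_log_iff h6 (Real.rpow_pos_of_pos hR0 _), Real.log_rpow hR0]
        linarith
      rw [this, zero_mul]
  refine ⟨?_, ?_, ?_⟩
  · -- the uniform bound
    by_cases hr : NoC j r
    · rw [hBB hr]
      have h1 : |∑ u ∈ Us, q u * (y u * Gf u)| ≤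
          ∑ u ∈ Us, C1 * le * (q u + q u * (gp c2 (prt j u) - 1)) := by
        refine (abs_sum_le_sum_abs _ _).trans (sum_le_sum fun u _ => ?_)
        rw [abs_mul, abs_mul, abs_of_nonneg (hq0 u), abs_of_nonneg (by linarith [hG1 u] : 0 ≤ Gf u)]
        have h2 : |y u| * Gf u ≤ C1 * le * gp c2 (prt j u) :=
          mul_le_mul (hym u).1 (hGc u) (by linarith [hG1 u]) (by positivity)
        calc q u * (|y u| * Gf u) ≤ q u * (C1 * le * gp c2 (prt j u)) :=
              mul_le_mul_of_nonneg_left h2 (hq0 u)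
          _ = C1 * le * (q u + q u * (gp c2 (prt j u) - 1)) := by ring
      refine h1.trans ?_
      rw [← mul_sum, sum_add_distrib]
      have h2 : ∑ u ∈ Us, q u + ∑ u ∈ Us, q u * (gp c2 (prt j u) - 1) ≤ 16 * l := by
        have : 8 * l * e1 ≤ 8 * l := by nlinarith
        linarith
      calc C1 * le * (∑ u ∈ Us, q u + ∑ u ∈ Us, q u * (gp c2 (prt j u) - 1)) ≤
            C1 * le * (16 * l) := mul_le_mul_of_nonneg_left h2 (by positivity)
        _ = 16 * C1 * (le * l) := by ring
        _ ≤ C * (le * l) := by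
            refine mul_le_mul_of_nonneg_right ?_ (by positivity)
            rw [hC]
            have : (0 : ℝ) ≤ V := V.2
            linarith
    · have h4 : y' r = 0 := by
        by_contra h0
        exact hr ((h3 S k j (fun p hp => (hS2 p hp).2) y r).2 h0)
      rw [h4, abs_zero]
      positivity
  · -- the support
    intro h0
    have hjr := (h3 S k j (fun p hp => (hS2 p hp).2) y r).2 h0
    have h := (h3 S k j (fun p hp => (hS2 p hp).2) y r).1 hjr
    have h1 : ∑ u ∈ univ.filter (fun u : Co S k => dl j u = r),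
      y u * (mw (fun p => aF p - 1) r / mw (fun p => aF p - 1) u) ≠ 0 := by
      rw [← h]
      exact h0
    obtain ⟨u, hu, hu0⟩ := exists_ne_zero_of_sum_ne_zero h1
    have hu1 := (mem_filter.1 hu).2
    obtain ⟨h4, h6⟩ := (hym u).2.1 (left_ne_zero_of_mul hu0)
    exact ⟨noN_dl hu1 h4, (sz_dl hBAS hSP hR1 hu1).trans h6⟩
  · intro hNr
    have hjr : NoC j r := hNr j (mem_insert_self _ _)
    have hmr : NoN Nc r := fun i hi => hNr i (mem_insert_of_mem hi)
    have hGb := hG.bdd
    have hGs := hG.supp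
    have hGv := hG.bv
    set Pr : ℝ := mw c2 r with hPr
    have hPr1 : 1 ≤ Pr := U.one_le_mw r hc21
    -- the function of one variable
    set g : ℝ → ℝ := fun t => G (Function.update (tv R r) j t) with hg
    set f : ℕ → ℝ := fun n => g (Real.log (n : ℝ) / Real.log R) with hf
    have hgM : ∀ t, |g t| ≤ M := fun t => hGb _
    have hgsupp : ∀ t, g t ≠ 0 → 0 ≤ t ∧ t ≤ s := by
      intro t ht
      obtain ⟨h1, h2⟩ := hGs _ ht
      have hj : j ∈ univ \ Nc := mem_sdiff.2 ⟨mem_univ _, hjN⟩
      have h4 := h1 j hjN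
      rw [Function.update_self] at h4
      refine ⟨h4, ?_⟩
      have h5 : Function.update (tv R r) j t j ≤
          ∑ i ∈ univ \ Nc, Function.update (tv R r) j t i :=
        single_le_sum (f := fun i => Function.update (tv R r) j t i)
          (fun i hi => h1 i (mem_sdiff.1 hi).2) hj
      rw [Function.update_self] at h5
      exact h5.trans h2
    have hsN : R ^ s ≤ N := Real.rpow_le_rpow_of_exponent_le hR1.le (by linarith)
    have hfN : ∀ n : ℕ, f n ≠ 0 → (n : ℝ) ≤ N := by
      intro n hn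
      rcases Nat.eq_zero_or_pos n with rfl | hn0
      · simp only [Nat.cast_zero]
        exact hN0.le
      have h := (hgsupp _ hn).2
      rw [div_le_iff₀ hlR] at h
      have h4 : (0 : ℝ) < n := by exact_mod_cast hn0
      refine le_trans ?_ hsN
      rw [← Real.log_le_log_iff h4 (Real.rpow_pos_of_pos hR0 _), Real.log_rpow hR0]
      exact h
    have hms := hMSU S k hS2 j f M N r hjr hM0 (fun n => hgM _) hfN
    have hfu : ∀ u : Co S k, dl j u = r → f (prt j u) = G (tv R u) := fun u hu => by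
      rw [hf, hg]
      simp only
      rw [hms.2 R u hu]
    -- large u
    have hlarge : ∀ u : Co S k, dl j u = r → ¬ ((nrm u : ℝ) ≤ N) → G (tv R u) = 0 := by
      intro u hu hn
      by_contra h0
      apply hn
      obtain ⟨h1, h2⟩ := hGs _ h0
      have hum : NoN Nc u := noN_of_dl hjN hu hmr
      have h4 : ∀ i ∈ Nc, tv R u i = 0 := by
        intro i hi
        have : prt i u = 1 := by
          unfold prt
          refine prod_eq_one fun p _ => ?_
          rw [if_neg (hum i hi p)]
        unfold tv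
        rw [this]
        simp
      have h5 : sz R u ≤ s := by
        rw [(hBAS S k hSP u).2.2.2.2.2.2.2.2.1 R, ← Finset.sum_sdiff (subset_univ Nc),
          sum_eq_zero h4, add_zero]
        exact h2
      unfold sz at h5
      rw [div_le_iff₀ hlR] at h5
      have h6 : (0 : ℝ) < nrm u := by exact_mod_cast (hBAS S k hSP u).2.1
      refine le_trans ?_ hsN
      rw [← Real.log_le_log_iff h6 (Real.rpow_pos_of_pos hR0 _), Real.log_rpow hR0]
      exact h5
    -- first error
    have hE1 : |∑ u ∈ Us, q u * (y u * Gf u) - le * ∑ u ∈ Us, q u * G (tv R u)| ≤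
        8 * (le * l) * (C1 * e1 + (2 * C1 + M) * (2 * (Pr - 1) + e1)) := by
      have h1 : ∑ u ∈ Us, q u * (y u * Gf u) - le * ∑ u ∈ Us, q u * G (tv R u) =
          ∑ u ∈ Us, q u * (y u * Gf u - le * G (tv R u)) := by
        rw [mul_sum, ← sum_sub_distrib]
        exact sum_congr rfl fun u _ => by ring
      rw [h1]
      have h2 : |∑ u ∈ Us, q u * (y u * Gf u - le * G (tv R u))| ≤
          ∑ u ∈ Us, q u * (le * (C1 * e1 + (2 * C1 + M) * (mw c2 u - 1))) := by
        refine (abs_sum_le_sum_abs _ _).trans (sum_le_sum fun u hu => ?_)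
        rw [abs_mul, abs_of_nonneg (hq0 u)]
        refine mul_le_mul_of_nonneg_left ?_ (hq0 u)
        have hu1 := (hUmem u hu).1
        have hum : NoN Nc u := noN_of_dl hjN hu1 hmr
        refine term hlep.le hC10 hM0 he11 (hGb _)
          (W := mw (fun p => 1 + C1 / ((p : ℝ) - 2)) u - 1) ?_ (hG1 u) ?_ ((hym u).2.2 hum)
        · have : 1 ≤ mw (fun p => 1 + C1 / ((p : ℝ) - 2)) u := U.one_le_mw u fun p hp => by
            have := hSr p hp
            have : 0 ≤ C1 / ((p : ℝ) - 2) := div_nonneg hC10 (by linarith)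
            linarith
          linarith
        · have h4 : Gf u ≤ mw (fun p => 1 + 1 / ((p : ℝ) - 2)) u := by
            rw [mw_split hSP _ j u]
            refine le_mul_of_one_le_left (by linarith [hG1 u]) ?_
            exact U.one_le_mw _ fun p hp => by
              have := hSr p hp
              have : 0 ≤ 1 / ((p : ℝ) - 2) := div_nonneg zero_le_one (by linarith)
              linarith
          have h5 : (1 + (mw (fun p => 1 + C1 / ((p : ℝ) - 2)) u - 1)) =
              mw (fun p => 1 + C1 / ((p : ℝ) - 2)) u := by ring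
          rw [h5]
          have h6 : 0 ≤ mw (fun p => 1 + C1 / ((p : ℝ) - 2)) u := U.mw_nonneg u fun p hp => by
            have := hSr p hp
            have : 0 ≤ C1 / ((p : ℝ) - 2) := div_nonneg hC10 (by linarith)
            linarith
          refine (mul_le_mul_of_nonneg_left h4 h6).trans ?_
          rw [← U.mw_mul]
          refine U.mw_le_mw u (fun p hp => ?_) fun p hp => ?_
          · have := hSr p hp
            have : 0 ≤ C1 / ((p : ℝ) - 2) := div_nonneg hC10 (by linarith)
            have : 0 ≤ 1 / ((p : ℝ) - 2) := div_nonneg zero_le_one (by linarith)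
            positivity
          · have h7 := hSr p hp
            have h8 : (0 : ℝ) < (p : ℝ) - 2 := by linarith
            set z : ℝ := 1 / ((p : ℝ) - 2) with hz
            have hz0 : 0 ≤ z := by positivity
            have hz1 : z ≤ 1 := by
              rw [hz, div_le_one h8]
              linarith
            have e1' : C1 / ((p : ℝ) - 2) = C1 * z := by rw [hz]; ring
            have e2' : (2 * C1 + 1) / ((p : ℝ) - 2) = (2 * C1 + 1) * z := by rw [hz]; ring
            rw [hc2]
            simp only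
            rw [e1', e2']
            nlinarith [mul_nonneg (mul_nonneg hC10 hz0) (by linarith : 0 ≤ 1 - z)]
      refine h2.trans ?_
      have h4 : ∀ u ∈ Us, q u * (le * (C1 * e1 + (2 * C1 + M) * (mw c2 u - 1))) =
          le * (C1 * e1 + (2 * C1 + M) * (Pr - 1)) * q u +
            le * (2 * C1 + M) * Pr * (q u * (gp c2 (prt j u) - 1)) := fun u hu => by
        have h5 : mw c2 u = Pr * gp c2 (prt j u) := by
          rw [mw_split hSP c2 j u, (hUmem u hu).1]
        rw [h5]
        ring
      rw [sum_congr rfl h4, sum_add_distrib, ← mul_sum, ← mul_sum]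
      have h5 : 0 ≤ le * (C1 * e1 + (2 * C1 + M) * (Pr - 1)) := by
        have : 0 ≤ Pr - 1 := by linarith
        positivity
      have h6 : 0 ≤ le * (2 * C1 + M) * Pr := by positivity
      have h7 := mul_le_mul_of_nonneg_left hm0 h5
      have h8 := mul_le_mul_of_nonneg_left hm1 h6
      have h9 : Pr * e1 ≤ e1 + (Pr - 1) := by nlinarith
      have h10 : le * (2 * C1 + M) * Pr * (8 * l * e1) ≤
          8 * (le * l) * ((2 * C1 + M) * (e1 + (Pr - 1))) := by
        have : le * (2 * C1 + M) * Pr * (8 * l * e1) = 8 * (le * l) * ((2 * C1 + M) * (Pr * e1)) := by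
          ring
        rw [this]
        exact mul_le_mul_of_nonneg_left (mul_le_mul_of_nonneg_left h9 (by positivity))
          (by positivity)
      calc _ ≤ le * (C1 * e1 + (2 * C1 + M) * (Pr - 1)) * (8 * l) +
            8 * (le * l) * ((2 * C1 + M) * (e1 + (Pr - 1))) := add_le_add h7 (h8.trans h10)
        _ = 8 * (le * l) * (C1 * e1 + (2 * C1 + M) * (2 * (Pr - 1) + e1)) := by ring
    -- second error
    have hfull : ∑ u ∈ univ.filter (fun u : Co S k => dl j u = r),
        f (prt j u) * (mw aF r / mw aF u) = ∑ u ∈ Us, q u * G (tv R u) := by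
      rw [hUs, ← filter_filter, sum_filter (fun u : Co S k => (nrm u : ℝ) ≤ N)]
      refine sum_congr rfl fun u hu => ?_
      have hu1 := (mem_filter.1 hu).2
      rw [hfu u hu1]
      split_ifs with h4
      · exact mul_comm _ _
      · rw [hlarge u hu1 h4, zero_mul]
    have hCr : mw (fun p => 1 + 1 / ((p : ℝ) - 1)) r ≤ Pr := by
      refine U.mw_le_mw r (fun p hp => ?_) fun p hp => ?_
      · have := hSr p hp
        have : 0 ≤ 1 / ((p : ℝ) - 1) := div_nonneg zero_le_one (by linarith)
        linarith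
      · have := hSr p hp
        have h5 : 1 / ((p : ℝ) - 1) ≤ (2 * C1 + 1) / ((p : ℝ) - 2) :=
          div_le_div₀ hC20 (by linarith) (by linarith) (by linarith)
        rw [hc2]
        linarith
    have hE2 : |∑ u ∈ Us, q u * G (tv R u) - ∑ n ∈ SqF S N, f n / (n.totient : ℝ)| ≤
        8 * l * (M * (Pr - 1)) := by
      rw [← hfull]
      refine hms.1.trans ?_
      have h4 : M * Hs S N ≤ 8 * l * M := by nlinarith
      calc M * Hs S N * (mw (fun p => 1 + 1 / ((p : ℝ) - 1)) r - 1) ≤
            M * Hs S N * (Pr - 1) :=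
            mul_le_mul_of_nonneg_left (by linarith) (mul_nonneg hM0 hHs0)
        _ ≤ 8 * l * M * (Pr - 1) := mul_le_mul_of_nonneg_right h4 (by linarith)
        _ = 8 * l * (M * (Pr - 1)) := by ring
    -- one dimensional comparison
    set Δ : ℝ := η * Real.log x / l with hΔ
    have hΔ0 : 0 ≤ Δ := by positivity
    have hΔe : Δ ≤ e1 := by
      rw [hΔ, div_le_iff₀ hlp]
      have h4 : kap D0 * Real.log x ≤ 8 * l := hkl
      calc η * Real.log x = (kap D0 * Real.log x) * (e1 / 8) := by rw [hη]; ring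
        _ ≤ (8 * l) * (e1 / 8) := mul_le_mul_of_nonneg_right h4 (by positivity)
        _ = e1 * l := by ring
    have hmem : ∀ a ∈ SqF S N, 1 ≤ a ∧ (a : ℝ) ≤ N := by
      intro a ha
      unfold SqF at ha
      rw [mem_filter, mem_Icc] at ha
      exact ⟨ha.1.1, (Nat.le_floor_iff hN0.le).1 ha.1.2⟩
    have h4 := hD1 ℕ (SqF S N) (fun n => 1 / ((n.totient : ℝ) * l))
      (fun n => Real.log (n : ℝ) / Real.log R) (3 / 2) Δ M V g (by norm_num) hΔ0 (by
        intro a ha
        obtain ⟨ha1, ha2⟩ := hmem a ha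
        have ha0 : (0 : ℝ) < a := by exact_mod_cast ha1
        refine ⟨by positivity, ?_, ?_⟩
        · exact div_nonneg (Real.log_nonneg (by exact_mod_cast ha1)) hlR.le
        · rw [div_le_iff₀ hlR]
          calc Real.log (a : ℝ) ≤ Real.log N := Real.log_le_log ha0 ha2
            _ = 3 / 2 * Real.log R := by rw [hN, Real.log_rpow hR0]) (by
        intro t ht0 htT
        have hRs : 0 < R ^ t := Real.rpow_pos_of_pos hR0 _
        have e : (SqF S N).filter (fun a : ℕ => Real.log (a : ℝ) / Real.log R ≤ t) =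
            SqF S (R ^ t) := by
          ext a
          constructor
          · intro ha
            rw [mem_filter] at ha
            obtain ⟨ha, hs⟩ := ha
            obtain ⟨ha1, ha2⟩ := hmem a ha
            have ha0 : (0 : ℝ) < a := by exact_mod_cast ha1
            unfold SqF at ha ⊢
            rw [mem_filter, mem_Icc] at ha ⊢
            refine ⟨⟨ha.1.1, Nat.le_floor ?_⟩, ha.2⟩
            rw [div_le_iff₀ hlR] at hs
            rw [← Real.log_le_log_iff ha0 hRs, Real.log_rpow hR0]
            exact hs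
          · intro ha
            unfold SqF at ha
            rw [mem_filter, mem_Icc] at ha
            have ha1 := ha.1.1
            have ha0 : (0 : ℝ) < a := by exact_mod_cast ha1
            have ha2 : (a : ℝ) ≤ R ^ t := (Nat.le_floor_iff hRs.le).1 ha.1.2
            rw [mem_filter]
            refine ⟨?_, ?_⟩
            · unfold SqF
              rw [mem_filter, mem_Icc]
              refine ⟨⟨ha1, Nat.le_floor (ha2.trans ?_)⟩, ha.2⟩
              exact Real.rpow_le_rpow_of_exponent_le hR1.le htT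
            · rw [div_le_iff₀ hlR, ← Real.log_rpow hR0]
              exact Real.log_le_log ha0 ha2
        rw [e]
        have e2 : ∑ a ∈ SqF S (R ^ t), 1 / ((a.totient : ℝ) * l) = Hs S (R ^ t) / l := by
          unfold Hs
          rw [sum_div]
          refine sum_congr rfl fun a _ => ?_
          rw [one_div, mul_inv, one_div, div_eq_mul_inv]
        rw [e2]
        have hz1 : 1 ≤ R ^ t := Real.one_le_rpow hR1.le ht0
        have hz2 : R ^ t ≤ Real.sqrt x := U.Rx_rpow_le δ x t hδ0.le hx1'.le ht0 (by linarith)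
        have h5 := hx2 x hxx2 (R ^ t) hz1 hz2
        rw [← hSdef] at h5
        rw [Real.log_rpow hR0] at h5
        have e3 : Hs S (R ^ t) / l - t = (Hs S (R ^ t) - kap D0 * (t * Real.log R)) / l := by
          rw [sub_div]
          congr 1
          rw [hleq]
          field_simp
        rw [e3, abs_div, abs_of_pos hlp, hΔ]
        exact div_le_div_of_nonneg_right h5 hlp.le) hgM (hGv (tv R r) j)
    have hint : ∫ t in (0)..(3 / 2), g t = marg G j (tv R r) := by
      have e : marg G j (tv R r) = ∫ t, g t := rfl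
      rw [e, intervalIntegral.integral_of_le (by norm_num)]
      have : ∫ t, g t = ∫ t in Set.Icc (0 : ℝ) (3 / 2), g t := by
        rw [setIntegral_eq_integral_of_forall_compl_eq_zero]
        intro t ht
        by_contra h0
        obtain ⟨h5, h6⟩ := hgsupp t h0
        exact ht ⟨h5, by linarith⟩
      rw [this, integral_Icc_eq_integral_Ioc]
    rw [hint] at h4
    have hsum : ∑ a ∈ SqF S N, 1 / ((a.totient : ℝ) * l) * g (Real.log (a : ℝ) / Real.log R) =
        (∑ n ∈ SqF S N, f n / (n.totient : ℝ)) / l := by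
      rw [sum_div]
      refine sum_congr rfl fun a _ => ?_
      rw [hf]
      rw [one_div, mul_inv]
      ring
    rw [hsum] at h4
    have hE3 : |(∑ n ∈ SqF S N, f n / (n.totient : ℝ)) - l * marg G j (tv R r)| ≤
        l * (2 * (M + V) * e1) := by
      have e : (∑ n ∈ SqF S N, f n / (n.totient : ℝ)) - l * marg G j (tv R r) =
          l * ((∑ n ∈ SqF S N, f n / (n.totient : ℝ)) / l - marg G j (tv R r)) := by
        field_simp
      rw [e, abs_mul, abs_of_pos hlp]
      refine mul_le_mul_of_nonneg_left (h4.trans ?_) hlp.le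
      exact mul_le_mul_of_nonneg_left hΔe (by positivity)
    -- conclusion
    set A0 : ℝ := ∑ u ∈ Us, q u * (y u * Gf u) with hA0
    set A1 : ℝ := ∑ u ∈ Us, q u * G (tv R u) with hA1
    set A2 : ℝ := ∑ n ∈ SqF S N, f n / (n.totient : ℝ) with hA2
    have hfin : |y' r - le * l * marg G j (tv R r)| ≤
        le * l * ((24 * C1 + 10 * M + 2 * V) * e1 + (32 * C1 + 24 * M) * (Pr - 1)) := by
      rw [hBB hjr]
      have e : A0 - le * l * marg G j (tv R r) = (A0 - le * A1) + le * (A1 - A2) +
          le * (A2 - l * marg G j (tv R r)) := by ring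
      rw [e]
      have h5 : |le * (A1 - A2)| ≤ le * (8 * l * (M * (Pr - 1))) := by
        rw [abs_mul, abs_of_pos hlep]
        exact mul_le_mul_of_nonneg_left hE2 hlep.le
      have h6 : |le * (A2 - l * marg G j (tv R r))| ≤ le * (l * (2 * (M + V) * e1)) := by
        rw [abs_mul, abs_of_pos hlep]
        exact mul_le_mul_of_nonneg_left hE3 hlep.le
      refine ((abs_add_le _ _).trans (add_le_add (abs_add_le _ _) le_rfl)).trans ?_
      refine (add_le_add (add_le_add hE1 h5) h6).trans (le_of_eq ?_)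
      ring
    refine hfin.trans (mul_le_mul_of_nonneg_left ?_ (by positivity))
    have hVn : (0 : ℝ) ≤ V := V.2
    have h10 : (24 * C1 + 10 * M + 2 * (V : ℝ)) * e1 ≤ C * ε :=
      mul_le_mul (by rw [hC]; linarith) hee he1p.le hC0
    have hPC : Pr ≤ mw (fun p => 1 + C / ((p : ℝ) - 2)) r := by
      refine U.mw_le_mw r (fun p hp => by linarith [hc21 p hp]) fun p hp => ?_
      have := hSr p hp
      have h5 : (2 * C1 + 1) / ((p : ℝ) - 2) ≤ C / ((p : ℝ) - 2) :=
        div_le_div_of_nonneg_right (by rw [hC]; linarith) (by linarith)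
      rw [hc2]
      linarith
    have h12 : (32 * C1 + 24 * M) * (Pr - 1) ≤
        C * (mw (fun p => 1 + C / ((p : ℝ) - 2)) r - 1) :=
      mul_le_mul (by rw [hC]; linarith) (by linarith) (by linarith) hC0
    have : C * (ε + (mw (fun p => 1 + C / ((p : ℝ) - 2)) r - 1)) =
        C * ε + C * (mw (fun p => 1 + C / ((p : ℝ) - 2)) r - 1) := by ring
    linarith

end MPb51559.DQ
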