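import Pool.Agent.Work.MP_b51559_nt.DQ.StmtsS
import Pool.Agent.Work.MP_b51559_nt.BG.C.All

set_option autoImplicit false

/-! # Block DQ, item S7: the diagonal variables with the colours `m` and `L` removed -/

namespace MPb51559.DQ

open Finset Filter Topology MeasureTheory
open scoped Classical
open MPb51559.BG MPb51559.BG.Q

namespace I_S7

theorem tst_mono {k : ℕ} {s T : ℝ} {F : (Fin k → ℝ) → ℝ} (h : Tst k s F) (hT : s ≤ T) :
    Tst k T F where
  meas := h.meas
  supp := fun t ht => ⟨(h.supp t ht).1, (h.supp t ht).2.trans hT⟩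
  bdd := h.bdd
  bv := h.bv

theorem one_lt_Rx {δ x : ℝ} (hδ : δ < 1 / 8) (hx : 1 < x) : 1 < Rx δ x := by
  unfold Rx
  exact Real.one_lt_rpow hx (by linarith)

theorem Sx_prime {D0 : ℕ} {x : ℝ} (hD : 3 ≤ D0) : ∀ p ∈ Sx D0 x, p.Prime ∧ 2 < p := by
  intro p hp
  unfold Sx at hp
  rw [mem_filter] at hp
  exact ⟨hp.2.1, by omega⟩

end I_S7

theorem prs_S7 (h5 : S_5) (h6 : S_6) (h8 : S_8) (hA : A_NICE) : S_7 := by
  intro k s F hs0 hs1 hF δ hδ0 hδ1 n
  induction n with
  | zero =>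
    obtain ⟨C, hC0, hC⟩ := all_YM k (3 / 2) F (by norm_num) (by norm_num)
      (I_S7.tst_mono hF (by linarith)) δ hδ0 hδ1
    refine ⟨C, hC0, fun ε hε => ?_⟩
    refine S2A_Ev_mono ?_ (S2A_Ev_and (hC ε hε) S2A_Ev_base)
    rintro D0 x ⟨hx, hD, hx1⟩ m L hL hl r
    have hL0 : L = [] := List.length_eq_zero_iff.mp hl
    subst hL0
    have hS := I_S7.Sx_prime (x := x) hD
    have hB : BN (S := Sx D0 x) (Rx δ x) F m ([] : List (Fin k)).toFinset =
        ym (S := Sx D0 x) (Rx δ x) F m :=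
      (h5 (Sx D0 x) k (fun p hp => (hS p hp).2) (Rx δ x) F m ∅ m).2
    have h8' := (h8 (Sx D0 x) k s (Rx δ x) F hS hs0 hs1 (I_S7.one_lt_Rx hδ1 hx1) hF m ∅
      (by simp)).1 r
    have hB' : BN (S := Sx D0 x) (Rx δ x) F m ∅ = ym (S := Sx D0 x) (Rx δ x) F m := hB
    rw [hB'] at h8'
    rw [hB]
    obtain ⟨a1, a2, a3⟩ := hx m r
    refine ⟨by simpa using a1, fun hr => ?_, fun hr => ?_⟩
    · obtain ⟨b1, b2, b3, b4⟩ := h8' hr
      refine ⟨fun j hj => ?_, by linarith⟩
      have hj' : j = m := by simpa using hj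
      rw [hj']
      exact b1
    · have := a3 (hr m (by simp))
      simpa [mgL] using this
  | succ n ih =>
    obtain ⟨C1, hC1, hIH⟩ := ih
    obtain ⟨M, V, hM, hN⟩ := hA k s F hs0 hF
    obtain ⟨C, hC, hS6⟩ := h6 k s δ hs0 hs1 hδ0 hδ1 (n + 1) C1 M V hC1 hM
    refine ⟨C, hC, fun ε hε => ?_⟩
    obtain ⟨ε1, hε1, hEv⟩ := hS6 ε hε
    refine S2A_Ev_mono ?_ (S2A_Ev_and (S2A_Ev_and hEv (hIH ε1 hε1)) S2A_Ev_base)
    rintro D0 x ⟨⟨hx, hy⟩, hD, hx1⟩ m L hL hl
    obtain ⟨j, L', rfl⟩ : ∃ j L', L = j :: L' := by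
      cases L with
      | nil => simp at hl
      | cons j L' => exact ⟨j, L', rfl⟩
    have hS := I_S7.Sx_prime (x := x) hD
    have hl' : L'.length = n := by simpa using hl
    rw [List.nodup_cons, List.nodup_cons] at hL
    obtain ⟨hm, hj, hn⟩ := hL
    rw [List.mem_cons, not_or] at hm
    have hmL : (m :: L').Nodup := List.nodup_cons.mpr ⟨hm.2, hn⟩
    have hLm : (L' ++ [m]).Nodup := by
      rw [List.nodup_append_comm]
      simpa using hmL
    have hset : (L' ++ [m]).toFinset = insert m L'.toFinset := by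
      ext i
      simp
    have hNice : Nice k s M V (insert m L'.toFinset) (mgL F (L' ++ [m])) := by
      rw [← hset]
      exact hN (L' ++ [m]) hLm
    have hjN : j ∉ insert m L'.toFinset := by
      rw [Finset.mem_insert, List.mem_toFinset, not_or]
      exact ⟨fun h => hm.1 h.symm, hj⟩
    have hfin := hx (insert m L'.toFinset) j hjN (mgL F (L' ++ [m])) hNice
      (BN (Rx δ x) F m L'.toFinset) (hy m L' hmL hl')
    have hB := (h5 (Sx D0 x) k (fun p hp => (hS p hp).2) (Rx δ x) F m L'.toFinset j).1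
    rw [← hB] at hfin
    have e1 : insert m (j :: L').toFinset = insert j (insert m L'.toFinset) := by
      rw [List.toFinset_cons, Finset.insert_comm]
    rw [e1, List.toFinset_cons]
    exact hfin

end MPb51559.DQ
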