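import Pool.Agent.Work.MP_b51559_nt.DQ.StmtsS

/-!
# Block DQ, item S8: supports
-/

set_option autoImplicit false

namespace MPb51559.DQ

open Finset Filter Topology MeasureTheory
open scoped Classical
open MPb51559.BG MPb51559.BG.Q

namespace I_S8

variable {S : Finset ℕ} {k : ℕ}

theorem sz_le {R c : ℝ} (hR : 1 < R) {r : Co S k} (h0 : 0 < nrm r) (h : (nrm r : ℝ) ≤ R ^ c) :
    sz R r ≤ c := by
  unfold sz
  have hl : 0 < Real.log R := Real.log_pos hR
  rw [div_le_iff₀ hl, ← Real.log_rpow (by linarith)]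
  exact Real.log_le_log (by exact_mod_cast h0) h

theorem le_of_sz {R c : ℝ} (hR : 1 < R) {r : Co S k} (h0 : 0 < nrm r) (h : sz R r ≤ c) :
    (nrm r : ℝ) ≤ R ^ c := by
  unfold sz at h
  have hl : 0 < Real.log R := Real.log_pos hR
  rw [div_le_iff₀ hl, ← Real.log_rpow (by linarith)] at h
  exact (Real.log_le_log_iff (by exact_mod_cast h0) (by positivity)).1 h

theorem rst_ne {m : Fin k} {l : Co S k → ℝ} {d : Co S k} (h : rst m l d ≠ 0) :
    NoC m d ∧ l d ≠ 0 := by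
  unfold rst at h
  split_ifs at h with h1
  · exact ⟨h1, h⟩
  · exact absurd rfl h

theorem rstN_ne {N : Finset (Fin k)} {l : Co S k → ℝ} {d : Co S k} (h : rstN N l d ≠ 0) :
    NoN N d ∧ l d ≠ 0 := by
  unfold rstN at h
  split_ifs at h with h1
  · exact ⟨h1, h⟩
  · exact absurd rfl h

end I_S8

open I_S8 in
theorem prs_S8 (hBas : C_BAS) (hSup : C_SUP) (h9 : S_9) : S_8 := by
  intro S k s R F hS hs0 hs1 hR hF m N hmN
  have hS1 : ∀ p ∈ S, 1 ≤ p := fun p hp => (hS p hp).1.one_le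
  have hpos : ∀ r : Co S k, 0 < nrm r := fun r => (hBas S k (fun p hp => (hS p hp).1) r).2.1
  -- the function
  have a0 : ∀ r : Co S k, yF R F r ≠ 0 → (nrm r : ℝ) ≤ R ^ s := by
    intro r hr
    have h1 := (hF.supp _ hr).2
    apply le_of_sz hR (hpos r)
    rw [(hBas S k (fun p hp => (hS p hp).1) r).2.2.2.2.2.2.2.2.1 R]
    exact h1
  have a1 := ((hSup S k aP hS1 (yF R F)).1 (R ^ s) a0).1
  have b1 : ∀ r : Co S k, ym R F m r ≠ 0 → NoC m r ∧ (nrm r : ℝ) ≤ R ^ s := by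
    intro r hr
    refine ⟨((hSup S k aF hS1 (rst m (lam aP (yF R F)))).2 m fun d hd => (rst_ne hd).1).2 r hr,
      ((hSup S k aF hS1 (rst m (lam aP (yF R F)))).1 (R ^ s) fun d hd => a1 d (rst_ne hd).2).2
        r hr⟩
  have a2 := ((hSup S k aF hS1 (ym R F m)).1 (R ^ s) fun r hr => (b1 r hr).2).1
  have a3 := ((hSup S k aF hS1 (ym R F m)).2 m fun r hr => (b1 r hr).1).1
  have b2 : ∀ r : Co S k, BN R F m N r ≠ 0 → NoC m r ∧ NoN N r ∧ (nrm r : ℝ) ≤ R ^ s := by
    intro r hr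
    refine ⟨((hSup S k aF hS1 (rstN N (lam aF (ym R F m)))).2 m
        fun d hd => a3 d (rstN_ne hd).2).2 r hr,
      fun j hj => ((hSup S k aF hS1 (rstN N (lam aF (ym R F m)))).2 j
        fun d hd => (rstN_ne hd).1 j hj).2 r hr,
      ((hSup S k aF hS1 (rstN N (lam aF (ym R F m)))).1 (R ^ s)
        fun d hd => a2 d (rstN_ne hd).2).2 r hr⟩
  refine ⟨fun r hr => ⟨(b2 r hr).1, (b2 r hr).2.1, (b2 r hr).2.2, sz_le hR (hpos r) (b2 r hr).2.2⟩,
    fun u hu => ?_⟩
  have hS9 := h9 S k (fun p hp => (hS p hp).1) N u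
  unfold yN yxN at hu
  split_ifs at hu with h1
  · have hB : BN R F m N (dlN N u) ≠ 0 := by
      intro h0
      apply hu
      have h2 : ytr aF (rstN N (lam aF (ym R F m))) (dlN N u) = 0 := h0
      rw [h2, zero_div]
    obtain ⟨c1, -, c3⟩ := b2 _ hB
    have hn : (nrm u : ℝ) ≤ R := by
      rw [hS9.2.1]
      push_cast
      calc (nrm (dlN N u) : ℝ) * (prN N u : ℝ) ≤ R ^ s * R ^ (1 - s) :=
            mul_le_mul c3 h1 (by positivity) (by positivity)
        _ = R ^ (1 : ℝ) := by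
            rw [← Real.rpow_add (by linarith)]
            congr 1
            ring
        _ = R := Real.rpow_one R
    exact ⟨(hS9.2.2.2.2.1 m hmN).2 c1, hn, sz_le hR (hpos u) (by rwa [Real.rpow_one])⟩
  · exact absurd rfl hu

end MPb51559.DQ
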