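import Pool.Agent.Work.MP_b51559_nt.DQ.StmtsS

set_option autoImplicit false

/-!
# Block DQ, item S9: elementary facts on the removal of the colours of N
-/

namespace MPb51559.DQ

open Finset Filter Topology MeasureTheory
open scoped Classical
open MPb51559.BG MPb51559.BG.Q

namespace I_S9

variable {S : Finset ℕ} {k : ℕ}

theorem dlN_of {N : Finset (Fin k)} {u : Co S k} {p : {p // p ∈ S}} (h : ∃ j ∈ N, u p = some j) :
    dlN N u p = none := by
  unfold dlN
  rw [if_pos h]

theorem dlN_not {N : Finset (Fin k)} {u : Co S k} {p : {p // p ∈ S}}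
    (h : ¬ ∃ j ∈ N, u p = some j) : dlN N u p = u p := by
  unfold dlN
  rw [if_neg h]

theorem prN_eq (N : Finset (Fin k)) (u : Co S k) :
    prN N u = ∏ p : {p // p ∈ S}, if ∃ j ∈ N, u p = some j then (p : ℕ) else 1 := by
  unfold prN prt
  rw [Finset.prod_comm]
  refine Finset.prod_congr rfl fun p _ => ?_
  rcases h : u p with _ | i
  · rw [if_neg (by rintro ⟨j, -, hj⟩; exact absurd hj (by simp))]
    refine Finset.prod_eq_one fun j _ => ?_
    rw [if_neg (by simp)]
  · have h1 : ∀ j ∈ N, (if (some i : Option (Fin k)) = some j then (p : ℕ) else 1) =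
        if i = j then (p : ℕ) else 1 := by
      intro j _
      by_cases hij : i = j
      · rw [if_pos hij, if_pos (by rw [hij])]
      · rw [if_neg hij, if_neg (fun hh => hij (Option.some.inj hh))]
    rw [Finset.prod_congr rfl h1, Finset.prod_ite_eq]
    by_cases hi : i ∈ N
    · rw [if_pos hi, if_pos ⟨i, hi, rfl⟩]
    · rw [if_neg hi, if_neg]
      rintro ⟨j, hj, hh⟩
      rw [Option.some.inj hh] at hi
      exact hi hj

theorem nrm_eq (N : Finset (Fin k)) (u : Co S k) : nrm u = nrm (dlN N u) * prN N u := by
  rw [prN_eq]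
  unfold nrm
  rw [← Finset.prod_mul_distrib]
  refine Finset.prod_congr rfl fun p _ => ?_
  by_cases h : ∃ j ∈ N, u p = some j
  · rw [dlN_of h, if_pos h, if_pos rfl, one_mul]
    obtain ⟨j, -, hj⟩ := h
    rw [hj, if_neg (by simp)]
  · rw [dlN_not h, if_neg h, mul_one]

theorem prt_pos (hS : ∀ p ∈ S, p.Prime) (i : Fin k) (u : Co S k) : 0 < prt i u := by
  unfold prt
  refine Finset.prod_pos fun p _ => ?_
  split_ifs
  · exact (hS p p.2).pos
  · exact one_pos

theorem prt_dlN (N : Finset (Fin k)) (u : Co S k) (i : Fin k) :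
    prt i (dlN N u) = if i ∈ N then 1 else prt i u := by
  by_cases hi : i ∈ N
  · rw [if_pos hi]
    unfold prt
    refine Finset.prod_eq_one fun p _ => ?_
    rw [if_neg]
    intro h
    by_cases h1 : ∃ j ∈ N, u p = some j
    · rw [dlN_of h1] at h
      exact absurd h (by simp)
    · rw [dlN_not h1] at h
      exact h1 ⟨i, hi, h⟩
  · rw [if_neg hi]
    unfold prt
    refine Finset.prod_congr rfl fun p _ => ?_
    by_cases h1 : ∃ j ∈ N, u p = some j
    · rw [dlN_of h1, if_neg (by simp), if_neg]
      obtain ⟨j, hj, hj'⟩ := h1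
      rw [hj']
      intro h
      rw [Option.some.inj h] at hj
      exact hi hj
    · rw [dlN_not h1]

theorem indep_of (G : (Fin k → ℝ) → ℝ) (N : Finset (Fin k)) :
    (∀ j ∈ N, ∀ t v, G (Function.update t j v) = G t) →
      ∀ t t' : Fin k → ℝ, (∀ i, i ∉ N → t i = t' i) → G t = G t' := by
  induction N using Finset.induction_on with
  | empty =>
    intro _ t t' h
    have : t = t' := funext fun i => h i (Finset.notMem_empty i)
    rw [this]
  | insert a N ha ih =>
    intro hG t t' h
    have h1 := ih (fun j hj => hG j (Finset.mem_insert_of_mem hj)) t (Function.update t' a (t a)) ?_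
    · rw [h1, hG a (Finset.mem_insert_self a N)]
    · intro i hi
      by_cases hia : i = a
      · rw [hia, Function.update_self]
      · rw [Function.update_of_ne hia]
        exact h i (by rw [Finset.mem_insert, not_or]; exact ⟨hia, hi⟩)

end I_S9

open I_S9 in
theorem prs_S9 : S_9 := by
  intro S k hS N u
  have hpos : 0 < prN N u := by
    unfold prN
    exact Finset.prod_pos fun j _ => prt_pos hS j u
  refine ⟨?_, nrm_eq N u, hpos, ?_, ?_, ?_, ?_⟩
  · intro j hj p h
    by_cases h1 : ∃ j ∈ N, u p = some j
    · rw [dlN_of h1] at h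
      exact absurd h (by simp)
    · rw [dlN_not h1] at h
      exact h1 ⟨j, hj, h⟩
  · intro f hf
    unfold mw
    refine Finset.prod_le_prod (fun p _ => ?_) fun p _ => ?_
    · split_ifs
      · exact zero_le_one
      · exact le_trans zero_le_one (hf p p.2)
    · by_cases h1 : ∃ j ∈ N, u p = some j
      · rw [dlN_of h1, if_pos rfl]
        split_ifs
        · exact le_rfl
        · exact hf p p.2
      · rw [dlN_not h1]
  · intro m hm
    constructor
    · intro h p hp
      by_cases h1 : ∃ j ∈ N, u p = some j
      · rw [dlN_of h1] at hp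
        exact absurd hp (by simp)
      · rw [dlN_not h1] at hp
        exact h p hp
    · intro h p hp
      apply h p
      rw [dlN_not, hp]
      rintro ⟨j, hj, hj'⟩
      rw [hp] at hj'
      rw [Option.some.inj hj'] at hm
      exact hm hj
  · intro h
    refine ⟨funext fun p => dlN_not ?_, ?_⟩
    · rintro ⟨j, hj, hj'⟩
      exact h j hj p hj'
    · rw [prN_eq]
      refine Finset.prod_eq_one fun p _ => if_neg ?_
      rintro ⟨j, hj, hj'⟩
      exact h j hj p hj'
  · intro R hR
    have hl : 0 < Real.log R := Real.log_pos hR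
    have htv : ∀ i, tv R (dlN N u) i = if i ∈ N then 0 else tv R u i := by
      intro i
      unfold tv
      rw [prt_dlN]
      split_ifs
      · rw [Nat.cast_one, Real.log_one, zero_div]
      · rfl
    refine ⟨fun i => ?_, htv, fun a => ?_, fun G hG => ?_⟩
    · unfold tv
      refine div_nonneg (Real.log_nonneg ?_) hl.le
      exact_mod_cast prt_pos hS i u
    · have h1 : ∑ j ∈ N, tv R u j = Real.log (prN N u : ℝ) / Real.log R := by
        unfold tv prN
        rw [← Finset.sum_div, Nat.cast_prod, Real.log_prod]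
        intro j _
        exact Nat.cast_ne_zero.2 (prt_pos hS j u).ne'
      rw [h1, div_le_iff₀ hl, ← Real.log_rpow (by linarith)]
      have h2 : (0 : ℝ) < (prN N u : ℝ) := Nat.cast_pos.2 hpos
      have h3 : 0 < R ^ a := Real.rpow_pos_of_pos (by linarith) a
      exact (Real.log_le_log_iff h2 h3).symm
    · refine indep_of G N hG _ _ fun i hi => ?_
      rw [htv, if_neg hi]

end MPb51559.DQ
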