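import Pool.Agent.Work.MP_b51559_nt.DQ.Stmts

set_option autoImplicit false

/-! Item RAT (helper70): lower bound for the binomial coefficient of a floor. -/

namespace MPb51559.DQ

theorem prf_RAT : D_RAT := by
  intro r η hη
  refine ⟨max ((r : ℝ) + 1) ((r : ℝ) ^ 2 / η), by positivity, fun ρ hρ => ?_⟩
  have h1 : (r : ℝ) + 1 ≤ ρ := (le_max_left _ _).trans hρ
  have h2 : (r : ℝ) ^ 2 / η ≤ ρ := (le_max_right _ _).trans hρ
  have hr0 : (0 : ℝ) ≤ r := Nat.cast_nonneg r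
  have hρ0 : 0 < ρ := by linarith
  have hfac : (0 : ℝ) < (r.factorial : ℝ) := by exact_mod_cast r.factorial_pos
  have hn : r ≤ ⌊ρ⌋₊ := Nat.le_floor (by linarith)
  have h3 : ρ < (⌊ρ⌋₊ : ℝ) + 1 := Nat.lt_floor_add_one ρ
  -- the descending factorial
  have h4 : ((⌊ρ⌋₊ + 1 - r) ^ r : ℕ) ≤ r.factorial * ⌊ρ⌋₊.choose r := by
    rw [← Nat.descFactorial_eq_factorial_mul_choose]
    exact Nat.pow_sub_le_descFactorial _ _
  have h5 : ((⌊ρ⌋₊ : ℝ) + 1 - r) ^ r ≤ (r.factorial : ℝ) * ((⌊ρ⌋₊.choose r : ℕ) : ℝ) := by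
    have h6 : (((⌊ρ⌋₊ + 1 - r : ℕ) : ℝ)) = (⌊ρ⌋₊ : ℝ) + 1 - r := by
      rw [Nat.cast_sub (by omega)]
      push_cast
      ring
    rw [← h6]
    exact_mod_cast h4
  have h7 : (ρ - r) ^ r ≤ ((⌊ρ⌋₊ : ℝ) + 1 - r) ^ r :=
    pow_le_pow_left₀ (by linarith) (by linarith) r
  -- Bernoulli
  have h8 : 1 + (r : ℝ) * (-(r / ρ)) ≤ (1 + -(r / ρ)) ^ r := by
    refine one_add_mul_le_pow ?_ r
    have : (r : ℝ) / ρ ≤ 1 := by
      rw [div_le_one hρ0]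
      linarith
    linarith
  have h9 : (r : ℝ) * (r / ρ) ≤ η := by
    rw [← mul_div_assoc, div_le_iff₀ hρ0]
    rw [div_le_iff₀ hη] at h2
    nlinarith
  have h10 : (1 - η) * ρ ^ r ≤ (ρ - r) ^ r := by
    have h11 : (ρ - r) ^ r = (1 + -(r / ρ)) ^ r * ρ ^ r := by
      rw [← mul_pow]
      congr 1
      field_simp
      ring
    rw [h11]
    refine mul_le_mul_of_nonneg_right ?_ (by positivity)
    linarith
  rw [div_le_iff₀ hfac, mul_comm ((⌊ρ⌋₊.choose r : ℕ) : ℝ)]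
  linarith

end MPb51559.DQ
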