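import Pool.Agent.Work.MP_b51559_nt.BG.Q.Fin1
import Pool.Agent.Work.MP_b51559_nt.DQ.AllA2
import Pool.Agent.Work.MP_b51559_nt.DQ.I_S1
import Pool.Agent.Work.MP_b51559_nt.DQ.I_S2
import Pool.Agent.Work.MP_b51559_nt.DQ.I_S3
import Pool.Agent.Work.MP_b51559_nt.DQ.I_S5
import Pool.Agent.Work.MP_b51559_nt.DQ.I_S6
import Pool.Agent.Work.MP_b51559_nt.DQ.I_S7
import Pool.Agent.Work.MP_b51559_nt.DQ.I_S8
import Pool.Agent.Work.MP_b51559_nt.DQ.I_S9
import Pool.Agent.Work.MP_b51559_nt.DQ.I_S10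
import Pool.Agent.Work.MP_b51559_nt.DQ.I_S11
import Pool.Agent.Work.MP_b51559_nt.DQ.I_S12
import Pool.Agent.Work.MP_b51559_nt.DQ.I_S13
import Pool.Agent.Work.MP_b51559_nt.DQ.I_S14
import Pool.Agent.Work.MP_b51559_nt.DQ.I_S15
import Pool.Agent.Work.MP_b51559_nt.DQ.CHO
import Pool.Agent.Work.MP_b51559_nt.DQ.RAT
import Pool.Agent.Work.MP_b51559_nt.DQ.FUNM
import Pool.Agent.Work.MP_b51559_nt.DQ.FinV

set_option autoImplicit false

/-! # Block DQ: the theorem, no hypotheses -/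

namespace MPb51559.DQ

open Finset Filter Topology MeasureTheory
open scoped Classical
open MPb51559.BG MPb51559.BG.Q

theorem all_S1 : S_1 := prs_S1 prf_INV prf_SUP

theorem all_S8 : S_8 := prs_S8 prf_BAS prf_SUP prs_S9

theorem all_S6 : S_6 :=
  prs_S6 prf_BAS (prf_MSU prf_BAS) all_TOT all_ONE prf_D1 prq_Q3 (prq_Q5 prf_BAS all_PERT)

theorem all_S7 : S_7 := prs_S7 prs_S5 all_S6 all_S8 prs_A_NICE

theorem all_S10 : S_10 := prs_S10 prs_S2 (prs_3 prf_BAS all_SUMK prs_V_SIM)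

theorem all_S11 : S_11 :=
  prs_S11 prf_BAS all_QN all_APX all_S7 all_S8 prs_S9 all_S10 prs_A_NICE prs_A_BV prs_A_INT

theorem all_S13 : S_13 := prs_S13 all_S1 all_S7 all_S8 all_S11 prs_S12 prs_A_INT

theorem all_S15 : S_15 := prs_S15 prf_INV all_S1 all_S13 prs_S14

theorem all_MULTI : MULTI := fun hb hp w hw k h _ hi s F h0 h1 hF r hr =>
  all_S15 hb hp w hw k h hi s F h0 h1 hF r hr

theorem all_Qm : ThmQ := thmQ_of all_MULTI (prf_FUNM prf_CHO prf_RAT)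

/-- for every `r` a positive proportion, `1 / (4 ^ (r - 1) (r - 1)!)` up to epsilon, of the
`r`-element subsets of every large admissible set are simultaneously prime in some translate -/
theorem tuples (r : ℕ) (hr : 2 ≤ r) (ε : ℝ) (hε : 0 < ε) :
    ∃ K : ℕ, ∀ V : Finset ℕ, K ≤ V.card →
      (∀ p : ℕ, p.Prime → ∃ v : ℕ, ∀ a ∈ V, ¬ p ∣ v + a) →
      ∃ x₀ : ℕ, ∀ x : ℕ, x₀ ≤ x →
        (1 - ε) * (V.card.choose r : ℝ) / (4 ^ (r - 1) * ((r - 1).factorial : ℝ)) ≤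
          (((V.powersetCard r).filter (fun M => ∃ n : ℕ, x < n ∧ (∀ a ∈ V, n + a < 2 * x) ∧
            ∀ a ∈ M, (n + a).Prime)).card : ℝ) := tuples_of all_Qm r hr ε hε

end MPb51559.DQ
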