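import Pool.Agent.Work.MP_b51559_nt.DQ.BrA
import Pool.Agent.Work.MP_b51559_nt.DQ.A_STEP
import Pool.Agent.Work.MP_b51559_nt.DQ.A_MGL
import Pool.Agent.Work.MP_b51559_nt.DQ.A_BVL
import Pool.Agent.Work.MP_b51559_nt.DQ.A_FUB
import Pool.Agent.Work.MP_b51559_nt.DQ.A_CUT
import Pool.Agent.Work.MP_b51559_nt.DQ.A_VOL
import Pool.Agent.Work.MP_b51559_nt.DQ.A_GNI
import Pool.Agent.Work.MP_b51559_nt.DQ.A_SIM
import Pool.Agent.Work.MP_b51559_nt.BG.C.BVM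

set_option autoImplicit false

/-!
# Block DQ: the analytic half, complete
-/

namespace MPb51559.DQ

open Finset Filter Topology MeasureTheory
open scoped Classical
open MPb51559.BG MPb51559.BG.Q

theorem all_STEP : A_STEP := pra_STEP
theorem all_MGL : A_MGL := pra_MGL all_STEP
theorem all_BVL : A_BVL := pra_BVL prf_BVM
theorem all_FUB : A_FUB := pra_FUB
theorem all_CUT : A_CUT := pra_CUT
theorem all_VOL : A_VOL := pra_VOL all_FUB all_CUT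
theorem all_GNI : A_GNI := pra_GNI all_MGL all_CUT all_VOL
theorem all_SIM : A_SIM := pra_SIM all_VOL all_CUT

/-- A1 (one step) -/
theorem A1 {k : ℕ} {s M : ℝ} {V : NNReal} (hs : 0 < s) {N : Finset (Fin k)}
    {G : (Fin k → ℝ) → ℝ} {j : Fin k} (hj : j ∉ N) (h : Nice k s M V N G) :
    Nice k s (M * s) (V * s.toNNReal) (insert j N) (marg G j) := A1_step all_STEP hs hj h

/-- A1 (uniform) -/
theorem A1' {k : ℕ} {s : ℝ} {F : (Fin k → ℝ) → ℝ} (hs : 0 < s) (hF : Tst k s F) :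
    ∃ (M : ℝ) (V : NNReal), 0 ≤ M ∧ ∀ L : List (Fin k), L.Nodup →
    Nice k s M V L.toFinset (mgL F L) := A1_unif all_MGL hs hF

/-- A2 -/
theorem A2 {k : ℕ} {s : ℝ} {F : (Fin k → ℝ) → ℝ} (hs : 0 < s) (hs1 : s < 1) (hF : Tst k s F) :
    ∃ (M : ℝ) (V : NNReal), 0 ≤ M ∧ ∀ (m : Fin k) (L : List (Fin k)), (m :: L).Nodup →
    BVk k 1 M V (cutm m (PhN s L.toFinset (mgL F (L ++ [m])))) := A2_bvk all_MGL all_BVL hs hs1 hF

/-- A3 -/
theorem A3 {k : ℕ} {s : ℝ} {F : (Fin k → ℝ) → ℝ} (hs : 0 < s) (hs1 : s < 1) (hF : Tst k s F)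
    (m : Fin k) (L : List (Fin k)) (hn : (m :: L).Nodup) :
    0 ≤ GN F (L ++ [m]) ∧ ∫ t, cutm m (PhN s L.toFinset (mgL F (L ++ [m]))) t =
      (1 - s) ^ L.length / (L.length.factorial : ℝ) * GN F (L ++ [m]) :=
  A3_int all_GNI hs hs1 hF m L hn

/-- A4 -/
theorem A4 : A_SIM := all_SIM

end MPb51559.DQ
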