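import Pool.Agent.Work.MP_b51559_nt.DQ.Defs

set_option autoImplicit false

/-!
# Block DQ, sieve part: definitions for a finite set of colours
-/

namespace MPb51559.DQ

open Finset Filter Topology MeasureTheory
open scoped Classical
open MPb51559.BG MPb51559.BG.Q

/-- bounded, sections of bounded variation, independent of the variables in `N`, supported on
nonnegative other variables of sum at most `s` -/
structure Nice (k : ℕ) (s M : ℝ) (V : NNReal) (N : Finset (Fin k)) (G : (Fin k → ℝ) → ℝ) : Prop where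
  meas : Measurable G
  bdd : ∀ t, |G t| ≤ M
  indep : ∀ j ∈ N, ∀ t u, G (Function.update t j u) = G t
  supp : ∀ t, G t ≠ 0 → (∀ i, i ∉ N → 0 ≤ t i) ∧ ∑ i ∈ univ \ N, t i ≤ s
  bv : ∀ (t : Fin k → ℝ) (i : Fin k),
    eVariationOn (fun u => G (Function.update t i u)) Set.univ ≤ V

/-- the integrand of the norm: the variables of `N` in the simplex of size `1 - s` -/
noncomputable def PhN {k : ℕ} (s : ℝ) (N : Finset (Fin k)) (G : (Fin k → ℝ) → ℝ) (t : Fin k → ℝ) : ℝ :=
  if (∀ j ∈ N, 0 ≤ t j) ∧ ∑ j ∈ N, t j ≤ 1 - s then G t ^ 2 else 0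

section
variable {S : Finset ℕ} {k : ℕ}

/-- no colour of `N` occurs -/
def NoN (N : Finset (Fin k)) (r : Co S k) : Prop := ∀ j ∈ N, NoC j r

/-- the colours of `N` are removed -/
noncomputable def dlN (N : Finset (Fin k)) (r : Co S k) : Co S k :=
  fun p => if ∃ j ∈ N, r p = some j then none else r p

/-- the product of the primes with a colour in `N` -/
noncomputable def prN (N : Finset (Fin k)) (r : Co S k) : ℕ := ∏ j ∈ N, prt j r

/-- restriction to the colourings without colours of `N` -/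
noncomputable def rstN (N : Finset (Fin k)) (l : Co S k → ℝ) (d : Co S k) : ℝ :=
  if NoN N d then l d else 0

/-- normaliser (density p - 2) of the extension in the colours of `N`, part of `N` at most `Z` -/
noncomputable def cpN (N : Finset (Fin k)) (Z : ℝ) (r : Co S k) : ℝ :=
  ∑ u ∈ univ.filter (fun u : Co S k => dlN N u = r ∧ (prN N u : ℝ) ≤ Z),
    mw (fun p => aF p - 1) r / mw (fun p => aF p - 1) u

/-- diagonal variables (density aF) of the extension in the colours of `N` of the weight `l` -/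
noncomputable def yxN (N : Finset (Fin k)) (Z : ℝ) (l : Co S k → ℝ) (u : Co S k) : ℝ :=
  if (prN N u : ℝ) ≤ Z then ytr aF l (dlN N u) / cpN N Z (dlN N u) else 0

/-- the diagonal variables of the sieve weight of `F` without the colour `m` and those of `N` -/
noncomputable def BN (R : ℝ) (F : (Fin k → ℝ) → ℝ) (m : Fin k) (N : Finset (Fin k)) : Co S k → ℝ :=
  ytr aF (rstN N (lam aF (ym R F m)))

/-- the diagonal variables of the extension used for `m`, `N` -/
noncomputable def yN (R s : ℝ) (F : (Fin k → ℝ) → ℝ) (m : Fin k) (N : Finset (Fin k)) : Co S k → ℝ :=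
  yxN N (R ^ (1 - s)) (rstN N (lam aF (ym R F m)))

/-- the sum over the colourings with colours in `N` only -/
noncomputable def HN (S : Finset ℕ) {k : ℕ} (N : Finset (Fin k)) (Z : ℝ) : ℝ :=
  ∑ v ∈ univ.filter (fun v : Co S k => NoN (univ \ N) v ∧ (nrm v : ℝ) ≤ Z), 1 / mw aF v

end

/-- `y` is the diagonal variable of size `lk ^ e`, shape `G`, without the colours of `N` -/
def Apx (k : ℕ) (δ C ε : ℝ) (D0 : ℕ) (x : ℝ) (e : ℕ) (N : Finset (Fin k)) (G : (Fin k → ℝ) → ℝ)
    (y : Co (Sx D0 x) k → ℝ) : Prop :=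
  ∀ r, |y r| ≤ C * lk D0 δ x ^ e ∧ (y r ≠ 0 → NoN N r ∧ sz (Rx δ x) r ≤ 1) ∧
  (NoN N r → |y r - lk D0 δ x ^ e * G (tv (Rx δ x) r)| ≤
    lk D0 δ x ^ e * (C * (ε + (mw (fun p => 1 + C / ((p : ℝ) - 2)) r - 1))))

end MPb51559.DQ
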