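import Pool.Agent.Work.MP_b51559_nt.DQ.StmtsA
import Pool.Agent.Work.MP_b51559_nt.DQ.Defs2

set_option autoImplicit false

/-!
# Block DQ: the analytic half in the notation of Defs2 (Nice, PhN)
-/

namespace MPb51559.DQ

open Finset Filter Topology MeasureTheory
open scoped Classical
open MPb51559.BG MPb51559.BG.Q

theorem nice_iff {k : ℕ} {s M : ℝ} {V : NNReal} {N : Finset (Fin k)} {G : (Fin k → ℝ) → ℝ} :
    Nice k s M V N G ↔ MGP k s M V N G := by
  constructor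
  · rintro ⟨a, b, c, d, e⟩
    refine ⟨a, b, c, fun t ht => ?_, e⟩
    rw [Finset.compl_eq_univ_sdiff]
    exact d t ht
  · rintro ⟨a, b, c, d, e⟩
    refine ⟨a, b, c, fun t ht => ?_, e⟩
    rw [← Finset.compl_eq_univ_sdiff]
    exact d t ht

theorem MGP.mono {k : ℕ} {s M M' : ℝ} {V V' : NNReal} {N : Finset (Fin k)}
    {G : (Fin k → ℝ) → ℝ} (h : MGP k s M V N G) (hM : M ≤ M') (hV : V ≤ V') :
    MGP k s M' V' N G :=
  ⟨h.meas, fun t => (h.bdd t).trans hM, h.indep, h.supp,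
    fun t i => (h.bv t i).trans (by exact_mod_cast hV)⟩

theorem PhN_eq {k : ℕ} (s : ℝ) (N : Finset (Fin k)) (G : (Fin k → ℝ) → ℝ) :
    PhN s N G = fun t => if ind N (1 - s) t then G t ^ 2 else 0 := by
  funext t
  unfold PhN
  by_cases h : (∀ j ∈ N, 0 ≤ t j) ∧ ∑ j ∈ N, t j ≤ 1 - s
  · rw [if_pos h, if_pos (show ind N (1 - s) t from h)]
  · rw [if_neg h, if_neg (show ¬ ind N (1 - s) t from h)]

/-- A1, one step -/
theorem A1_step (hStep : A_STEP) {k : ℕ} {s M : ℝ} {V : NNReal} (hs : 0 < s)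
    {N : Finset (Fin k)} {G : (Fin k → ℝ) → ℝ} {j : Fin k} (hj : j ∉ N) (h : Nice k s M V N G) :
    Nice k s (M * s) (V * s.toNNReal) (insert j N) (marg G j) :=
  nice_iff.2 (hStep k s M V hs N G j hj (nice_iff.1 h))

/-- A1, uniform in the list -/
theorem A1_unif (hMgl : A_MGL) {k : ℕ} {s : ℝ} {F : (Fin k → ℝ) → ℝ} (hs : 0 < s)
    (hF : Tst k s F) : ∃ (M : ℝ) (V : NNReal), 0 ≤ M ∧ ∀ L : List (Fin k), L.Nodup →
    Nice k s M V L.toFinset (mgL F L) := by
  have h := hMgl k s F hs hF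
  choose M V hM hL using h
  refine ⟨∑ n ∈ range (k + 1), M n, ∑ n ∈ range (k + 1), V n,
    Finset.sum_nonneg fun n _ => hM n, fun L hn => ?_⟩
  have hlen : L.length ∈ range (k + 1) := by
    rw [Finset.mem_range, Nat.lt_succ_iff]
    have := hn.length_le_card
    rwa [Fintype.card_fin] at this
  refine nice_iff.2 ((hL L.length L hn rfl).mono ?_ ?_)
  · exact Finset.single_le_sum (f := M) (fun n _ => hM n) hlen
  · exact Finset.single_le_sum (f := V) (fun n _ => zero_le (a := V n)) hlen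

theorem toFinset_app {k : ℕ} (m : Fin k) (L : List (Fin k)) :
    (L ++ [m]).toFinset = insert m L.toFinset := by
  ext i
  simp only [List.mem_toFinset, List.mem_append, List.mem_singleton, Finset.mem_insert]
  tauto

theorem nodup_app {k : ℕ} {m : Fin k} {L : List (Fin k)} (h : (m :: L).Nodup) :
    (L ++ [m]).Nodup := by
  have h1 := List.nodup_cons.1 h
  rw [List.nodup_append]
  refine ⟨h1.2, List.nodup_singleton m, ?_⟩
  intro a ha b hb hab
  rw [List.mem_singleton] at hb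
  exact h1.1 (hb ▸ hab ▸ ha)

/-- A2 -/
theorem A2_bvk (hMgl : A_MGL) (hBvl : A_BVL) {k : ℕ} {s : ℝ} {F : (Fin k → ℝ) → ℝ} (hs : 0 < s)
    (hs1 : s < 1) (hF : Tst k s F) : ∃ (M : ℝ) (V : NNReal), 0 ≤ M ∧ ∀ (m : Fin k)
    (L : List (Fin k)), (m :: L).Nodup →
    BVk k 1 M V (cutm m (PhN s L.toFinset (mgL F (L ++ [m])))) := by
  obtain ⟨M, V, hM, h⟩ := A1_unif hMgl hs hF
  refine ⟨M ^ 2, (2 * M ^ 2).toNNReal + (2 * M * V).toNNReal, by positivity, fun m L hn => ?_⟩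
  have h1 := nice_iff.1 (h (L ++ [m]) (nodup_app hn))
  rw [toFinset_app] at h1
  rw [PhN_eq]
  refine hBvl k s M V hs hs1 hM L.toFinset m (mgL F (L ++ [m])) ?_ h1
  rw [List.mem_toFinset]
  exact (List.nodup_cons.1 hn).1

/-- A3 -/
theorem A3_int (hGni : A_GNI) {k : ℕ} {s : ℝ} {F : (Fin k → ℝ) → ℝ} (hs : 0 < s)
    (hs1 : s < 1) (hF : Tst k s F) (m : Fin k) (L : List (Fin k)) (hn : (m :: L).Nodup) :
    0 ≤ GN F (L ++ [m]) ∧ ∫ t, cutm m (PhN s L.toFinset (mgL F (L ++ [m]))) t =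
      (1 - s) ^ L.length / (L.length.factorial : ℝ) * GN F (L ++ [m]) := by
  have h1 := List.nodup_cons.1 hn
  have h2 := hGni k s F hs hs1 hF m L.toFinset (L ++ [m]) (by rw [List.mem_toFinset]; exact h1.1)
    (nodup_app hn) (toFinset_app m L)
  rw [List.toFinset_card_of_nodup h1.2] at h2
  rw [PhN_eq]
  exact h2

end MPb51559.DQ
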