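import Pool.Agent.Work.MP_b51559_nt.BG.Q.Stmts

set_option autoImplicit false

/-!
# Block DQ: the moment of order r. Definitions and the interfaces
-/

namespace MPb51559.DQ

open Finset Filter Topology MeasureTheory
open scoped Classical
open MPb51559.BG MPb51559.BG.Q

/-- the iterated marginal in the directions of the list -/
noncomputable def mgL {k : ℕ} (F : (Fin k → ℝ) → ℝ) : List (Fin k) → ((Fin k → ℝ) → ℝ)
  | [] => F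
  | j :: L => marg (mgL F L) j

/-- cut in all the variables of the list -/
noncomputable def cutL {k : ℕ} (Φ : (Fin k → ℝ) → ℝ) : List (Fin k) → ((Fin k → ℝ) → ℝ)
  | [] => Φ
  | j :: L => cutm j (cutL Φ L)

/-- the norm of the iterated marginal -/
noncomputable def GN {k : ℕ} (F : (Fin k → ℝ) → ℝ) (L : List (Fin k)) : ℝ :=
  ∫ t, cutL (fun t => mgL F L t ^ 2) L t

/-- weighted sum over the progression with n + h m prime and n + h j prime for all j in N -/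
noncomputable def S2M {S : Finset ℕ} {k : ℕ} (w : ℝ → ℝ) (h : Fin k → ℕ) (D0 v0 : ℕ) (x : ℝ)
    (m : Fin k) (N : Finset (Fin k)) (l : Co S k → ℝ) : ℝ :=
  ∑ n ∈ (range (⌊2 * x⌋₊ + 1)).filter (fun n => n ≡ v0 [MOD primorial D0]),
    tm w h x m n * ((if ∀ j ∈ N, (n + h j).Prime then 1 else 0) * Vn h l n ^ 2)

/-- the bound for the moment of order r, A a bound for all the norms of r-fold marginals -/
def MultiConcl (w : ℝ → ℝ) {k : ℕ} (h : Fin k → ℕ) (s : ℝ) (F : (Fin k → ℝ) → ℝ) (r : ℕ) : Prop :=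
  ∀ A : ℝ, (∀ L : List (Fin k), L.Nodup → L.length = r → GN F L ≤ A) →
  ∀ δ : ℝ, 0 < δ → δ < 1 / 8 → ∀ ε : ℝ, 0 < ε → Ev fun D0 x => ∀ v0 : ℕ,
  (∀ i, (v0 + h i).Coprime (primorial D0)) → ∀ (m : Fin k) (N : Finset (Fin k)), m ∉ N →
  N.card + 1 = r → ∀ l : Co (Sx D0 x) k → ℝ, l = lam aP (yF (Rx δ x) F) →
  S2M w h D0 v0 x m N l ≤ Nn w k D0 δ x * (((r - 1).factorial : ℝ) * A / (1 - s) ^ (r - 1) + ε)

/-- the chord condition: a line below the binomial coefficients -/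
def Chord (r : ℕ) (c1 c2 : ℝ) : Prop := 0 ≤ c2 ∧ ∀ X : ℕ, c1 * X - c2 ≤ (X.choose r : ℝ)

/-- INTERFACE 1: the sieve. `E` = the allowed r-sets -/
def SECM : Prop := BVE → PNTW → ∀ (k : ℕ) (h : Fin k → ℕ), Function.Injective h →
  ∀ (r : ℕ), 2 ≤ r → ∀ (s : ℝ) (F : (Fin k → ℝ) → ℝ), 0 < s → s < 1 → Tst k s F →
  ∀ c1 c2 A : ℝ, Chord r c1 c2 → (∀ L : List (Fin k), L.Nodup → L.length = r → GN F L ≤ A) →
  ∀ E : Finset (Finset (Fin k)), (∀ M ∈ E, M.card = r) →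
  (E.card : ℝ) * (((r - 1).factorial : ℝ) * A / (1 - s) ^ (r - 1)) + 4 * c2 * ∫ t, F t ^ 2 <
    c1 * ∑ m, JJ F m →
  Ev fun D0 x => ∀ v0 : ℕ, (∀ i, (v0 + h i).Coprime (primorial D0)) →
    ∃ n : ℕ, n ≡ v0 [MOD primorial D0] ∧ x < n ∧ (∀ i, (n + h i : ℝ) < 2 * x) ∧
      ∃ M : Finset (Fin k), M.card = r ∧ M ∉ E ∧ ∀ i ∈ M, (n + h i).Prime

/-- INTERFACE 2: the function -/
def FUNM : Prop := ∀ r : ℕ, 2 ≤ r → ∀ ε : ℝ, 0 < ε → ε < 1 → ∃ K0 : ℕ, ∀ k ≥ K0,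
  ∃ (s c1 c2 I J A : ℝ) (F : (Fin k → ℝ) → ℝ),
  0 < s ∧ s < 1 ∧ 0 ≤ c1 ∧ Chord r c1 c2 ∧ 0 < A ∧ Tst k s F ∧ (∫ t, F t ^ 2) ≤ I ∧
  (∀ m, J ≤ JJ F m) ∧ (∀ L : List (Fin k), L.Nodup → L.length = r → GN F L ≤ A) ∧
  (1 - ε) * (k.choose r : ℝ) / (4 ^ (r - 1) * ((r - 1).factorial : ℝ)) *
    (((r - 1).factorial : ℝ) * A / (1 - s) ^ (r - 1)) + 4 * c2 * I < c1 * (k * J)

/-- THE THEOREM: all r, explicit proportion -/
def ThmQ : Prop := ∀ r : ℕ, 2 ≤ r → ∀ ε : ℝ, 0 < ε → ∃ K : ℕ, ∀ k ≥ K, ∀ h : Fin k → ℕ, Adm h →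
  ∃ x0 : ℕ, ∀ x ≥ x0, (1 - ε) * (k.choose r : ℝ) / (4 ^ (r - 1) * ((r - 1).factorial : ℝ)) ≤
    (((univ : Finset (Fin k)).powersetCard r).filter (fun M => ∃ n : ℕ, x < n ∧
      (∀ i, n + h i < 2 * x) ∧ ∀ i ∈ M, (n + h i).Prime)).card

end MPb51559.DQ
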