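import Pool.Agent.Work.MP_b51559_nt.DQ.Stmts
import Pool.Agent.Work.MP_b51559_nt.BG.C.V0

set_option autoImplicit false

/-!
# Block DQ, item FIN: the theorem from the interfaces
-/

namespace MPb51559.DQ

open Finset Filter Topology MeasureTheory
open scoped Classical
open MPb51559.BG MPb51559.BG.Q

theorem prf_FIN : D_FIN := by
  intro hBV hP hSEC hFUN r hr ε hε
  by_cases hε1 : ε < 1
  · obtain ⟨K0, hK0⟩ := hFUN r hr ε hε hε1
    refine ⟨K0, fun k hk h hadm => ?_⟩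
    obtain ⟨s, c1, c2, I, J, A, F, hs0, hs1, hc1, hch, hA, hF, hI, hJ, hG, hmain⟩ := hK0 k hk
    set T : ℝ := (1 - ε) * (k.choose r : ℝ) / (4 ^ (r - 1) * ((r - 1).factorial : ℝ)) with hT
    set B : ℝ := ((r - 1).factorial : ℝ) * A / (1 - s) ^ (r - 1) with hB
    have hB0 : 0 ≤ B := by
      have h1 : 0 < 1 - s := by linarith
      positivity
    have hcrit : ∀ E : Finset (Finset (Fin k)), (E.card : ℝ) ≤ T →
        (E.card : ℝ) * B + 4 * c2 * ∫ t, F t ^ 2 < c1 * ∑ m, JJ F m := by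
      intro E hE
      have e1 : (E.card : ℝ) * B ≤ T * B := mul_le_mul_of_nonneg_right hE hB0
      have e2 : 4 * c2 * ∫ t, F t ^ 2 ≤ 4 * c2 * I := by
        have := hch.1
        exact mul_le_mul_of_nonneg_left hI (by positivity)
      have e3 : (k : ℝ) * J ≤ ∑ m, JJ F m := by
        calc (k : ℝ) * J = ∑ m : Fin k, J := by
              rw [sum_const, card_univ, Fintype.card_fin, nsmul_eq_mul]
          _ ≤ _ := sum_le_sum fun m _ => hJ m
      have e4 : c1 * ((k : ℝ) * J) ≤ c1 * ∑ m, JJ F m := mul_le_mul_of_nonneg_left e3 hc1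
      linarith
    have key : ∀ E : Finset (Finset (Fin k)), Ev fun D0 x => (∀ M ∈ E, M.card = r) →
        (E.card : ℝ) ≤ T → ∀ v0 : ℕ, (∀ i, (v0 + h i).Coprime (primorial D0)) →
        ∃ n : ℕ, n ≡ v0 [MOD primorial D0] ∧ x < n ∧ (∀ i, (n + h i : ℝ) < 2 * x) ∧
          ∃ M : Finset (Fin k), M.card = r ∧ M ∉ E ∧ ∀ i ∈ M, (n + h i).Prime := by
      intro E
      by_cases hE : (∀ M ∈ E, M.card = r) ∧ (E.card : ℝ) ≤ T
      · obtain ⟨D1, hD1⟩ := hSEC hBV hP k h hadm.1 r hr s F hs0 hs1 hF c1 c2 A hch hG E hE.1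
          (hcrit E hE.2)
        refine ⟨D1, fun D0 hD0 => ?_⟩
        obtain ⟨x0, hx0⟩ := hD1 D0 hD0
        exact ⟨x0, fun x hx _ _ => hx0 x hx⟩
      · refine ⟨0, fun D0 _ => ⟨0, fun x _ h1 h2 => absurd ⟨h1, h2⟩ hE⟩⟩
    choose D1 hD1 using key
    set D0 := (univ : Finset (Finset (Finset (Fin k)))).sup D1 with hD0
    choose x0 hx0 using fun E => hD1 E D0 (le_sup (f := D1) (mem_univ E))
    obtain ⟨v0, hv0⟩ := prf_V0 k h hadm D0
    refine ⟨(univ : Finset (Finset (Finset (Fin k)))).sup fun E => ⌈x0 E⌉₊, fun x hx => ?_⟩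
    by_contra hlt
    push Not at hlt
    set E : Finset (Finset (Fin k)) := ((univ : Finset (Fin k)).powersetCard r).filter
      (fun M => ∃ n : ℕ, x < n ∧ (∀ i, n + h i < 2 * x) ∧ ∀ i ∈ M, (n + h i).Prime) with hEdef
    have hxE : x0 E ≤ (x : ℝ) := by
      have h1 : ⌈x0 E⌉₊ ≤ x := (le_sup (f := fun E => ⌈x0 E⌉₊) (mem_univ E)).trans hx
      exact (Nat.le_ceil (x0 E)).trans (by exact_mod_cast h1)
    have hEr : ∀ M ∈ E, M.card = r := fun M hM => (mem_powersetCard.1 (mem_filter.1 hM).1).2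
    obtain ⟨n, hn1, hn2, hn3, M, hM, hME, hp⟩ := hx0 E x hxE hEr hlt.le v0 hv0
    apply hME
    refine mem_filter.2 ⟨mem_powersetCard.2 ⟨subset_univ _, hM⟩, n, by exact_mod_cast hn2,
      fun i => by exact_mod_cast hn3 i, hp⟩
  · refine ⟨0, fun k _ h _ => ⟨0, fun x _ => ?_⟩⟩
    have h1 : (1 - ε) * (k.choose r : ℝ) / (4 ^ (r - 1) * ((r - 1).factorial : ℝ)) ≤ 0 := by
      apply div_nonpos_of_nonpos_of_nonneg
      · exact mul_nonpos_of_nonpos_of_nonneg (by linarith) (Nat.cast_nonneg _)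
      · positivity
    exact h1.trans (Nat.cast_nonneg _)

end MPb51559.DQ
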