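import Pool.Agent.Work.MP_b51559_nt.DQ.Stmts
import Pool.Agent.Work.MP_b51559_nt.BG.Q.I_Q17

set_option autoImplicit false

/-! # Block DQ, item MOM: the inequality for the moment of order r, summed over n -/

namespace MPb51559.DQ

open Finset Filter Topology MeasureTheory
open scoped Classical
open MPb51559.BG MPb51559.BG.Q

theorem prf_MOM (h1 : D_PW) : D_MOM := by
  intro w hw k h hk
  refine ⟨1, fun x hx D0 v0 S l r hr c1 c2 hc => ?_⟩
  have hlog : 0 ≤ Real.log (2 * x) := Real.log_nonneg (by linarith)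
  have hS2 : ∑ m, S2 w h D0 v0 x m l l =
      ∑ n ∈ (range (⌊2 * x⌋₊ + 1)).filter (fun n => n ≡ v0 [MOD primorial D0]),
        (∑ m, tm w h x m n) * (Vn h l n * Vn h l n) := by
    simp only [S2, sum_mul]
    rw [sum_comm]
  have hS2M : (∑ m, ∑ N ∈ (univ.erase m).powersetCard (r - 1), S2M w h D0 v0 x m N l) =
      ∑ n ∈ (range (⌊2 * x⌋₊ + 1)).filter (fun n => n ≡ v0 [MOD primorial D0]),
        (∑ m, ∑ N ∈ (univ.erase m).powersetCard (r - 1),
          tm w h x m n * (if ∀ j ∈ N, (n + h j).Prime then 1 else 0)) *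
          (Vn h l n * Vn h l n) := by
    have e1 : ∀ (m : Fin k) (N : Finset (Fin k)), S2M w h D0 v0 x m N l =
        ∑ n ∈ (range (⌊2 * x⌋₊ + 1)).filter (fun n => n ≡ v0 [MOD primorial D0]),
          (tm w h x m n * (if ∀ j ∈ N, (n + h j).Prime then 1 else 0)) *
            (Vn h l n * Vn h l n) := by
      intro m N
      rw [S2M]
      refine sum_congr rfl fun n _ => ?_
      ring
    simp only [e1, sum_mul]
    rw [sum_congr rfl fun m _ => sum_comm, sum_comm]
  rw [hS2, hS2M, S1, mul_sum, mul_sum, mul_sum, mul_sum, ← sum_sub_distrib]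
  refine sum_le_sum fun n _ => ?_
  have hV : 0 ≤ Vn h l n * Vn h l n := mul_self_nonneg _
  have hwp0 : 0 ≤ wp w h x n := (hw.nonneg _).trans (UPB_wp_ge w h x n ⟨0, hk⟩)
  have key := h1 k r hr (fun m => tm w h x m n) (univ.filter fun m => (n + h m).Prime)
    (Real.log (2 * x) * wp w h x n) c1 c2 (mul_nonneg hlog hwp0)
    (fun m => ⟨I_Q17.tm_nonneg hw h x m n, UPB_tm_le w hw h x hx m n⟩)
    (fun m hm => by
      rw [mem_filter]
      refine ⟨mem_univ _, ?_⟩
      by_contra hc'
      apply hm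
      simp [tm, hc'])
    hc
  have e2 : ∀ N : Finset (Fin k), (N ⊆ (univ.filter fun m => (n + h m).Prime)) ↔
      ∀ j ∈ N, (n + h j).Prime := by
    intro N
    constructor
    · intro hN j hj
      exact (mem_filter.1 (hN hj)).2
    · intro hN j hj
      exact mem_filter.2 ⟨mem_univ _, hN j hj⟩
  simp only [e2] at key
  have := mul_le_mul_of_nonneg_right key hV
  calc _ = (c1 * (∑ m, tm w h x m n) - c2 * (Real.log (2 * x) * wp w h x n)) *
        (Vn h l n * Vn h l n) := by ring
    _ ≤ _ := this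
    _ = _ := by ring

end MPb51559.DQ
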