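import Pool.Agent.Work.MP_b51559_nt.DQ.Stmts

set_option autoImplicit false

/-!
# Block DQ, item POS: a sum which is not 0 gives n
-/

namespace MPb51559.DQ

open Finset Filter Topology MeasureTheory
open scoped Classical
open MPb51559.BG MPb51559.BG.Q

theorem prf_POS : D_POS := by
  intro w hw k h
  refine ⟨8 * (∑ i, (h i : ℝ)) + 1, ?_⟩
  intro x hx D0 v0 S l m N hne
  have hle : ∀ i, (h i : ℝ) ≤ ∑ i, (h i : ℝ) := fun i =>
    Finset.single_le_sum (f := fun i => (h i : ℝ)) (fun j _ => Nat.cast_nonneg _) (Finset.mem_univ i)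
  have h0 : (0 : ℝ) ≤ ∑ i, (h i : ℝ) := Finset.sum_nonneg fun j _ => Nat.cast_nonneg _
  have hx0 : 0 < x := by linarith
  unfold S2M at hne
  obtain ⟨n, hn, hn0⟩ := Finset.exists_ne_zero_of_sum_ne_zero hne
  rw [Finset.mem_filter] at hn
  have h1 : tm w h x m n ≠ 0 := left_ne_zero_of_mul hn0
  have h2 := right_ne_zero_of_mul hn0
  have h3 : ∀ j ∈ N, (n + h j).Prime := by
    by_contra hc
    apply h2
    rw [if_neg hc, zero_mul]
  unfold tm at h1
  have h4 : (n + h m).Prime := by
    by_contra hc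
    exact h1 (if_neg hc)
  rw [if_pos h4] at h1
  have h5 := hw.supp _ (right_ne_zero_of_mul h1)
  have h6 := (lt_div_iff₀ hx0).1 h5.1
  have h7 := (div_lt_iff₀ hx0).1 h5.2
  refine ⟨n, hn.2, ?_, ?_, ?_⟩
  · have := hle m
    linarith
  · intro i
    have := hle i
    have hm : (0 : ℝ) ≤ h m := Nat.cast_nonneg _
    linarith
  · intro i hi
    rw [Finset.mem_insert] at hi
    rcases hi with rfl | hi
    · exact h4
    · exact h3 i hi

end MPb51559.DQ
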