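import Pool.Agent.Work.MP_b51559_nt.DQ.Stmts

set_option autoImplicit false

/-!
# Block DQ, item PW: the pointwise moment inequality
-/

namespace MPb51559.DQ

open Finset Filter Topology MeasureTheory
open scoped Classical
open MPb51559.BG MPb51559.BG.Q

theorem PW_inner {k : ℕ} (r : ℕ) (a : Fin k → ℝ) (χ : Finset (Fin k))
    (ha : ∀ m, a m ≠ 0 → m ∈ χ) (m : Fin k) :
    ∑ N ∈ (univ.erase m).powersetCard (r - 1), a m * (if N ⊆ χ then (1 : ℝ) else 0) =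
      a m * (((χ.card - 1).choose (r - 1) : ℕ) : ℝ) := by
  rw [← Finset.mul_sum]
  by_cases h0 : a m = 0
  · rw [h0, zero_mul, zero_mul]
  · have hm : m ∈ χ := ha m h0
    have hf : ((univ.erase m).powersetCard (r - 1)).filter (fun N => N ⊆ χ) =
        (χ.erase m).powersetCard (r - 1) := by
      ext N
      rw [mem_filter, mem_powersetCard, mem_powersetCard]
      constructor
      · rintro ⟨⟨h1, h2⟩, h3⟩
        refine ⟨fun i hi => mem_erase.2 ⟨(mem_erase.1 (h1 hi)).1, h3 hi⟩, h2⟩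
      · rintro ⟨h1, h2⟩
        exact ⟨⟨fun i hi => mem_erase.2 ⟨(mem_erase.1 (h1 hi)).1, mem_univ _⟩, h2⟩,
          fun i hi => (mem_erase.1 (h1 hi)).2⟩
    have h1 : ∑ N ∈ (univ.erase m).powersetCard (r - 1), (if N ⊆ χ then (1 : ℝ) else 0) =
        (((χ.card - 1).choose (r - 1) : ℕ) : ℝ) := by
      rw [← Finset.sum_filter, hf, Finset.sum_const, card_powersetCard, card_erase_of_mem hm,
        nsmul_eq_mul, mul_one]
    rw [h1]

theorem prf_PW : D_PW := by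
  intro k r hr a χ A c1 c2 hA ha hχ hc
  obtain ⟨hc2, hch⟩ := hc
  simp only [PW_inner r a χ hχ]
  rw [← Finset.sum_mul]
  have hS0 : 0 ≤ ∑ m, a m := sum_nonneg fun m _ => (ha m).1
  have hSχ : ∑ m, a m = ∑ m ∈ χ, a m := by
    symm
    refine Finset.sum_subset (subset_univ _) fun m _ hm => ?_
    by_contra h
    exact hm (hχ m h)
  have hSA : ∑ m, a m ≤ A * (χ.card : ℝ) := by
    rw [hSχ]
    calc ∑ m ∈ χ, a m ≤ ∑ _m ∈ χ, A := sum_le_sum fun m _ => (ha m).2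
      _ = A * (χ.card : ℝ) := by rw [Finset.sum_const, nsmul_eq_mul, mul_comm]
  obtain ⟨S, hS⟩ : ∃ S : ℝ, S = ∑ m, a m := ⟨_, rfl⟩
  rw [← hS] at hS0 hSA ⊢
  obtain ⟨q, rfl⟩ : ∃ q, r = q + 1 := ⟨r - 1, by omega⟩
  have hq : (0 : ℝ) < ((q + 1 : ℕ) : ℝ) := by positivity
  obtain ⟨X, hX⟩ : ∃ X : ℕ, X = χ.card := ⟨_, rfl⟩
  rw [← hX] at hSA ⊢
  rcases Nat.eq_zero_or_pos X with h0 | hpos
  · subst h0
    rw [Nat.cast_zero, mul_zero] at hSA
    have hS' : S = 0 := le_antisymm hSA hS0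
    rw [hS', mul_zero, zero_mul, mul_zero]
    nlinarith [mul_nonneg hc2 hA]
  · obtain ⟨n, rfl⟩ : ∃ n, X = n + 1 := ⟨X - 1, by omega⟩
    have e1 : (((n + 1 : ℕ) : ℝ)) * ((n.choose q : ℕ) : ℝ) =
        (((n + 1).choose (q + 1) : ℕ) : ℝ) * ((q + 1 : ℕ) : ℝ) := by
      exact_mod_cast Nat.add_one_mul_choose_eq n q
    have e2 := hch (n + 1)
    have hn : (0 : ℝ) < ((n + 1 : ℕ) : ℝ) := by positivity
    simp only [Nat.add_sub_cancel]
    have e3 : (1 / ((q + 1 : ℕ) : ℝ)) * (S * ((n.choose q : ℕ) : ℝ)) =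
        S * (((n + 1).choose (q + 1) : ℕ) : ℝ) / ((n + 1 : ℕ) : ℝ) := by
      rw [eq_div_iff hn.ne', one_div, inv_mul_eq_div, div_mul_eq_mul_div, div_eq_iff hq.ne']
      calc S * ((n.choose q : ℕ) : ℝ) * ((n + 1 : ℕ) : ℝ) =
            S * (((n + 1 : ℕ) : ℝ) * ((n.choose q : ℕ) : ℝ)) := by ring
        _ = S * ((((n + 1).choose (q + 1) : ℕ) : ℝ) * ((q + 1 : ℕ) : ℝ)) := by rw [e1]
        _ = S * (((n + 1).choose (q + 1) : ℕ) : ℝ) * ((q + 1 : ℕ) : ℝ) := by ring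
    rw [e3, le_div_iff₀ hn]
    have e4 := mul_le_mul_of_nonneg_left e2 hS0
    have e5 := mul_le_mul_of_nonneg_left hSA hc2
    nlinarith

end MPb51559.DQ
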