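import Pool.Agent.Work.MP_b51559_nt.DQ.Stmts
import Pool.Agent.Work.MP_b51559_nt.BG.Q.I_Q19

set_option autoImplicit false

/-!
# Block DQ, item SECA: assembly of the sieve part for the moment of order r
-/

namespace MPb51559.DQ

open Finset Filter Topology MeasureTheory
open scoped Classical
open MPb51559.BG MPb51559.BG.Q

theorem SECA_cutL_nonneg {k : ℕ} (Φ : (Fin k → ℝ) → ℝ) (hΦ : ∀ t, 0 ≤ Φ t) (L : List (Fin k)) :
    ∀ t, 0 ≤ cutL Φ L t := by
  induction L with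
  | nil => exact hΦ
  | cons j L ih =>
    intro t
    show 0 ≤ cutm j (cutL Φ L) t
    unfold cutm
    split_ifs
    · exact ih t
    · exact le_rfl

theorem SECA_GN_nonneg {k : ℕ} (F : (Fin k → ℝ) → ℝ) (L : List (Fin k)) : 0 ≤ GN F L := by
  unfold GN
  exact integral_nonneg fun t => SECA_cutL_nonneg _ (fun t => sq_nonneg _) L t

/-- the number of pairs `(m, N)` with `insert m N ∈ E` -/
theorem SECA_count {k r : ℕ} (E : Finset (Finset (Fin k)))
    (hE : ∀ M ∈ E, M.card = r) (b : ℝ) :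
    ∑ m : Fin k, ∑ N ∈ (univ.erase m).powersetCard (r - 1), (if insert m N ∈ E then b else 0) =
      (r : ℝ) * (E.card * b) := by
  have h1 : ∀ m : Fin k, ∑ N ∈ (univ.erase m).powersetCard (r - 1),
      (if insert m N ∈ E then b else 0) = ∑ M ∈ E, (if m ∈ M then b else 0) := by
    intro m
    rw [← Finset.sum_filter, ← Finset.sum_filter]
    refine Finset.sum_nbij' (fun N => insert m N) (fun M => M.erase m) ?_ ?_ ?_ ?_ ?_
    · intro N hN
      obtain ⟨hN1, hN2⟩ := Finset.mem_filter.1 hN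
      exact Finset.mem_filter.2 ⟨hN2, Finset.mem_insert_self m N⟩
    · intro M hM
      obtain ⟨hM1, hM2⟩ := Finset.mem_filter.1 hM
      refine Finset.mem_filter.2 ⟨Finset.mem_powersetCard.2 ⟨?_, ?_⟩, ?_⟩
      · exact Finset.erase_subset_erase m (Finset.subset_univ M)
      · rw [Finset.card_erase_of_mem hM2, hE M hM1]
      · rw [Finset.insert_erase hM2]
        exact hM1
    · intro N hN
      obtain ⟨hN1, _⟩ := Finset.mem_filter.1 hN
      have hm : m ∉ N := fun h => by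
        have := (Finset.mem_powersetCard.1 hN1).1 h
        simp at this
      exact Finset.erase_insert hm
    · intro M hM
      exact Finset.insert_erase (Finset.mem_filter.1 hM).2
    · intro _ _
      rfl
  rw [Finset.sum_congr rfl fun m _ => h1 m, Finset.sum_comm]
  have h2 : ∀ M ∈ E, ∑ m : Fin k, (if m ∈ M then b else 0) = (r : ℝ) * b := by
    intro M hM
    rw [← Finset.sum_filter, Finset.sum_const, nsmul_eq_mul]
    congr 2
    rw [Finset.filter_mem_eq_inter, Finset.univ_inter]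
    exact hE M hM
  rw [Finset.sum_congr rfl h2, Finset.sum_const, nsmul_eq_mul]
  ring

/-- the arithmetic of the constants -/
theorem SECA_arith {k : ℕ} (c1 c2 g ε I J B e L1 LR S S2s T N : ℝ) (hI : 0 ≤ I)
    (hc1 : 0 ≤ c1) (hc2 : 0 ≤ c2) (hε0 : 0 < ε) (hε1 : ε ≤ 1) (hN : 0 < N)
    (hg : g = c1 * J - e * B - 4 * c2 * I)
    (hεg : ε * (c1 * k + e + 4 * c2 * (3 + 2 * I)) < g)
    (hLR : 0 < LR) (hL : L1 ≤ 4 * (1 + 2 * ε) * LR) (hL1 : 0 ≤ L1)
    (h1 : S * LR ≤ N * (I + ε)) (h2 : N * (J - k * ε) ≤ S2s) (h3 : T ≤ N * (e * (B + ε)))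
    (h4 : c1 * S2s - c2 * (L1 * S) ≤ T) : False := by
  have e1 : L1 * S ≤ 4 * (1 + 2 * ε) * (N * (I + ε)) := by
    have a1 : L1 * (S * LR) ≤ L1 * (N * (I + ε)) := mul_le_mul_of_nonneg_left h1 hL1
    have a2 : L1 * (N * (I + ε)) ≤ 4 * (1 + 2 * ε) * LR * (N * (I + ε)) :=
      mul_le_mul_of_nonneg_right hL (by positivity)
    have a3 : (L1 * S) * LR ≤ (4 * (1 + 2 * ε) * (N * (I + ε))) * LR := by
      calc (L1 * S) * LR = L1 * (S * LR) := by ring
        _ ≤ 4 * (1 + 2 * ε) * LR * (N * (I + ε)) := a1.trans a2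
        _ = (4 * (1 + 2 * ε) * (N * (I + ε))) * LR := by ring
    exact le_of_mul_le_mul_right a3 hLR
  have e2 : c2 * (L1 * S) ≤ c2 * (4 * (1 + 2 * ε) * (N * (I + ε))) :=
    mul_le_mul_of_nonneg_left e1 hc2
  have e3 : c1 * (N * (J - k * ε)) ≤ c1 * S2s := mul_le_mul_of_nonneg_left h2 hc1
  have e4 : N * (c1 * (J - k * ε) - c2 * (4 * (1 + 2 * ε) * (I + ε))) ≤ N * (e * (B + ε)) := by
    have : N * (c1 * (J - k * ε) - c2 * (4 * (1 + 2 * ε) * (I + ε))) =
      c1 * (N * (J - k * ε)) - c2 * (4 * (1 + 2 * ε) * (N * (I + ε))) := by ring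
    rw [this]
    linarith
  have e5 := le_of_mul_le_mul_left e4 hN
  have e6 : g ≤ ε * (c1 * k + e + 4 * c2 * (1 + 2 * I + 2 * ε)) := by
    rw [hg]
    nlinarith [e5]
  have e7 : ε * (c1 * k + e + 4 * c2 * (1 + 2 * I + 2 * ε)) ≤
      ε * (c1 * k + e + 4 * c2 * (3 + 2 * I)) := by
    apply mul_le_mul_of_nonneg_left _ hε0.le
    have : 4 * c2 * (1 + 2 * I + 2 * ε) ≤ 4 * c2 * (3 + 2 * I) :=
      mul_le_mul_of_nonneg_left (by linarith) (by positivity)
    linarith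
  linarith

/-- the bound for the logarithm -/
theorem SECA_log {l2 lx ε δ : ℝ} (h1 : l2 < lx * ε) (hlx : 0 ≤ lx) (hε1 : ε ≤ 1)
    (hδ0 : 0 < δ) (hδε : δ ≤ ε / 12) :
    l2 + lx ≤ 4 * (1 + 2 * ε) * ((1 - 4 * δ) / 4 * lx) := by
  have a3 : (1 + ε) ≤ (1 + 2 * ε) * (1 - 4 * δ) := by
    have : ε * δ ≤ 1 * (ε / 12) := mul_le_mul hε1 hδε hδ0.le zero_le_one
    nlinarith
  have a4 : (1 + ε) * lx ≤ (1 + 2 * ε) * (1 - 4 * δ) * lx := mul_le_mul_of_nonneg_right a3 hlx
  calc l2 + lx ≤ (1 + ε) * lx := by linarith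
    _ ≤ (1 + 2 * ε) * (1 - 4 * δ) * lx := a4
    _ = 4 * (1 + 2 * ε) * ((1 - 4 * δ) / 4 * lx) := by ring

theorem prf_SECA (h1 : D_MOM) (h2 : D_POS) : D_SECA := by
  intro hin hBV hP k h hinj r hr s F hs0 hs1 hF c1 c2 A hch hA E hE hyp
  obtain ⟨w, hw⟩ := prf_Wex
  have hc2 : 0 ≤ c2 := hch.1
  have hI : 0 ≤ ∫ t, F t ^ 2 := integral_nonneg fun t => sq_nonneg (F t)
  set I : ℝ := ∫ t, F t ^ 2 with hIdef
  set J : ℝ := ∑ m, JJ F m with hJdef
  set B : ℝ := ((r - 1).factorial : ℝ) * A / (1 - s) ^ (r - 1) with hBdef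
  have hs1' : 0 < 1 - s := by linarith
  have hEB : 0 ≤ (E.card : ℝ) * B := by
    rcases E.eq_empty_or_nonempty with h0 | ⟨M, hM⟩
    · rw [h0, Finset.card_empty, Nat.cast_zero, zero_mul]
    · have hA0 : 0 ≤ A := (SECA_GN_nonneg F M.toList).trans
        (hA M.toList (Finset.nodup_toList M) (by rw [Finset.length_toList]; exact hE M hM))
      positivity
  have hJ0 : 0 ≤ J := Finset.sum_nonneg fun m _ => I_Q19.JJ_nonneg F m
  have hcI : 0 ≤ 4 * c2 * I := by positivity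
  have hk : 0 < k := by
    rcases Nat.eq_zero_or_pos k with h0 | h0
    · exfalso
      subst h0
      have hJz : J = 0 := by rw [hJdef]; exact Finset.sum_of_isEmpty _
      rw [hJz, mul_zero] at hyp
      linarith
    · exact h0
  have hc1 : 0 ≤ c1 := by
    by_contra hcon
    have : c1 * J ≤ 0 := mul_nonpos_of_nonpos_of_nonneg (not_le.1 hcon).le hJ0
    linarith
  have hr0 : (0 : ℝ) < r := by exact_mod_cast (by omega : 0 < r)
  set g : ℝ := c1 * J - E.card * B - 4 * c2 * I with hg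
  have hg0 : 0 < g := by
    rw [hg]
    linarith
  set C : ℝ := c1 * k + E.card + 4 * c2 * (3 + 2 * I) with hC
  have hC0 : 0 ≤ C := by positivity
  obtain ⟨ε, hε0, hε1, hεg⟩ : ∃ ε : ℝ, 0 < ε ∧ ε ≤ 1 ∧ ε * C < g := by
    refine ⟨min 1 (g / (C + 1)), lt_min one_pos (by positivity), min_le_left _ _, ?_⟩
    have h1 : min 1 (g / (C + 1)) * C ≤ g / (C + 1) * C :=
      mul_le_mul_of_nonneg_right (min_le_right _ _) hC0
    have h2 : g / (C + 1) * C < g := by
      rw [div_mul_eq_mul_div, div_lt_iff₀ (by linarith)]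
      nlinarith
    linarith
  obtain ⟨hLow, hS1, hMul⟩ := hin hBV hP w hw k h hk hinj s F hs0 hs1 hF
  have hMul' := hMul r hr A hA
  obtain ⟨δ1, hδ1, hδ1', h3⟩ := hLow ε hε0
  set δ : ℝ := min δ1 (ε / 12) with hδ
  have hδ0 : 0 < δ := lt_min hδ1 (by positivity)
  have hδle : δ ≤ δ1 := min_le_left _ _
  have hδε : δ ≤ ε / 12 := min_le_right _ _
  have hδ8 : δ < 1 / 8 := lt_of_le_of_lt hδle hδ1'
  have hδ4 : 0 < 1 - 4 * δ := by linarith
  obtain ⟨D1, hD1⟩ := hS1 δ hδ0 hδ8 ε hε0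
  obtain ⟨D2, hD2⟩ := h3 δ hδ0 hδle
  obtain ⟨D3, hD3⟩ := hMul' δ hδ0 hδ8 ε hε0
  obtain ⟨x17, hx17⟩ := h1 w hw k h hk
  obtain ⟨x18, hx18⟩ := h2 w hw k h
  have hlog : ∀ᶠ x : ℝ in atTop, Real.log 2 / ε < Real.log x :=
    Real.tendsto_log_atTop.eventually_gt_atTop _
  obtain ⟨x4, hx4⟩ := eventually_atTop.1 hlog
  refine ⟨max (max D1 D2) D3, fun D0 hD0 => ?_⟩
  have hd1 : D0 ≥ D1 := le_trans (le_trans (le_max_left _ _) (le_max_left _ _)) hD0
  have hd2 : D0 ≥ D2 := le_trans (le_trans (le_max_right _ _) (le_max_left _ _)) hD0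
  have hd3 : D0 ≥ D3 := le_trans (le_max_right _ _) hD0
  obtain ⟨x1, hx1⟩ := hD1 D0 hd1
  obtain ⟨x2, hx2⟩ := hD2 D0 hd2
  obtain ⟨x3, hx3⟩ := hD3 D0 hd3
  refine ⟨max (max (max x1 x2) (max x3 x4)) (max (max x17 x18) 2), fun x hx => ?_⟩
  have g1 : x ≥ x1 := le_trans (le_trans (le_trans (le_max_left _ _) (le_max_left _ _))
    (le_max_left _ _)) hx
  have g2 : x ≥ x2 := le_trans (le_trans (le_trans (le_max_right _ _) (le_max_left _ _))
    (le_max_left _ _)) hx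
  have g3 : x ≥ x3 := le_trans (le_trans (le_trans (le_max_left _ _) (le_max_right _ _))
    (le_max_left _ _)) hx
  have g4 : x ≥ x4 := le_trans (le_trans (le_trans (le_max_right _ _) (le_max_right _ _))
    (le_max_left _ _)) hx
  have g17 : x ≥ x17 := le_trans (le_trans (le_trans (le_max_left _ _) (le_max_left _ _))
    (le_max_right _ _)) hx
  have g18 : x ≥ x18 := le_trans (le_trans (le_trans (le_max_right _ _) (le_max_left _ _))
    (le_max_right _ _)) hx
  have g5 : 2 ≤ x := le_trans (le_trans (le_max_right _ _) (le_max_right _ _)) hx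
  have hx0 : 0 < x := by linarith
  have hlx : 0 < Real.log x := Real.log_pos (by linarith)
  intro v0 hv0
  by_contra hno
  have hlR : Real.log (Rx δ x) = (1 - 4 * δ) / 4 * Real.log x := by
    rw [Rx, Real.log_rpow hx0]
    ring
  have hlR0 : 0 < Real.log (Rx δ x) := by
    rw [hlR]
    positivity
  have hN := I_Q19.Nn_pos hw k D0 (δ := δ) hx0 hlR0
  obtain ⟨l, hl⟩ : ∃ l : Co (Sx D0 x) k → ℝ, l = lam aP (yF (Rx δ x) F) := ⟨_, rfl⟩
  have k1 := hx1 x g1 v0 hv0 l hl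
  have k2 := fun m => hx2 x g2 v0 hv0 m l hl
  have k3 := fun m N hmN hNr => hx3 x g3 v0 hv0 m N hmN hNr l hl
  have k17 := hx17 x g17 D0 v0 (Sx D0 x) l r (by omega) c1 c2 hch
  have k18 := fun m N => hx18 x g18 D0 v0 (Sx D0 x) l m N
  have e0 : Real.log (2 * x) = Real.log 2 + Real.log x :=
    Real.log_mul (by norm_num) hx0.ne'
  have hl2 : 0 < Real.log 2 := Real.log_pos (by norm_num)
  have hL : Real.log (2 * x) ≤ 4 * (1 + 2 * ε) * Real.log (Rx δ x) := by
    have a1 := hx4 x g4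
    rw [div_lt_iff₀ hε0] at a1
    rw [e0, hlR]
    exact SECA_log a1 hlx.le hε1 hδ0 hδε
  have hL1 : 0 ≤ Real.log (2 * x) := by rw [e0]; linarith
  refine SECA_arith (k := k) c1 c2 g ε I J B E.card (Real.log (2 * x)) (Real.log (Rx δ x))
    (S1 w h D0 v0 x l l) (∑ m, S2 w h D0 v0 x m l l)
    ((1 / r) * ∑ m, ∑ N ∈ (univ.erase m).powersetCard (r - 1), S2M w h D0 v0 x m N l)
    (Nn w k D0 δ x) hI hc1 hc2 hε0 hε1 hN hg hεg hlR0 hL hL1 k1 ?_ ?_ k17
  · have e1 : Nn w k D0 δ x * (J - k * ε) = ∑ m, Nn w k D0 δ x * (JJ F m - ε) := by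
      rw [← Finset.mul_sum, Finset.sum_sub_distrib, Finset.sum_const, Finset.card_univ,
        Fintype.card_fin, nsmul_eq_mul]
    rw [e1]
    exact Finset.sum_le_sum fun m _ => k2 m
  · have e1 : ∀ m : Fin k, ∀ N ∈ (univ.erase m).powersetCard (r - 1),
        S2M w h D0 v0 x m N l ≤
        (if insert m N ∈ E then Nn w k D0 δ x * (B + ε) else 0) := by
      intro m N hN'
      obtain ⟨hsub, hcard⟩ := Finset.mem_powersetCard.1 hN'
      have hmN : m ∉ N := fun hm => by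
        have := hsub hm
        simp at this
      by_cases hmem : insert m N ∈ E
      · rw [if_pos hmem]
        exact k3 m N hmN (by omega)
      · rw [if_neg hmem]
        refine le_of_eq ?_
        by_contra hne
        obtain ⟨n, n1, n2, n3, n4⟩ := k18 m N hne
        refine hno ⟨n, n1, n2, n3, insert m N, ?_, hmem, n4⟩
        rw [Finset.card_insert_of_notMem hmN]
        omega
    have e2 : ∑ m : Fin k, ∑ N ∈ (univ.erase m).powersetCard (r - 1),
        S2M w h D0 v0 x m N l ≤ (r : ℝ) * (E.card * (Nn w k D0 δ x * (B + ε))) := by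
      rw [← SECA_count E hE]
      exact Finset.sum_le_sum fun m _ => Finset.sum_le_sum fun N hN' => e1 m N hN'
    calc (1 / (r : ℝ)) * ∑ m, ∑ N ∈ (univ.erase m).powersetCard (r - 1),
          S2M w h D0 v0 x m N l ≤
          (1 / (r : ℝ)) * ((r : ℝ) * (E.card * (Nn w k D0 δ x * (B + ε)))) :=
          mul_le_mul_of_nonneg_left e2 (by positivity)
      _ = Nn w k D0 δ x * (E.card * (B + ε)) := by
          field_simp

end MPb51559.DQ
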