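import Pool.Agent.Work.MP_b51559_nt.BG.Q.I_Q16
import Pool.Agent.Work.MP_b51559_nt.BG.Fin
import Pool.Agent.Work.MP_b51559_nt.DQ.PW
import Pool.Agent.Work.MP_b51559_nt.DQ.MOM
import Pool.Agent.Work.MP_b51559_nt.DQ.POS
import Pool.Agent.Work.MP_b51559_nt.DQ.SECA
import Pool.Agent.Work.MP_b51559_nt.DQ.FIN

set_option autoImplicit false

/-! # Block DQ: assembly, up to MultiConcl and FUNM -/

namespace MPb51559.DQ

open Finset Filter Topology MeasureTheory
open scoped Classical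
open MPb51559.BG MPb51559.BG.Q

/-- the interface with the sieve half of the block -/
def MULTI : Prop := BVE → PNTW → ∀ w, Wt w → ∀ (k : ℕ) (h : Fin k → ℕ), 0 < k →
    Function.Injective h → ∀ (s : ℝ) (F : (Fin k → ℝ) → ℝ), 0 < s → s < 1 → Tst k s F →
    ∀ r : ℕ, 2 ≤ r → MultiConcl w h s F r

theorem all_SECM (hM : MULTI) : SECM :=
  prf_SECA (prf_MOM prf_PW) prf_POS (fun hb hp w hw k h hk hi s F h0 h1 hF =>
    ⟨(prq_Q16 hb hp w hw k h hk hi s F h0 h1 hF).1, (prq_Q16 hb hp w hw k h hk hi s F h0 h1 hF).2,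
      hM hb hp w hw k h hk hi s F h0 h1 hF⟩)

theorem thmQ_of (hM : MULTI) (hF : FUNM) : ThmQ := prf_FIN all_BVE A.bg_PNTW (all_SECM hM) hF

end MPb51559.DQ
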