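import Pool.Agent.Work.MP_b51559_nt.DQ.StmtsS
import Pool.Agent.Work.MP_b51559_nt.BG.C.Util

set_option autoImplicit false

/-!
# Block DQ, item S10: pointwise bound of the diagonal variables of the extension
-/

namespace MPb51559.DQ

open Finset Filter Topology MeasureTheory
open scoped Classical
open MPb51559.BG MPb51559.BG.Q

namespace I_S10

theorem alg {b c W H : ℝ} (hc : 1 ≤ c) (hH : 0 < H) (h : H ≤ c * W) :
    (b / c) ^ 2 ≤ b ^ 2 * W ^ 2 / H ^ 2 := by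
  have hc0 : 0 < c := by linarith
  rw [div_pow, div_le_div_iff₀ (by positivity) (by positivity)]
  have h1 : H ^ 2 ≤ (c * W) ^ 2 := pow_le_pow_left₀ hH.le h 2
  calc b ^ 2 * H ^ 2 ≤ b ^ 2 * (c * W) ^ 2 := mul_le_mul_of_nonneg_left h1 (sq_nonneg b)
    _ = b ^ 2 * W ^ 2 * c ^ 2 := by ring

theorem dlN_noN {S : Finset ℕ} {k : ℕ} (N : Finset (Fin k)) (u : Co S k) : NoN N (dlN N u) := by
  intro j hj p hp
  unfold dlN at hp
  split_ifs at hp with h
  exact h ⟨j, hj, hp⟩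

/-- The volumes of the simplices decrease. -/
theorem vol_mono (s : ℝ) (hs0 : 0 < s) (hs1 : s < 1) {n k : ℕ} (h : n ≤ k) :
    (1 - s) ^ k / (k.factorial : ℝ) ≤ (1 - s) ^ n / (n.factorial : ℝ) := by
  have h1 : (n.factorial : ℝ) ≤ (k.factorial : ℝ) := by exact_mod_cast Nat.factorial_le h
  have h2 : (0 : ℝ) < (n.factorial : ℝ) := by exact_mod_cast Nat.factorial_pos n
  exact div_le_div₀ (pow_nonneg (by linarith) n)
    (pow_le_pow_of_le_one (by linarith) (by linarith) h) h2 h1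

end I_S10

open I_S10 in
/-- Item S10. -/
theorem prs_S10 (hS2 : S_2) (hS3 : S_3) : S_10 := by
  intro k s δ hs0 hs1 hδ0 hδ8 ε hε0 hε1
  have hs : 0 < 1 - s := by linarith
  have hβ : 0 < (1 - s) ^ k / (k.factorial : ℝ) := by positivity
  obtain ⟨D1, hD1⟩ := hS3 k s δ hs0 hs1 hδ0 hδ8 (ε * ((1 - s) ^ k / (k.factorial : ℝ)))
    (mul_pos hε0 hβ)
  refine ⟨max D1 2, fun D0 hD0 => ?_⟩
  have hD01 : D1 ≤ D0 := (le_max_left _ _).trans hD0
  have hD02 : 2 ≤ D0 := (le_max_right _ _).trans hD0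
  obtain ⟨x1, hx1⟩ := hD1 D0 hD01
  refine ⟨max x1 2, fun x hx F m N u => ?_⟩
  have hx1' : x1 ≤ x := (le_max_left _ _).trans hx
  have hx2 : (2 : ℝ) ≤ x := (le_max_right _ _).trans hx
  have hx3 : 1 < x := by linarith
  have hR := U.Rx_gt_one δ x hδ8 hx3
  have hZ1 : 1 ≤ Rx δ x ^ (1 - s) := Real.one_le_rpow hR.le (by linarith)
  have hlk := U.lk_pos D0 δ x hδ8 hx3
  have hNk : N.card ≤ k := by
    have := Finset.card_le_univ N
    rwa [Fintype.card_fin] at this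
  have hmono := vol_mono s hs0 hs1 hNk
  have hβN : 0 < (1 - s) ^ N.card / (N.card.factorial : ℝ) := by positivity
  have hlkN : 0 < lk D0 δ x ^ N.card := pow_pos hlk _
  have hH : (1 - ε) * ((1 - s) ^ N.card / (N.card.factorial : ℝ)) * lk D0 δ x ^ N.card ≤
      HN (Sx D0 x) N (Rx δ x ^ (1 - s)) := by
    refine le_trans ?_ (hx1 x hx1' N)
    rw [mul_comm _ (lk D0 δ x ^ N.card)]
    refine mul_le_mul_of_nonneg_left ?_ hlkN.le
    have := mul_le_mul_of_nonneg_left hmono hε0.le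
    linarith
  have hHpos : 0 < (1 - ε) * ((1 - s) ^ N.card / (N.card.factorial : ℝ)) *
      lk D0 δ x ^ N.card := by
    have h1 : 0 < 1 - ε := by linarith
    positivity
  unfold yN yxN
  by_cases hu : (prN N u : ℝ) ≤ Rx δ x ^ (1 - s)
  · rw [if_pos hu, if_pos hu]
    have hS : ∀ p ∈ Sx D0 x, p.Prime ∧ 2 < p := fun p hp =>
      ⟨(U.Sx_prime hp).1, lt_of_le_of_lt hD02 (U.Sx_prime hp).2.1⟩
    have h2 := hS2 (Sx D0 x) k N hS (Rx δ x ^ (1 - s)) hZ1 (dlN N u) (dlN_noN N u)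
    exact alg (b := BN (Rx δ x) F m N (dlN N u)) h2.1 hHpos (hH.trans h2.2)
  · rw [if_neg hu, if_neg hu]
    norm_num

end MPb51559.DQ
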