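import Pool.Agent.Work.MP_b51559_nt.DQ.Defs

set_option autoImplicit false

/-!
# Block DQ: the items of the moment part, of the function part and of the assembly

Every docstring is the complete proof. Models: BG/Q (files Q17.lean, Q18.lean, Q19.lean, Q20.lean,
FUN.lean).
-/

namespace MPb51559.DQ

open Finset Filter Topology MeasureTheory
open scoped Classical
open MPb51559.BG MPb51559.BG.Q

/-- PW, the pointwise moment inequality. χ = the set of m with n + h m prime, X = #χ. For m with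
a m ≠ 0: m ∈ χ and the number of N ⊆ χ without m, #N + 1 = r, is C(X-1, r-1), so the right side is
(1/r) S C(X-1, r-1), S = Σ a. If X = 0 then S = 0 and the claim is -c2 A ≤ 0. If X ≥ 1: 0 ≤ S ≤ A X,
(1/r) C(X-1,r-1) = C(X,r)/X (Nat.succ_mul_choose_eq / Nat.add_one_mul_choose_eq), and c1 S - c2 A ≤
S C(X,r)/X: both sides are linear in S; at S = 0 it is -c2 A ≤ 0, at S = A X it is A (c1 X - c2) ≤
A C(X,r) (Chord); write S = θ A X, θ ∈ [0,1] (A > 0, or A = 0 = S). -/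
def D_PW : Prop := ∀ (k r : ℕ), 1 ≤ r → ∀ (a : Fin k → ℝ) (χ : Finset (Fin k)) (A c1 c2 : ℝ),
  0 ≤ A → (∀ m, 0 ≤ a m ∧ a m ≤ A) → (∀ m, a m ≠ 0 → m ∈ χ) → Chord r c1 c2 →
  c1 * (∑ m, a m) - c2 * A ≤
    (1 / r) * ∑ m, ∑ N ∈ (univ.erase m).powersetCard (r - 1), a m * (if N ⊆ χ then 1 else 0)

/-- MOM, summed over n. For x large tm m n ≤ log(2x) wp n and tm ≥ 0 (model: BG/Q/Q17.lean, same facts).
For every n apply PW with a m = tm w h x m n, χ = {m : n + h m prime}, A = log(2x) wp w h x n ≥ 0,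
multiply by (Vn h l n)² ≥ 0 and sum over n ≡ v0. USES: PW. -/
def D_MOM : Prop := ∀ w, Wt w → ∀ (k : ℕ) (h : Fin k → ℕ), 0 < k → ∃ x0 : ℝ, ∀ x ≥ x0,
  ∀ (D0 v0 : ℕ) (S : Finset ℕ) (l : Co S k → ℝ) (r : ℕ), 1 ≤ r → ∀ c1 c2 : ℝ, Chord r c1 c2 →
  c1 * (∑ m, S2 w h D0 v0 x m l l) - c2 * (Real.log (2 * x) * S1 w h D0 v0 x l l) ≤
    (1 / r) * ∑ m, ∑ N ∈ (univ.erase m).powersetCard (r - 1), S2M w h D0 v0 x m N l

/-- POS: a sum S2M which is not 0 gives n (model: BG/Q/Q18.lean; all terms are ≥ 0 is not needed): some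
term is not 0, so tm w h x m n ≠ 0 (n + h m prime, weight not 0, so x < n and n + h i < 2x for x
large) and n + h j is prime for all j ∈ N. -/
def D_POS : Prop := ∀ w, Wt w → ∀ (k : ℕ) (h : Fin k → ℕ), ∃ x0 : ℝ, ∀ x ≥ x0,
  ∀ (D0 v0 : ℕ) (S : Finset ℕ) (l : Co S k → ℝ) (m : Fin k) (N : Finset (Fin k)),
  S2M w h D0 v0 x m N l ≠ 0 →
  ∃ n : ℕ, n ≡ v0 [MOD primorial D0] ∧ x < n ∧ (∀ i, (n + h i : ℝ) < 2 * x) ∧
    ∀ i ∈ insert m N, (n + h i).Prime

/-- SECA: from the bound for the moment of order r to INTERFACE 1 (model: BG/Q/Q19.lean). k > 0 (for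
k = 0: JJ sum is 0 and the left side is ≥ 0: E is empty, c2 ≥ 0, so impossible; note A may be
negative only if there is no nodup list of length r, then E is empty as well). w from prf_Wex; JJ ≥ 0. Let
B = (r-1)! A/(1-s)^(r-1), I = ∫F², J = Σ JJ. If no n and M as wanted exist, then S2M m N = 0 for all m, N
with insert m N not in E (D_POS), and the number of pairs (m, N) with insert m N = M in E, m ∉ N, is r for
every M ∈ E; so by MOM and MultiConcl
c1 Σ S2 - c2 log(2x) S1 ≤ (1/r) (#E r) Nn (B + ε) = #E Nn (B + ε).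
LowConcl (c1 > 0: otherwise the hypothesis #E B + 4 c2 I < c1 J ≤ 0 fails, as #E B ≥ 0: if E is not
empty then k ≥ r, there is a nodup list of length r and A ≥ GN ≥ 0) and S1Concl with
log(2x) ≤ (4/(1-4δ) + ε) log R, Nn > 0: c1 (J - kε) - c2 (4/(1-4δ) + ε)(I + ε) ≤ #E (B + ε), false for
ε, δ small and x large. GN F L ≥ 0: integral of a nonnegative function. USES: MOM, POS. -/
def D_SECA : Prop := (BVE → PNTW → ∀ w, Wt w → ∀ (k : ℕ) (h : Fin k → ℕ), 0 < k →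
    Function.Injective h → ∀ (s : ℝ) (F : (Fin k → ℝ) → ℝ), 0 < s → s < 1 → Tst k s F →
    LowConcl w h F ∧ S1Concl w h F ∧ ∀ r : ℕ, 2 ≤ r → MultiConcl w h s F r) → SECM

/-- CHO, the chord through X0, X0 + 1. c1 = C(X0, r-1), c2 = X0 c1 - C(X0, r). C(X+1, r) - C(X, r) =
C(X, r-1) is nondecreasing in X, so C(X, r) ≥ C(X0, r) + (X - X0) C(X0, r-1) for all X (induction upwards
and downwards); X = 0 gives c2 ≥ 0 (r ≥ 1). -/
def D_CHO : Prop := ∀ r X0 : ℕ, 1 ≤ r → Chord r (X0.choose (r - 1) : ℝ)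
  ((X0 : ℝ) * (X0.choose (r - 1) : ℝ) - (X0.choose r : ℝ))

/-- RAT: C(X0, r) for X0 = floor ρ: C(X0, r) ≥ (X0 - r)^r/r! ≥ (1 - η) ρ^r/r! for ρ large. -/
def D_RAT : Prop := ∀ (r : ℕ) (η : ℝ), 0 < η → ∃ ρ0 : ℝ, 0 < ρ0 ∧ ∀ ρ ≥ ρ0,
  (1 - η) * ρ ^ r / (r.factorial : ℝ) ≤ ((⌊ρ⌋₊.choose r : ℕ) : ℝ)

/-- FUNM, the function of BG/Q/FUN.lean (helper97). F = 1[t ≥ 0, sum t ≤ s] Π g(t_i) with the same
choices; I = a2^k, J = (1-η) a1² a2^(k-1), A = a1^(2r) a2^(k-r) (mgL F L ≤ a1^r Π_{i ∉ L} g, cut in the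
variables of L), η, s small depending on ε, r. ρ = (1-η) k a1²/(4 a2) → ∞, X0 = floor ρ, c1, c2 from CHO:
c1 k J - 4 c2 I = 4 I (c1 ρ - c2) ≥ 4 I (c1 X0 - c2) = 4 I C(X0, r) ≥ 4 I (1-η) ρ^r/r! (RAT), and
4 I ρ^r/r! / ((r-1)! A/(1-s)^(r-1)) = 4 (1-s)^(r-1) (1-η)^r (k/4)^r/(r! (r-1)!), while C(k,r) ≤ k^r/r!:
it is enough that (1-η)^(r+1) (1-s)^(r-1) > 1 - ε (k > 0, A > 0). USES: CHO, RAT. -/
def D_FUNM : Prop := FUNM

/-- FIN, the theorem from the interfaces (model: BG/Q/Q20.lean). ε ≥ 1: trivial. K from FUNM. Fix k ≥ K,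
h, F. For each of the finitely many sets E of r-subsets with #E < (1-ε) C(k,r)/(4^(r-1)(r-1)!) the hypothesis
of SECM holds (#E times the nonnegative constant, c1 ≥ 0, Σ JJ ≥ k J), so there are D0 (the maximum of the
thresholds) and x0 (maximum), v0 from prf_V0. For x ≥ x0 apply it to the set E of the realised r-sets:
contradiction if it is too small. -/
def D_FIN : Prop := BVE → PNTW → SECM → FUNM → ThmQ

end MPb51559.DQ
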