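import Pool.Agent.Work.MP_b51559_nt.DQ.Defs

set_option autoImplicit false

/-!
# Block DQ, analytic half (captain helper31)

Everything of BG/C and BG/Q is available as a theorem (C_BVM: prf_BVM, C_MG: prf_MG, C_SUMK: all_SUMK,
C_BAS: prf_BAS; files BG/C/All.lean). The variation lemmas PH_mono, PH_anti, PH_add, PH_const of
BG/C/PH.lean and indco, indcc, cind of BG/Q/I_Q8.lean (namespace MPb51559.BG.Q.I_Q8) may be imported.
Every docstring is the complete proof.
-/

namespace MPb51559.DQ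

open Finset Filter Topology MeasureTheory
open scoped Classical
open MPb51559.BG MPb51559.BG.Q

/-- the variables of `N` are nonnegative with sum at most `a` -/
def ind {k : ℕ} (N : Finset (Fin k)) (a : ℝ) (t : Fin k → ℝ) : Prop :=
  (∀ j ∈ N, 0 ≤ t j) ∧ ∑ j ∈ N, t j ≤ a

/-- functions of the variables outside `N`, supported on the simplex of size `s` in these variables,
bounded by `M`, measurable, all sections of variation at most `V` -/
structure MGP (k : ℕ) (s M : ℝ) (V : NNReal) (N : Finset (Fin k)) (G : (Fin k → ℝ) → ℝ) : Prop where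
  meas : Measurable G
  bdd : ∀ t, |G t| ≤ M
  indep : ∀ j ∈ N, ∀ (t : Fin k → ℝ) (u : ℝ), G (Function.update t j u) = G t
  supp : ∀ t, G t ≠ 0 → (∀ i, i ∉ N → 0 ≤ t i) ∧ ∑ i ∈ Nᶜ, t i ≤ s
  bv : ∀ (t : Fin k → ℝ) (i : Fin k),
    eVariationOn (fun u => G (Function.update t i u)) Set.univ ≤ V

/-- A_STEP. One step lemma (model: the proof of prf_MG in BG/C/MG.lean, line by line). G (update t j u) ≠ 0
gives 0 ≤ u (j is not in N) and u + sum of the t i, i not in insert j N, ≤ s with t i ≥ 0, so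
u ≤ s: the marginal is the integral over [0, s] of the sections. Measurable:
`StronglyMeasurable.integral_prod_right`; bound M s; independent of t j (update_idem) and of t i,
i ∈ N (update_comm); support from one u with G (update t j u) ≠ 0; variation in direction i ≠ j:
the sum of the increments is at most the integral over [0, s] of the variations of the sections of
G, V s; in direction j it is constant. -/
def A_STEP : Prop := ∀ (k : ℕ) (s M : ℝ) (V : NNReal), 0 < s → ∀ (N : Finset (Fin k))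
  (G : (Fin k → ℝ) → ℝ) (j : Fin k), j ∉ N → MGP k s M V N G →
  MGP k s (M * s) (V * s.toNNReal) (insert j N) (marg G j)

/-- A_MGL. Induction on n with A_STEP: M = |M0| s^n, V = V0 (s.toNNReal)^n, where M0, V0 are the
constants of Tst (n = 0: L = [], mgL F [] = F, the complement of the empty set is univ). USES: A_STEP. -/
def A_MGL : Prop := ∀ (k : ℕ) (s : ℝ) (F : (Fin k → ℝ) → ℝ), 0 < s → Tst k s F → ∀ n : ℕ,
  ∃ (M : ℝ) (V : NNReal), 0 ≤ M ∧ ∀ L : List (Fin k), L.Nodup → L.length = n →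
    MGP k s M V L.toFinset (mgL F L)

/-- A_BVL. Class BVk of the integrand (model: BG/Q/I_Q8.lean). Write Ψ for the function. Support: Ψ t ≠ 0
gives 0 ≤ t m < 1, 0 ≤ t j ≤ 1 - s for j in N (single_le_sum), and for the other i: 0 ≤ t i ≤ s.
Bound M². Sections: in direction m it is a constant (at most M²) times the indicator of [0, 1), at
most 2 M²; in direction i ∈ N: G is constant, the condition ind N (1 - s) (update t i u) is (∀ j ∈
N.erase i, 0 ≤ t j) and 0 ≤ u and u ≤ 1 - s - sum over N.erase i of t j: constant times the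
indicator of an interval (empty if the bound is negative), at most 2 M²; in the other directions it is
0 or G², C_BVM: at most 2 M V. USES: C_BVM. -/
def A_BVL : Prop := ∀ (k : ℕ) (s M : ℝ) (V : NNReal), 0 < s → s < 1 → 0 ≤ M →
  ∀ (N : Finset (Fin k)) (m : Fin k) (G : (Fin k → ℝ) → ℝ), m ∉ N → MGP k s M V (insert m N) G →
  BVk k 1 (M ^ 2) ((2 * M ^ 2).toNNReal + (2 * M * V).toNNReal)
    (cutm m (fun t => if ind N (1 - s) t then G t ^ 2 else 0))

/-- A_FUB. Fubini in the variable j. k = n + 1 (j exists). With the volume preserving map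
`MeasureTheory.volume_preserving_piFinSuccAbove (fun _ => ℝ) j` the left side is ∫ x, ∫ y,
Φ x (insertNth j x y) (`integral_prod`, integrability is the last hypothesis), and Φ x (insertNth j x y) =
Φ x (insertNth j 0 y) =: f x y (insertNth j x y is an update of insertNth j 0 y). On the right
∫ t, cutm j (Φ x) t = ∫ (x', y), 1[0 ≤ x' < 1] f x y = 1 * ∫ y, f x y (`integral_prod_mul`, which
needs no integrability). -/
def A_FUB : Prop := ∀ (k : ℕ) (j : Fin k) (Φ : ℝ → (Fin k → ℝ) → ℝ),
  (∀ (x : ℝ) (t : Fin k → ℝ) (u : ℝ), Φ x (Function.update t j u) = Φ x t) →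
  Integrable (fun t : Fin k → ℝ => Φ (t j) t) →
  ∫ t : Fin k → ℝ, Φ (t j) t = ∫ x : ℝ, ∫ t : Fin k → ℝ, cutm j (Φ x) t

/-- A_CUT. Induction on L. -/
def A_CUT : Prop := ∀ (k : ℕ) (Φ : (Fin k → ℝ) → ℝ) (L : List (Fin k)) (t : Fin k → ℝ),
  cutL Φ L t = if ∀ j ∈ L, 0 ≤ t j ∧ t j < 1 then Φ t else 0

/-- A_VOL. Induction on L for all a and H. L = []: ind ∅ a t is 0 ≤ a, both sides are ∫ H. L = j :: L',
N' = L'.toFinset (j not in N'). Put Φ x t = if 0 ≤ x ∧ ind N' (a - x) t then H t else 0: Φ (t j) t is the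
integrand, Φ x does not depend on t j, the integrand is bounded, measurable and has bounded
support (t i in [0, a] for i ∈ N, in [0, T] otherwise), so A_FUB gives ∫ x, ∫ t, cutm j (Φ x) t. For x
outside [0, a] Φ x = 0 (if x > a then ind N' (a - x) is false). For x in [0, a] cutm j (Φ x) t =
if ind N' (a - x) t then (cutm j H) t else 0, and the induction hypothesis for cutm j H (measurable,
bounded, independent of the variables in N', support: 0 ≤ t j ≤ 1) gives (a - x)^n'/n'! ∫ cutL (cutm j H) L',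
and cutL (cutm j H) L' = cutL H (j :: L') (A_CUT). Finally ∫ x in 0..a, (a - x)^n'/n'! =
a^(n'+1)/(n'+1)!. USES: A_FUB, A_CUT. -/
def A_VOL : Prop := ∀ (k : ℕ) (L : List (Fin k)), L.Nodup → ∀ a : ℝ, 0 ≤ a →
  ∀ H : (Fin k → ℝ) → ℝ, Measurable H → (∃ B : ℝ, ∀ t, |H t| ≤ B) →
  (∃ T : ℝ, ∀ t, H t ≠ 0 → ∀ i, i ∉ L → 0 ≤ t i ∧ t i ≤ T) →
  (∀ j ∈ L, ∀ (t : Fin k → ℝ) (u : ℝ), H (Function.update t j u) = H t) →
  ∫ t, (if ind L.toFinset a t then H t else 0) =
    a ^ L.length / (L.length.factorial : ℝ) * ∫ t, cutL H L t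

/-- A_GNI. The integral of the integrand of MultiConcl. GN F L ≥ 0: integral of a nonnegative
function (A_CUT). Apply A_VOL to the list N.toList (its toFinset is N, its length is card N) and H =
cutm m (mgL F L ^ 2) (A_MGL: measurable, bounded, support in t i ∈ [0, max 1 s] for i not in N,
independent of the variables of N): cutm m (if ind .. then G² else 0) = if ind .. then H else 0, and
cutL H N.toList = cutL (mgL F L ^ 2) L (A_CUT on both sides, L.toFinset = insert m N).
USES: A_MGL, A_CUT, A_VOL. -/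
def A_GNI : Prop := ∀ (k : ℕ) (s : ℝ) (F : (Fin k → ℝ) → ℝ), 0 < s → s < 1 → Tst k s F →
  ∀ (m : Fin k) (N : Finset (Fin k)) (L : List (Fin k)), m ∉ N → L.Nodup →
  L.toFinset = insert m N → 0 ≤ GN F L ∧
  ∫ t, cutm m (fun t => if ind N (1 - s) t then mgL F L t ^ 2 else 0) t =
    (1 - s) ^ N.card / (N.card.factorial : ℝ) * GN F L

/-- A_SIM. The simplex in all variables: class BVk (sections are indicators of intervals or 0: variation
at most 2, see indcc in BG/Q/I_Q8.lean) and volume: A_VOL for H = 1, L = List.finRange n (support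
condition empty, `List.mem_finRange`), and ∫ cutL 1 (List.finRange n) = volume of [0,1)^n = 1
(A_CUT; `Real.volume_pi_Ico` or `volume_pi_pi`). USES: A_VOL, A_CUT. -/
def A_SIM : Prop := ∀ (n : ℕ) (a : ℝ), 0 ≤ a → a ≤ 1 →
  BVk n 1 1 2 (fun t : Fin n → ℝ => if (∀ j, 0 ≤ t j) ∧ ∑ j, t j ≤ a then 1 else 0) ∧
  ∫ t : Fin n → ℝ, (if (∀ j, 0 ≤ t j) ∧ ∑ j, t j ≤ a then (1 : ℝ) else 0) =
    a ^ n / (n.factorial : ℝ)

/-- A_HN. The normaliser in n colours: C_SUMK (T0 = 1, M = 1, V = 2) for the function of A_SIM with a = 1 - s;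
for x large R = Rx δ x > 1, tv ≥ 0 (prt ≥ 1) and nrm u ≤ R^(1-s) iff sz R u ≤ 1 - s iff Σ tv ≤ 1 - s
(C_BAS: sz = Σ tv). USES: C_SUMK, C_BAS, A_SIM. -/
def A_HN : Prop := ∀ (n : ℕ) (s δ : ℝ), 0 < s → s < 1 → 0 < δ → δ < 1 / 8 → ∀ ε : ℝ, 0 < ε →
  Ev fun D0 x =>
  |∑ u : Co (Sx D0 x) n, (if (nrm u : ℝ) ≤ Rx δ x ^ (1 - s) then (1 : ℝ) else 0) / mw aF u -
    lk D0 δ x ^ n * ((1 - s) ^ n / (n.factorial : ℝ))| ≤ ε * lk D0 δ x ^ n

end MPb51559.DQ
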